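import Mathlib

set_option autoImplicit false

/-!
# Definitions for MP_12f6a1_al (locally minimal groups, weight, Ulam-measurable cardinals)
-/

open Topology Filter Set

universe u v

namespace Pool.Agent.Helper80.LocMin

/-- The weight of a topological space: the least cardinality of a base of open sets. -/
noncomputable def weight (X : Type u) [TopologicalSpace X] : Cardinal.{u} :=
  sInf {κ : Cardinal.{u} | ∃ B : Set (Set X), TopologicalSpace.IsTopologicalBasis B ∧ Cardinal.mk B = κ}

/-- A cardinal `κ` is Ulam-measurable if some set of cardinality `κ` carries a free (i.e. no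
singleton belongs to it) ultrafilter closed under countable intersections. -/
def UlamMeasurable (κ : Cardinal.{u}) : Prop :=
  ∃ (S : Type u) (F : Ultrafilter S), Cardinal.mk S = κ ∧ (∀ a : S, {a} ∉ F) ∧
    ∀ s : ℕ → Set S, (∀ n, s n ∈ F) → ⋂ n, s n ∈ F

/-- A Hausdorff topological group `G` is locally minimal if there is a neighbourhood `V` of the
identity such that every continuous isomorphism `f : G → H` onto a Hausdorff topological group
`H`, for which `f(V)` is a neighbourhood of the identity of `H`, is open. -/
def IsLocallyMinimal (G : Type u) [Group G] [TopologicalSpace G] : Prop :=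
  ∃ V ∈ 𝓝 (1 : G), ∀ (H : Type u) [Group H] [TopologicalSpace H] [IsTopologicalGroup H]
    [T2Space H] (f : G →* H), Function.Bijective f → Continuous f → f '' V ∈ 𝓝 (1 : H) →
      IsOpenMap f

/-- Cauchy sequences of a topological group (for the two-sided uniformity). -/
def IsCauchySeq {G : Type u} [Group G] [TopologicalSpace G] (x : ℕ → G) : Prop :=
  ∀ U ∈ 𝓝 (1 : G), ∃ N : ℕ, ∀ m ≥ N, ∀ n ≥ N, (x m)⁻¹ * x n ∈ U ∧ x m * (x n)⁻¹ ∈ U

/-- Every Cauchy sequence converges. -/
def IsSeqComplete (G : Type u) [Group G] [TopologicalSpace G] : Prop :=
  ∀ x : ℕ → G, IsCauchySeq x → ∃ g : G, Tendsto x atTop (𝓝 g)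

/-- `i : G → K` exhibits the compact Hausdorff group `K` as the completion of `G` (so `G` is
precompact): `i` is a homomorphism and a topological embedding with dense image. -/
structure IsCompactCompletion {G : Type u} {K : Type v} [Group G] [TopologicalSpace G] [Group K]
    [TopologicalSpace K] (i : G →* K) : Prop where
  topGroup : IsTopologicalGroup K
  t2 : T2Space K
  compact : CompactSpace K
  embedding : IsEmbedding i
  dense : DenseRange i

end Pool.Agent.Helper80.LocMin
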