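import Pool.Agent.Helper80.MainAbs
import Pool.Agent.Helper80.LocMinDefs

set_option autoImplicit false
set_option linter.unusedSectionVars false

/-!
# Centrality of the identity component of a compact nilpotent group
-/

open Topology Filter Set
open scoped commutatorElement IsMulCommutative

namespace Pool.Agent.Helper80

noncomputable section

/-- The closure of a nilpotent group is nilpotent. -/
theorem isNilpotent_of_dense {G K : Type*} [Group G] [Group K] [TopologicalSpace K]
    [IsTopologicalGroup K] [T2Space K] (i : G →* K) (hd : DenseRange i)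
    (hG : Group.IsNilpotent G) : Group.IsNilpotent K := by
  obtain ⟨n, hn⟩ := (Subgroup.nilpotent_iff_lowerCentralSeries).1 hG
  refine (Subgroup.nilpotent_iff_lowerCentralSeries).2 ⟨n, ?_⟩
  have key : ∀ n, (⊤ : Subgroup K).lowerCentralSeries n ≤
      (((⊤ : Subgroup G).lowerCentralSeries n).map i).topologicalClosure := by
    intro n
    induction n with
    | zero =>
      intro x _
      change x ∈ closure _
      have : x ∈ closure (range i) := hd x
      refine closure_mono ?_ this
      rintro _ ⟨g, rfl⟩
      exact ⟨g, trivial, rfl⟩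
    | succ n ih =>
      rw [Subgroup.lowerCentralSeries_succ, Subgroup.commutator_le]
      intro x hx y _
      have hx' : x ∈ closure ((((⊤ : Subgroup G).lowerCentralSeries n).map i : Subgroup K) : Set K) :=
        ih hx
      have hy' : y ∈ closure (range i) := hd y
      have hc : Continuous (Function.uncurry (fun x y : K => ⁅x, y⁆)) := by
        simp only [commutatorElement_def]
        fun_prop
      refine map_mem_closure₂ hc hx' hy' ?_
      rintro _ ⟨a, ha, rfl⟩ _ ⟨b, rfl⟩
      refine ⟨⁅a, b⁆, ?_, map_commutatorElement i a b⟩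
      rw [Subgroup.lowerCentralSeries_succ]
      exact Subgroup.commutator_mem_commutator ha (Subgroup.mem_top _)
  rw [eq_bot_iff]
  intro x hx
  have h1 := key n hx
  rw [hn, Subgroup.map_bot] at h1
  have h2 : x ∈ closure ({1} : Set K) := h1
  rw [closure_singleton] at h2
  exact h2

variable {K : Type*} [Group K] [TopologicalSpace K] [IsTopologicalGroup K] [CompactSpace K]
  [T2Space K]

/-- A connected subgroup all of whose commutators are central is central. -/
theorem le_center_of_commutator (D : Subgroup K) (hD : IsPreconnected (D : Set K))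
    (h : ∀ x : K, ∀ d ∈ D, ⁅x, d⁆ ∈ Subgroup.center K) : D ≤ Subgroup.center K := by
  intro d0 hd0
  rw [Subgroup.mem_center_iff]
  intro x0
  by_contra hne
  have hne' : ⁅x0, d0⁆ ≠ 1 := fun h1 => hne (commutatorElement_eq_one_iff_mul_comm.1 h1)
  have hZc : IsClosed (Subgroup.center K : Set K) := by
    have : (Subgroup.center K : Set K) = ⋂ g : K, {z | g * z = z * g} := by
      ext z
      simp only [SetLike.mem_coe, Subgroup.mem_center_iff, mem_iInter, mem_ofPred_eq]
    rw [this]
    exact isClosed_iInter (fun g => isClosed_eq (by fun_prop) (by fun_prop))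
  have : CompactSpace (Subgroup.center K) := isCompact_iff_compactSpace.1 hZc.isCompact
  obtain ⟨χ, hχ⟩ := exists_character_ne_one (A := Subgroup.center K) ⟨⁅x0, d0⁆, h x0 d0 hd0⟩
    (fun h1 => hne' (congrArg Subtype.val h1))
  -- the characters `x ↦ χ ⁅x, d⁆`
  have hmul : ∀ (x x' : K) (d : K), ⁅x', d⁆ ∈ Subgroup.center K → ⁅x * x', d⁆ = ⁅x, d⁆ * ⁅x', d⁆ := by
    intro x x' d hc
    rw [Subgroup.mem_center_iff] at hc
    have h1 := hc (d * x⁻¹ * d⁻¹)
    have h2 := hc x
    calc ⁅x * x', d⁆ = (x * ⁅x', d⁆) * (d * x⁻¹ * d⁻¹) := by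
          simp only [commutatorElement_def]; group
      _ = ⁅x', d⁆ * (x * (d * x⁻¹ * d⁻¹)) := by rw [h2]; group
      _ = (x * (d * x⁻¹ * d⁻¹)) * ⁅x', d⁆ := (hc _).symm
      _ = ⁅x, d⁆ * ⁅x', d⁆ := by simp only [commutatorElement_def]; group
  let φ : D → PontryaginDual K := fun d =>
    { toFun := fun x => χ ⟨⁅x, (d : K)⁆, h x d d.2⟩
      map_one' := by
        have : (⟨⁅(1 : K), (d : K)⁆, h 1 d d.2⟩ : Subgroup.center K) = 1 :=
          Subtype.ext (commutatorElement_one_left _)
        rw [this, map_one]
      map_mul' := by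
        intro x y
        have : (⟨⁅x * y, (d : K)⁆, h (x * y) d d.2⟩ : Subgroup.center K) =
            ⟨⁅x, (d : K)⁆, h x d d.2⟩ * ⟨⁅y, (d : K)⁆, h y d d.2⟩ :=
          Subtype.ext (hmul x y d (h y d d.2))
        rw [this, map_mul]
      continuous_toFun := by
        apply (map_continuous χ).comp
        apply Continuous.subtype_mk
        simp only [commutatorElement_def]
        fun_prop }
  have hφ : Continuous φ := by
    refine ContinuousMonoidHom.continuous_of_continuous_uncurry _ ?_
    change Continuous (fun p : D × K => χ ⟨⁅p.2, (p.1 : K)⁆, h p.2 p.1 p.1.2⟩)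
    apply (map_continuous χ).comp
    apply Continuous.subtype_mk
    simp only [commutatorElement_def]
    fun_prop
  have hDp : PreconnectedSpace D := isPreconnected_iff_preconnectedSpace.1 hD
  have h1 : φ ⟨d0, hd0⟩ = φ 1 := hDp.constant hφ
  have h2 : φ ⟨d0, hd0⟩ x0 = φ 1 x0 := by rw [h1]
  apply hχ
  have h3 : φ 1 x0 = 1 := by
    change χ ⟨⁅x0, ((1 : D) : K)⁆, _⟩ = 1
    have : (⟨⁅x0, ((1 : D) : K)⁆, h x0 (1 : D) (1 : D).2⟩ : Subgroup.center K) = 1 :=
      Subtype.ext (commutatorElement_one_right _)
    rw [this, map_one]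
  rw [h3] at h2
  exact h2

/-- commutator with a connected subgroup is connected -/
theorem isPreconnected_commutator (D : Subgroup K) (hD : IsPreconnected (D : Set K)) :
    IsPreconnected ((⁅D, (⊤ : Subgroup K)⁆ : Subgroup K) : Set K) := by
  set E : Subgroup K := ⁅D, (⊤ : Subgroup K)⁆ with hE
  have hsub : E ≤ (Subgroup.connectedComponentOfOne E).map E.subtype := by
    rw [hE, Subgroup.commutator_le]
    intro d hd x _
    refine ⟨⟨⁅d, x⁆, Subgroup.commutator_mem_commutator hd (Subgroup.mem_top _)⟩, ?_, rfl⟩
    change _ ∈ connectedComponent (1 : E)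
    have hDp : PreconnectedSpace D := isPreconnected_iff_preconnectedSpace.1 hD
    have hc : Continuous (fun d' : D => (⟨⁅(d' : K), x⁆,
        Subgroup.commutator_mem_commutator d'.2 (Subgroup.mem_top _)⟩ : E)) := by
      apply Continuous.subtype_mk
      simp only [commutatorElement_def]
      fun_prop
    have h1 : (1 : E) ∈ range (fun d' : D => (⟨⁅(d' : K), x⁆,
        Subgroup.commutator_mem_commutator d'.2 (Subgroup.mem_top _)⟩ : E)) :=
      ⟨1, Subtype.ext (commutatorElement_one_left _)⟩
    exact (isPreconnected_range hc).subset_connectedComponent h1 ⟨⟨d, hd⟩, rfl⟩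
  rw [isPreconnected_iff_preconnectedSpace]
  have huniv : connectedComponent (1 : E) = univ := by
    rw [eq_univ_iff_forall]
    rintro ⟨x, hx⟩
    obtain ⟨y, hy, hyx⟩ := hsub hx
    have : y = ⟨x, hx⟩ := Subtype.ext hyx
    rw [← this]
    exact hy
  constructor
  rw [← huniv]
  exact isPreconnected_connectedComponent

/-- iterated commutators of the identity component -/
def Dser (K : Type*) [Group K] [TopologicalSpace K] [IsTopologicalGroup K] : ℕ → Subgroup K
  | 0 => Subgroup.connectedComponentOfOne K
  | n + 1 => ⁅Dser K n, (⊤ : Subgroup K)⁆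

/-- In a compact nilpotent group the identity component is central. -/
theorem component_le_center (hK : Group.IsNilpotent K) :
    Subgroup.connectedComponentOfOne K ≤ Subgroup.center K := by
  obtain ⟨n, hn⟩ := (Subgroup.nilpotent_iff_lowerCentralSeries).1 hK
  have hDs : ∀ m, Dser K (m + 1) = ⁅Dser K m, (⊤ : Subgroup K)⁆ := fun m => rfl
  have hDc : ∀ m, IsPreconnected ((Dser K m : Subgroup K) : Set K) := by
    intro m
    induction m with
    | zero => exact isPreconnected_connectedComponent
    | succ m ih => rw [hDs]; exact isPreconnected_commutator _ ih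
  have hDl : ∀ m, Dser K m ≤ (⊤ : Subgroup K).lowerCentralSeries m := by
    intro m
    induction m with
    | zero => exact le_top
    | succ m ih =>
      rw [hDs, Subgroup.lowerCentralSeries_succ]
      exact Subgroup.commutator_mono ih le_rfl
  have hstep : ∀ m, Dser K (m + 1) ≤ Subgroup.center K → Dser K m ≤ Subgroup.center K := by
    intro m hm
    apply le_center_of_commutator _ (hDc m)
    intro x d hd
    have h1 : ⁅d, x⁆ ∈ Dser K (m + 1) := Subgroup.commutator_mem_commutator hd (Subgroup.mem_top _)
    have h2 := hm h1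
    rw [← commutatorElement_inv]
    exact Subgroup.inv_mem _ h2
  have hall : ∀ k m, m + k = n → Dser K m ≤ Subgroup.center K := by
    intro k
    induction k with
    | zero =>
      intro m hm
      have : Dser K m ≤ ⊥ := by
        rw [← hn, ← hm]
        exact hDl m
      exact this.trans bot_le
    | succ k ih =>
      intro m hm
      exact hstep m (ih (m + 1) (by omega))
  exact hall n 0 (by omega)

/-- The quotient by the identity component is profinite. -/
theorem exists_subgroup_between (U : Set K) (hU : IsOpen U) (hCU : connectedComponent (1 : K) ⊆ U) :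
    ∃ H : Subgroup K, H.index ≠ 0 ∧ connectedComponent (1 : K) ⊆ H ∧ (H : Set K) ⊆ U := by
  -- a clopen set in between
  obtain ⟨s, hs, h1s, hsU⟩ : ∃ s : Set K, IsClopen s ∧ (1 : K) ∈ s ∧ s ⊆ U := by
    rw [connectedComponent_eq_iInter_isClopen] at hCU
    have hdir : Directed (· ⊇ ·) (fun s : {s : Set K // IsClopen s ∧ (1 : K) ∈ s} => (s : Set K)) := by
      intro a b
      exact ⟨⟨a ∩ b, a.2.1.inter b.2.1, a.2.2, b.2.2⟩, inter_subset_left, inter_subset_right⟩
    have : Nonempty {s : Set K // IsClopen s ∧ (1 : K) ∈ s} := ⟨⟨univ, isClopen_univ, trivial⟩⟩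
    obtain ⟨s, hs⟩ := exists_subset_nhds_of_compactSpace hdir (fun s => s.2.1.1)
      (U := U) (fun x hx => hU.mem_nhds (hCU hx))
    exact ⟨s, s.2.1, s.2.2, hs⟩
  obtain ⟨H, hH⟩ := IsTopologicalGroup.exist_openSubgroup_sub_clopen_nhds_of_one hs h1s
  have : Subgroup.FiniteIndex H.toSubgroup := H.finiteIndex_of_finite_quotient
  refine ⟨H.toSubgroup, Subgroup.FiniteIndex.index_ne_zero, ?_, ?_⟩
  · exact IsClopen.connectedComponent_subset ⟨H.isClosed, H.isOpen⟩ H.one_mem
  · exact hH.trans hsU

end

end Pool.Agent.Helper80
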