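import Pool.Agent.Helper80.DualAbelian

set_option autoImplicit false
set_option linter.unusedSectionVars false

/-!
# Equivariant extensions of characters
-/

open MeasureTheory Topology Filter

namespace Pool.Agent.Helper80

noncomputable section

/-- Let `C` be a compact abelian group, `j : C → K` an injective continuous homomorphism to a
compact group. For a character `χ` of `C` there is a continuous `f : K → ℂ` with
`f (x * j c) = f x * χ c` and `f (j c) = χ c`. -/
theorem exists_charExt {C K : Type*} [CommGroup C] [TopologicalSpace C] [IsTopologicalGroup C]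
    [CompactSpace C] [T2Space C] [Group K] [TopologicalSpace K] [IsTopologicalGroup K]
    [CompactSpace K] [T2Space K] (j : C →* K) (hj : Continuous j) (hinj : Function.Injective j)
    (χ : C →ₜ* Circle) :
    ∃ f : C(K, ℂ), (∀ x c, f (x * j c) = f x * χ c) ∧ ∀ c, f (j c) = χ c := by
  borelize C
  have hemb : IsClosedEmbedding j := hj.isClosedEmbedding hinj
  obtain ⟨g, hg⟩ := ContinuousMap.exists_extension' hemb (PW.toC χ)
  have hg' : ∀ c, g (j c) = χ c := fun c => congrFun hg c
  let m : ℝ := (Measure.haar : Measure C).real Set.univ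
  have hm : m ≠ 0 := by
    have := (isOpen_univ (X := C)).measure_pos (Measure.haar : Measure C) ⟨1, trivial⟩
    exact (ENNReal.toReal_pos this.ne' (measure_ne_top _ _)).ne'
  let Hc : C(K, C(C, ℂ)) :=
    ContinuousMap.curry ⟨fun p : K × C => g (p.1 * j p.2) * (PW.toC χ⁻¹ p.2), by fun_prop⟩
  have hHc : ∀ x c, Hc x c = g (x * j c) * (PW.toC χ⁻¹ c) := fun x c => rfl
  have hIc : Continuous (fun h : C(C, ℂ) => ∫ c, h c ∂(Measure.haar : Measure C)) := by
    have : LipschitzWith (Real.toNNReal ((Measure.haar : Measure C).real Set.univ))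
        (fun h : C(C, ℂ) => ∫ c, h c ∂(Measure.haar : Measure C)) := by
      apply LipschitzWith.of_dist_le_mul
      intro f g
      rw [dist_eq_norm, dist_eq_norm, Real.coe_toNNReal _ (by positivity),
        ← integral_sub (PW.integrable_C f) (PW.integrable_C g), mul_comm (Measure.real _ _)]
      refine norm_integral_le_of_norm_le_const (μ := (Measure.haar : Measure C))
        (f := fun a => f a - g a) (C := ‖f - g‖) (Filter.Eventually.of_forall ?_)
      intro a
      exact (f - g).norm_coe_le_norm a
    exact this.continuous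
  let F : K → ℂ := fun x => (m : ℂ)⁻¹ * ∫ c, Hc x c ∂(Measure.haar : Measure C)
  have hFc : Continuous F := continuous_const.mul (hIc.comp Hc.continuous)
  have hF1 : ∀ x d, F (x * j d) = F x * χ d := by
    intro x d
    have h1 := integral_mul_left_eq_self (μ := (Measure.haar : Measure C))
      (fun c => Hc x c) d
    have h2 : ∀ c, Hc x (d * c) = (χ⁻¹ d : ℂ) * Hc (x * j d) c := by
      intro c
      rw [hHc, hHc, PW.toC_apply, PW.toC_apply, map_mul j, map_mul χ⁻¹, Circle.coe_mul, mul_assoc x]
      ring
    simp_rw [h2] at h1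
    rw [integral_const_mul] at h1
    have h3 : (χ d : ℂ) * (χ⁻¹ d : ℂ) = 1 := by
      rw [← Circle.coe_mul, PW.inv_app, mul_inv_cancel, Circle.coe_one]
    simp only [F]
    rw [← h1]
    calc _ = ((χ d : ℂ) * (χ⁻¹ d : ℂ)) * ((m : ℂ)⁻¹ * ∫ c, Hc (x * j d) c ∂(Measure.haar : Measure C)) := by
          rw [h3, one_mul]
      _ = _ := by ring
  have hF2 : F 1 = 1 := by
    simp only [F]
    have : ∀ c, Hc 1 c = 1 := by
      intro c
      rw [hHc, one_mul, hg', PW.toC_apply, ← Circle.coe_mul, PW.inv_app, mul_inv_cancel,
        Circle.coe_one]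
    simp_rw [this]
    rw [integral_const]
    simp only [Complex.real_smul, mul_one]
    exact inv_mul_cancel₀ (by exact_mod_cast hm)
  refine ⟨⟨F, hFc⟩, hF1, fun c => ?_⟩
  have := hF1 1 c
  rw [one_mul, hF2, one_mul] at this
  exact this

end

end Pool.Agent.Helper80
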