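import Pool.Agent.Helper80.TwoPrimary

set_option autoImplicit false
set_option linter.unusedSectionVars false

/-!
# Sequentially closed subgroups of powers of `Hom(ℚ, 𝕋)`

`P ι = ι → (ℚ →+ 𝕋)`.
-/

open Topology Filter Set

namespace Pool.Agent.Helper80

noncomputable section

/-- The power `Hom(ℚ, 𝕋)^ι`. -/
abbrev P (ι : Type*) := ι → (ℚ →+ 𝕋)

variable {ι : Type*}

/-- pointwise convergence -/
def PTendsto (f : ℕ → P ι) (g : P ι) : Prop :=
  ∀ i q, Tendsto (fun n => f n i q) atTop (𝓝 (g i q))

/-- sequentially closed for pointwise convergence -/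
def SeqCl (D : AddSubgroup (P ι)) : Prop :=
  ∀ (f : ℕ → P ι) (g : P ι), (∀ n, f n ∈ D) → PTendsto f g → g ∈ D

/-- 2-primary valued. -/
def Tw (t : P ι) : Prop := ∀ i q, IsTwo (t i q)

/-- good set of indices -/
def Good (D : AddSubgroup (P ι)) (J : Set ι) : Prop :=
  ∀ t : P ι, Tw t → (∀ i, i ∉ J → t i = 0) → t ∈ D

/-- local essentiality -/
def LE2 (D : AddSubgroup (P ι)) : Prop :=
  ∃ F : Finset ι, ∀ t : P ι, Tw t → (∀ i ∈ F, t i = 0) → ∃ k : ℕ, (2 ^ k : ℕ) • t ∈ D

open Classical in
/-- restriction to a set of coordinates. -/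
def res (J : Set ι) (t : P ι) : P ι := fun i => if i ∈ J then t i else 0

lemma res_of_mem {J : Set ι} {t : P ι} {i : ι} (h : i ∈ J) : res J t i = t i := by
  simp [res, h]

lemma res_of_notMem {J : Set ι} {t : P ι} {i : ι} (h : i ∉ J) : res J t i = 0 := by
  simp [res, h]

lemma isTwo_zero {M : Type*} [AddCommGroup M] : IsTwo (0 : M) := ⟨0, by simp⟩

lemma isTwo_add {a b : 𝕋} (ha : IsTwo a) (hb : IsTwo b) : IsTwo (a + b) := T2.add_mem ha hb

lemma isTwo_sub {a b : 𝕋} (ha : IsTwo a) (hb : IsTwo b) : IsTwo (a - b) := T2.sub_mem ha hb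

lemma tw_res {J : Set ι} {t : P ι} (h : Tw t) : Tw (res J t) := by
  intro i q
  by_cases hi : i ∈ J
  · rw [res_of_mem hi]; exact h i q
  · rw [res_of_notMem hi]; exact isTwo_zero

lemma Good.mono {D : AddSubgroup (P ι)} {J J' : Set ι} (h : Good D J) (hJ : J' ⊆ J) : Good D J' :=
  fun t ht h0 => h t ht (fun i hi => h0 i (fun hi' => hi (hJ hi')))

lemma Good.union {D : AddSubgroup (P ι)} {J J' : Set ι} (h : Good D J) (h' : Good D J') :
    Good D (J ∪ J') := by
  intro t ht h0
  have h1 : res J t ∈ D := h _ (tw_res ht) (fun i hi => res_of_notMem hi)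
  have h2 : t - res J t ∈ D := by
    apply h'
    · intro i q
      exact isTwo_sub (ht i q) (tw_res ht i q)
    · intro i hi
      by_cases hiJ : i ∈ J
      · simp [res_of_mem hiJ]
      · have : t i = 0 := h0 i (by simp [hi, hiJ])
        simp [res_of_notMem hiJ, this]
  have : t = res J t + (t - res J t) := by abel
  rw [this]
  exact D.add_mem h1 h2

lemma good_empty (D : AddSubgroup (P ι)) : Good D ∅ := by
  intro t _ h0
  have : t = 0 := funext fun i => h0 i (notMem_empty i)
  rw [this]
  exact D.zero_mem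

lemma Good.iUnion {D : AddSubgroup (P ι)} (hD : SeqCl D) {J : ℕ → Set ι} (h : ∀ n, Good D (J n)) :
    Good D (⋃ n, J n) := by
  have hacc : ∀ n, Good D (⋃ m < n, J m) := by
    intro n
    induction n with
    | zero =>
      have : (⋃ m < 0, J m) = ∅ := by simp
      rw [this]
      exact good_empty D
    | succ n ih =>
      refine (ih.union (h n)).mono ?_
      intro i hi
      simp only [mem_iUnion, exists_prop] at hi
      obtain ⟨m, hm, him⟩ := hi
      rcases Nat.lt_succ_iff_lt_or_eq.1 hm with h1 | h1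
      · left
        simp only [mem_iUnion, exists_prop]
        exact ⟨m, h1, him⟩
      · right
        rwa [← h1]
  intro t ht h0
  apply hD (fun n => res (⋃ m < n, J m) t) t
  · intro n
    exact hacc n _ (tw_res ht) (fun i hi => res_of_notMem hi)
  · intro i q
    by_cases hi : i ∈ ⋃ n, J n
    · obtain ⟨n, hn⟩ := mem_iUnion.1 hi
      apply tendsto_const_nhds.congr'
      filter_upwards [eventually_gt_atTop n] with m hm
      rw [res_of_mem]
      simp only [mem_iUnion, exists_prop]
      exact ⟨n, hm, hn⟩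
    · have h1 := h0 i hi
      have h2 : ∀ n, res (⋃ m < n, J m) t i = 0 := by
        intro n
        by_cases h3 : i ∈ ⋃ m < n, J m
        · rw [res_of_mem h3, h1]
        · exact res_of_notMem h3
      simp only [h2, h1]
      exact tendsto_const_nhds

/-- division by `2 ^ n`. -/
def halve (n : ℕ) (h : ℚ →+ 𝕋) : ℚ →+ 𝕋 := h.comp (AddMonoidHom.mulLeft (1 / 2 ^ n : ℚ))

lemma smul_halve (n : ℕ) (h : ℚ →+ 𝕋) : (2 ^ n : ℕ) • halve n h = h := by
  ext q
  have : (2 ^ n : ℕ) • (1 / 2 ^ n * q : ℚ) = q := by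
    rw [nsmul_eq_mul]
    push_cast
    field_simp
  rw [AddMonoidHom.nsmul_apply, halve, AddMonoidHom.comp_apply, AddMonoidHom.coe_mulLeft,
    ← map_nsmul, this]

/-- **Key lemma (Baire category)**: among countably many pairwise disjoint sets of indices, one
is good. -/
theorem exists_good {D : AddSubgroup (P ι)} (hD : SeqCl D) (hLE : LE2 D) (J : ℕ → Set ι)
    (hJ : Pairwise (Function.onFun Disjoint J)) : ∃ n, Good D (J n) := by
  classical
  by_contra hcon
  push Not at hcon
  obtain ⟨F, hF⟩ := hLE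
  -- only finitely many of the sets meet `F`
  obtain ⟨N, hN⟩ : ∃ N, ∀ n ≥ N, ∀ i ∈ F, i ∉ J n := by
    have : ∀ i ∈ F, ∃ N, ∀ n ≥ N, i ∉ J n := by
      intro i _
      by_cases h : ∃ m, i ∈ J m
      · obtain ⟨m, hm⟩ := h
        refine ⟨m + 1, fun n hn hin => ?_⟩
        have := hJ (show m ≠ n by omega)
        exact disjoint_left.1 this hm hin
      · push Not at h
        exact ⟨0, fun n _ => h n⟩
    choose! f hf using this
    exact ⟨F.sup f, fun n hn i hi => hf i hi n ((Finset.le_sup hi).trans hn)⟩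
  have hb : ∀ n, ∃ t : P ι, Tw t ∧ (∀ i, i ∉ J (N + n) → t i = 0) ∧ t ∉ D := by
    intro n
    have := hcon (N + n)
    unfold Good at this
    push Not at this
    exact this
  choose t ht1 ht2 ht3 using hb
  -- the elements `s n` with `2 ^ n • s n = t n`
  let s : ℕ → P ι := fun n i => halve n (t n i)
  have hs1 : ∀ n, (2 ^ n : ℕ) • s n = t n := fun n => funext fun i => smul_halve n (t n i)
  have hs2 : ∀ n i, i ∉ J (N + n) → s n i = 0 := by
    intro n i hi
    have := ht2 n i hi
    simp only [s, this]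
    rfl
  have hs3 : ∀ n, Tw (s n) := by
    intro n i q
    exact ht1 n i _
  -- for every 0-1-sequence the sum of the selected `s n`
  let Ψ : (ℕ → Bool) → P ι := fun x i => if h : ∃ n, i ∈ J (N + n) ∧ x n = true then
    s (Classical.choose h) i else 0
  have hdis : ∀ {n m : ℕ} {i : ι}, i ∈ J (N + n) → i ∈ J (N + m) → n = m := by
    intro n m i hn hm
    by_contra hne
    exact disjoint_left.1 (hJ (show N + n ≠ N + m by omega)) hn hm
  have hΨ1 : ∀ x n i, i ∈ J (N + n) → x n = true → Ψ x i = s n i := by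
    intro x n i hi hx
    have h : ∃ n, i ∈ J (N + n) ∧ x n = true := ⟨n, hi, hx⟩
    simp only [Ψ, dif_pos h]
    rw [hdis (Classical.choose_spec h).1 hi]
  have hΨ2 : ∀ x n i, i ∈ J (N + n) → x n = false → Ψ x i = 0 := by
    intro x n i hi hx
    have h : ¬ ∃ n, i ∈ J (N + n) ∧ x n = true := by
      rintro ⟨m, hm, hxm⟩
      rw [hdis hi hm, hxm] at hx
      exact absurd hx (by decide)
    simp only [Ψ, dif_neg h]
  have hΨ3 : ∀ x i, (∀ n, i ∉ J (N + n)) → Ψ x i = 0 := by
    intro x i hi
    have h : ¬ ∃ n, i ∈ J (N + n) ∧ x n = true := by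
      rintro ⟨m, hm, _⟩
      exact hi m hm
    simp only [Ψ, dif_neg h]
  have hΨcases : ∀ x i, (∃ n, i ∈ J (N + n) ∧ Ψ x i = s n i) ∨ Ψ x i = 0 := by
    intro x i
    by_cases h : ∃ n, i ∈ J (N + n)
    · obtain ⟨n, hn⟩ := h
      cases hx : x n
      · right; exact hΨ2 x n i hn hx
      · left; exact ⟨n, hn, hΨ1 x n i hn hx⟩
    · push Not at h
      right; exact hΨ3 x i h
  have hΨTw : ∀ x, Tw (Ψ x) := by
    intro x i q
    rcases hΨcases x i with ⟨n, _, h⟩ | h
    · rw [h]; exact hs3 n i q
    · rw [h]; exact isTwo_zero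
  have hΨF : ∀ x, ∀ i ∈ F, Ψ x i = 0 := by
    intro x i hi
    apply hΨ3
    intro n
    exact hN (N + n) (by omega) i hi
  -- closed sets
  let H : ℕ → Set (ℕ → Bool) := fun k => {x | (2 ^ k : ℕ) • Ψ x ∈ D}
  have hHc : ∀ k, IsClosed (H k) := by
    intro k
    apply IsSeqClosed.isClosed
    intro x y hx hxy
    apply hD (fun n => (2 ^ k : ℕ) • Ψ (x n)) _ hx
    intro i q
    have hc : ∀ n, ∀ᶠ m in atTop, x m n = y n := by
      intro n
      have h1 : Tendsto (fun m => x m n) atTop (𝓝 (y n)) := (tendsto_pi_nhds.1 hxy) n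
      rw [nhds_discrete] at h1
      exact tendsto_pure.1 h1
    apply tendsto_const_nhds.congr'
    by_cases h : ∃ n, i ∈ J (N + n)
    · obtain ⟨n, hn⟩ := h
      filter_upwards [hc n] with m hm
      have : Ψ (x m) i = Ψ y i := by
        cases hy : y n
        · rw [hΨ2 y n i hn hy, hΨ2 (x m) n i hn (by rw [hm, hy])]
        · rw [hΨ1 y n i hn hy, hΨ1 (x m) n i hn (by rw [hm, hy])]
      simp only [Pi.smul_apply, this]
    · push Not at h
      filter_upwards with m
      simp only [Pi.smul_apply, hΨ3 _ i h]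
  have hHu : ⋃ k, H k = univ := by
    rw [eq_univ_iff_forall]
    intro x
    obtain ⟨k, hk⟩ := hF (Ψ x) (hΨTw x) (hΨF x)
    exact mem_iUnion.2 ⟨k, hk⟩
  obtain ⟨k, x, hx⟩ := nonempty_interior_of_iUnion_of_closed hHc hHu
  -- flipping one far coordinate stays in `H k`
  have hflip : Tendsto (fun n => Function.update x n (!x n)) atTop (𝓝 x) := by
    rw [tendsto_pi_nhds]
    intro m
    apply tendsto_const_nhds.congr'
    filter_upwards [eventually_gt_atTop m] with n hn
    rw [Function.update_of_ne hn.ne]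
  have hev : ∀ᶠ n in atTop, Function.update x n (!x n) ∈ interior (H k) :=
    hflip.eventually (isOpen_interior.mem_nhds hx)
  obtain ⟨n, hn1, hn2⟩ := (hev.and (eventually_ge_atTop k)).exists
  have hx1 : x ∈ H k := interior_subset hx
  have hy1 : Function.update x n (!x n) ∈ H k := interior_subset hn1
  have hx' : (2 ^ k : ℕ) • Ψ x ∈ D := hx1
  have hy' : (2 ^ k : ℕ) • Ψ (Function.update x n (!x n)) ∈ D := hy1
  have hdiff : s n = Ψ x - Ψ (Function.update x n (!x n)) ∨
      s n = Ψ (Function.update x n (!x n)) - Ψ x := by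
    have hother : ∀ m, m ≠ n → ∀ i, i ∈ J (N + m) →
        Ψ (Function.update x n (!x n)) i = Ψ x i := by
      intro m hm i hi
      cases hxm : x m
      · rw [hΨ2 x m i hi hxm, hΨ2 _ m i hi (by rw [Function.update_of_ne hm, hxm])]
      · rw [hΨ1 x m i hi hxm, hΨ1 _ m i hi (by rw [Function.update_of_ne hm, hxm])]
    cases hxn : x n
    · right
      funext i
      rw [Pi.sub_apply]
      by_cases hi : i ∈ J (N + n)
      · rw [hΨ2 x n i hi hxn, hΨ1 _ n i hi (by simp [hxn]), sub_zero]
      · rw [hs2 n i hi]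
        by_cases h : ∃ m, i ∈ J (N + m)
        · obtain ⟨m, hm⟩ := h
          have hmn : m ≠ n := by rintro rfl; exact hi hm
          rw [← hxn, hother m hmn i hm, sub_self]
        · push Not at h
          rw [hΨ3 _ i h, hΨ3 _ i h, sub_self]
    · left
      funext i
      rw [Pi.sub_apply]
      by_cases hi : i ∈ J (N + n)
      · rw [hΨ1 x n i hi hxn, hΨ2 _ n i hi (by simp [hxn]), sub_zero]
      · rw [hs2 n i hi]
        by_cases h : ∃ m, i ∈ J (N + m)
        · obtain ⟨m, hm⟩ := h
          have hmn : m ≠ n := by rintro rfl; exact hi hm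
          rw [← hxn, hother m hmn i hm, sub_self]
        · push Not at h
          rw [hΨ3 _ i h, hΨ3 _ i h, sub_self]
  have hsn : (2 ^ k : ℕ) • s n ∈ D := by
    rcases hdiff with h | h
    · rw [h, smul_sub]; exact D.sub_mem hx' hy'
    · rw [h, smul_sub]; exact D.sub_mem hy' hx'
  apply ht3 n
  rw [← hs1 n]
  have : (2 ^ n : ℕ) = 2 ^ (n - k) * 2 ^ k := by rw [← pow_add]; congr 1; omega
  rw [this, mul_smul]
  exact D.nsmul_mem hsn _

/-- only finitely many singletons are bad -/
theorem finite_bad {D : AddSubgroup (P ι)} (hD : SeqCl D) (hLE : LE2 D) :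
    {i | ¬ Good D {i}}.Finite := by
  by_contra hinf
  have hinf : {i | ¬ Good D {i}}.Infinite := hinf
  let f := hinf.natEmbedding
  obtain ⟨n, hn⟩ := exists_good hD hLE (fun n => {(f n : ι)}) (by
    intro a b hab
    simp only [Function.onFun, disjoint_singleton_left, mem_singleton_iff]
    intro h
    exact hab (f.injective (Subtype.ext h)))
  exact (f n).2 hn

/-- A σ-complete ultrafilter -/
def SigmaComplete {α : Type*} (F : Ultrafilter α) : Prop :=
  ∀ s : ℕ → Set α, (∀ n, s n ∈ F) → ⋂ n, s n ∈ F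

/-- every σ-complete ultrafilter on `α` is principal -/
def NoFree (α : Type*) : Prop :=
  ∀ F : Ultrafilter α, SigmaComplete F → ∃ a, {a} ∈ F

/-- If there is no free σ-complete ultrafilter then a cofinite set is good. -/
theorem exists_good_compl {D : AddSubgroup (P ι)} (hD : SeqCl D) (hLE : LE2 D)
    (hι : NoFree ι) : ∃ F : Set ι, F.Finite ∧ Good D Fᶜ := by
  classical
  refine ⟨{i | ¬ Good D {i}}, finite_bad hD hLE, ?_⟩
  set A : Set ι := {i | ¬ Good D {i}}ᶜ with hA
  by_contra hbad
  -- there is an atom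
  obtain ⟨A', hA'A, hA'bad, hA'atom⟩ : ∃ A' ⊆ A, ¬ Good D A' ∧
      ∀ B ⊆ A', Good D B ∨ Good D (A' \ B) := by
    by_contra hno
    push Not at hno
    have hsplit : ∀ A' : {A' : Set ι // A' ⊆ A ∧ ¬ Good D A'}, ∃ B ⊆ A'.1, ¬ Good D B ∧
        ¬ Good D (A'.1 \ B) := by
      rintro ⟨A', h1, h2⟩
      obtain ⟨B, hB, h3, h4⟩ := hno A' h1 h2
      exact ⟨B, hB, h3, h4⟩
    choose B hB1 hB2 hB3 using hsplit
    let nxt : {A' : Set ι // A' ⊆ A ∧ ¬ Good D A'} → {A' : Set ι // A' ⊆ A ∧ ¬ Good D A'} :=
      fun A' => ⟨A'.1 \ B A', (sdiff_subset).trans A'.2.1, hB3 A'⟩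
    let seq : ℕ → {A' : Set ι // A' ⊆ A ∧ ¬ Good D A'} := fun n => nxt^[n] ⟨A, subset_rfl, hbad⟩
    have hseq : ∀ n, (seq (n + 1)).1 = (seq n).1 \ B (seq n) := by
      intro n
      simp only [seq, Function.iterate_succ_apply']
      rfl
    have hanti : ∀ n m, n ≤ m → (seq m).1 ⊆ (seq n).1 := by
      intro n m hnm
      induction m, hnm using Nat.le_induction with
      | base => exact subset_rfl
      | succ m _ ih => rw [hseq]; exact sdiff_subset.trans ih
    obtain ⟨n, hn⟩ := exists_good hD hLE (fun n => B (seq n)) (by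
      have key : ∀ a b, a < b → Disjoint (B (seq a)) (B (seq b)) := by
        intro a b hab
        have h1 : B (seq b) ⊆ (seq (a + 1)).1 := (hB1 (seq b)).trans (hanti _ _ hab)
        rw [hseq] at h1
        rw [disjoint_left]
        intro i hi hi'
        exact (h1 hi').2 hi
      intro a b hab
      rcases lt_or_gt_of_ne hab with h | h
      · exact key a b h
      · exact (key b a h).symm)
    exact hB2 _ hn
  -- the ultrafilter
  let U : Filter ι :=
    { sets := {S | Good D (A' \ S)}
      univ_sets := by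
        change Good D (A' \ univ)
        rw [sdiff_univ]; exact good_empty D
      sets_of_superset := by
        intro S T hS hST
        exact Good.mono hS (sdiff_subset_sdiff_right hST)
      inter_sets := by
        intro S T hS hT
        change Good D (A' \ (S ∩ T))
        rw [sdiff_inter]
        exact Good.union hS hT }
  have hU : ∀ S : Set ι, S ∈ U ↔ Good D (A' \ S) := fun S => Iff.rfl
  have hUne : U.NeBot := by
    rw [neBot_iff]
    intro h
    have : (∅ : Set ι) ∈ U := by rw [h]; exact mem_bot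
    rw [hU, sdiff_empty] at this
    exact hA'bad this
  let UF : Ultrafilter ι := Ultrafilter.ofComplNotMemIff U (by
    intro S
    constructor
    · intro hS
      rw [hU] at hS ⊢
      rcases hA'atom (A' ∩ S) inter_subset_left with h | h
      · exfalso
        apply hS
        rwa [sdiff_compl]
      · rwa [sdiff_self_inter] at h
    · intro hS hS'
      rw [hU] at hS hS'
      apply hA'bad
      rw [sdiff_compl] at hS'
      have := hS'.union hS
      rwa [inter_union_sdiff] at this)
  have hUF : ∀ S : Set ι, S ∈ UF ↔ Good D (A' \ S) := fun S => Iff.rfl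
  obtain ⟨a, ha⟩ := hι UF (by
    intro s hs
    rw [hUF, sdiff_iInter]
    exact Good.iUnion hD hs)
  rw [hUF] at ha
  apply hA'bad
  by_cases haA : a ∈ A'
  · have h1 : Good D {a} := by
      have := hA'A haA
      simpa [hA] using this
    have := h1.union ha
    refine this.mono ?_
    intro i hi
    by_cases hia : i = a
    · left; exact hia
    · right; exact ⟨hi, hia⟩
  · rwa [sdiff_singleton_eq_self haA] at ha

/-- On a good set of coordinates everything is in `D`. -/
theorem Good.all {D : AddSubgroup (P ι)} (hD : SeqCl D) {J : Set ι} (hJ : Good D J) (t : P ι)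
    (h0 : ∀ i, i ∉ J → t i = 0) : t ∈ D := by
  classical
  choose g hg1 hg2 using fun i => exists_seq_two_primary (t i)
  apply hD (fun n => res J (fun i => g i n)) t
  · intro n
    apply hJ
    · exact tw_res (fun i q => hg1 i n q)
    · intro i hi
      exact res_of_notMem hi
  · intro i q
    by_cases hi : i ∈ J
    · have := hg2 i q
      refine this.congr ?_
      intro n
      change _ = res J (fun i => g i n) i q
      rw [res_of_mem hi]
    · have h1 := h0 i hi
      rw [h1]
      refine (tendsto_const_nhds (x := (0 : 𝕋))).congr ?_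
      intro n
      change _ = res J (fun i => g i n) i q
      rw [res_of_notMem hi]
      rfl

end

end Pool.Agent.Helper80
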