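import Pool.Agent.Helper80.PWAbelian

set_option autoImplicit false
set_option linter.unusedSectionVars false

/-!
# Duality for compact abelian groups

* `mem_of_separates`: a group of continuous characters of a compact abelian group separating
  points contains every continuous character.
* `exists_eval_eq`: every homomorphism from the character group to the circle is an evaluation.
-/

open MeasureTheory Topology Filter

namespace Pool.Agent.Helper80

noncomputable section

namespace PW

variable {A : Type*} [CommGroup A] [TopologicalSpace A] [IsTopologicalGroup A]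

/-- A character as a continuous complex function. -/
def toC (χ : A →ₜ* Circle) : C(A, ℂ) := ⟨fun a => (χ a : ℂ), by fun_prop⟩

lemma inv_app (χ : A →ₜ* Circle) (a : A) : (χ⁻¹) a = (χ a)⁻¹ := rfl

lemma toC_apply (χ : A →ₜ* Circle) (a : A) : toC χ a = (χ a : ℂ) := rfl

/-- star subalgebra generated by a group of characters. -/
def alg (Y : Subgroup (A →ₜ* Circle)) : StarSubalgebra ℂ C(A, ℂ) where
  toSubalgebra := Algebra.adjoin ℂ (toC '' (Y : Set (A →ₜ* Circle)))
  star_mem' := by
    change Algebra.adjoin ℂ (toC '' (Y : Set (A →ₜ* Circle))) ≤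
      star (Algebra.adjoin ℂ (toC '' (Y : Set (A →ₜ* Circle))))
    refine Algebra.adjoin_le ?_
    rintro - ⟨χ, hχ, rfl⟩
    refine Algebra.subset_adjoin ⟨χ⁻¹, Y.inv_mem hχ, ?_⟩
    ext a
    rw [ContinuousMap.star_apply, toC_apply, toC_apply, inv_app, Circle.coe_inv_eq_conj]
    rfl

lemma alg_coe (Y : Subgroup (A →ₜ* Circle)) :
    Subalgebra.toSubmodule (alg Y).toSubalgebra =
      Submodule.span ℂ (toC '' (Y : Set (A →ₜ* Circle))) := by
  apply Algebra.adjoin_eq_span_of_subset
  refine Set.Subset.trans ?_ Submodule.subset_span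
  intro x hx
  refine Submonoid.closure_induction (fun _ => id) ⟨1, Y.one_mem, ?_⟩ ?_ hx
  · ext a; simp [toC_apply]
  · rintro - - - - ⟨m, hm, rfl⟩ ⟨n, hn, rfl⟩
    refine ⟨m * n, Y.mul_mem hm hn, ?_⟩
    ext a
    simp [toC_apply]

variable [CompactSpace A] [T2Space A] [MeasurableSpace A] [BorelSpace A]

lemma integrable_C (g : C(A, ℂ)) : Integrable g (Measure.haar : Measure A) :=
  g.continuous.integrable_of_hasCompactSupport (HasCompactSupport.of_compactSpace _)

lemma integral_char (χ : A →ₜ* Circle) (h : χ ≠ 1) :
    ∫ a, toC χ a ∂(Measure.haar : Measure A) = 0 := by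
  obtain ⟨b, hb⟩ : ∃ b, χ b ≠ 1 := by
    by_contra hh
    push Not at hh
    exact h (ContinuousMonoidHom.ext hh)
  have h1 := integral_mul_left_eq_self (μ := (Measure.haar : Measure A)) (fun a => toC χ a) b
  have h2 : ∀ a, toC χ (b * a) = (χ b : ℂ) * toC χ a := by
    intro a
    simp [toC_apply]
  simp_rw [h2] at h1
  rw [integral_const_mul] at h1
  have h3 : ((χ b : ℂ) - 1) * ∫ a, toC χ a ∂(Measure.haar : Measure A) = 0 := by
    rw [sub_mul, h1, one_mul, sub_self]
  rcases mul_eq_zero.1 h3 with h4 | h4
  · exfalso
    apply hb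
    apply Subtype.ext
    simpa using sub_eq_zero.1 h4
  · exact h4

theorem mem_of_separates_aux (Y : Subgroup (A →ₜ* Circle))
    (hY : ∀ a : A, a ≠ 1 → ∃ χ ∈ Y, χ a ≠ 1) (ψ : A →ₜ* Circle) : ψ ∈ Y := by
  by_contra hψ
  -- the functional `g ↦ ∫ conj ψ · g`
  let I : C(A, ℂ) → ℂ := fun g => ∫ a, (toC ψ⁻¹ * g) a ∂(Measure.haar : Measure A)
  have hIadd : ∀ g h, I (g + h) = I g + I h := by
    intro g h
    simp only [I]
    rw [← integral_add (integrable_C _) (integrable_C _)]
    congr 1
    ext a
    simp [mul_add]
  have hIsmul : ∀ (c : ℂ) g, I (c • g) = c * I g := by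
    intro c g
    simp only [I]
    rw [← integral_const_mul]
    congr 1
    ext a
    simp only [ContinuousMap.mul_apply, ContinuousMap.smul_apply, smul_eq_mul]
    ring
  have hIc : Continuous I := by
    have : LipschitzWith (Real.toNNReal ((Measure.haar : Measure A).real Set.univ)) I := by
      apply LipschitzWith.of_dist_le_mul
      intro f g
      rw [dist_eq_norm, dist_eq_norm, Real.coe_toNNReal _ (by positivity)]
      have e : I f - I g = ∫ a, (toC ψ⁻¹ * (f - g)) a ∂(Measure.haar : Measure A) := by
        simp only [I]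
        rw [← integral_sub (integrable_C _) (integrable_C _)]
        congr 1
        ext a
        simp [mul_sub]
      rw [e, mul_comm (Measure.real _ _)]
      refine norm_integral_le_of_norm_le_const (μ := (Measure.haar : Measure A))
        (f := fun a => (toC ψ⁻¹ * (f - g)) a) (C := ‖f - g‖) (Filter.Eventually.of_forall ?_)
      intro a
      rw [ContinuousMap.mul_apply, norm_mul, toC_apply, Circle.norm_coe, one_mul]
      exact (f - g).norm_coe_le_norm a
    exact this.continuous
  have hspan : ∀ g ∈ Submodule.span ℂ (toC '' (Y : Set (A →ₜ* Circle))), I g = 0 := by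
    intro g hg
    induction hg using Submodule.span_induction with
    | mem x hx =>
      obtain ⟨χ, hχ, rfl⟩ := hx
      have h1 : ψ⁻¹ * χ ≠ 1 := by
        intro h
        apply hψ
        have : χ = ψ := by rw [← mul_one ψ, ← h, mul_inv_cancel_left]
        rwa [← this]
      have h2 := integral_char _ h1
      simp only [I]
      rw [← h2]
      congr 1
    | zero => simp [I]
    | add x y _ _ hx hy => rw [hIadd, hx, hy, add_zero]
    | smul c x _ hx => rw [hIsmul, hx, mul_zero]
  have hsep : (alg Y).toSubalgebra.SeparatesPoints := by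
    intro x y hxy
    obtain ⟨χ, hχ, hne⟩ := hY (x * y⁻¹) (by
      intro h
      exact hxy (mul_inv_eq_one.1 h))
    refine ⟨_, ⟨toC χ, Algebra.subset_adjoin ⟨χ, hχ, rfl⟩, rfl⟩, ?_⟩
    dsimp only
    rw [toC_apply, toC_apply]
    intro h
    apply hne
    rw [map_mul, map_inv, Circle.ext h, mul_inv_cancel]
  have htop := ContinuousMap.starSubalgebra_topologicalClosure_eq_top_of_separatesPoints
    (alg Y) hsep
  have hall : ∀ g : C(A, ℂ), I g = 0 := by
    intro g
    have hg : g ∈ (alg Y).topologicalClosure := by rw [htop]; trivial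
    have hg' : g ∈ closure ((alg Y : Set C(A, ℂ))) := hg
    have hcl : IsClosed {g | I g = 0} := isClosed_eq hIc continuous_const
    refine closure_minimal ?_ hcl hg'
    intro f hf
    apply hspan
    rw [← alg_coe]
    exact hf
  have h1 := hall (toC ψ)
  simp only [I] at h1
  have h2 : (fun a => (toC ψ⁻¹ * toC ψ) a) = fun _ : A => (1 : ℂ) := by
    ext a
    rw [ContinuousMap.mul_apply, toC_apply, toC_apply, ← Circle.coe_mul, inv_app, inv_mul_cancel,
      Circle.coe_one]
  rw [h2, integral_const] at h1
  have h3 : (Measure.haar : Measure A).real Set.univ ≠ 0 := by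
    have := (isOpen_univ (X := A)).measure_pos (Measure.haar : Measure A) ⟨1, trivial⟩
    exact (ENNReal.toReal_pos this.ne' (measure_ne_top _ _)).ne'
  apply h3
  simpa using h1

end PW

/-- A group of continuous characters of a compact abelian group which separates points contains
every continuous character. -/
theorem mem_of_separates {A : Type*} [CommGroup A] [TopologicalSpace A] [IsTopologicalGroup A]
    [CompactSpace A] [T2Space A] (Y : Subgroup (A →ₜ* Circle))
    (hY : ∀ a : A, a ≠ 1 → ∃ χ ∈ Y, χ a ≠ 1) (ψ : A →ₜ* Circle) : ψ ∈ Y := by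
  borelize A
  exact PW.mem_of_separates_aux Y hY ψ

/-- evaluation map into the double dual -/
def evalDual (C : Type*) [CommGroup C] [TopologicalSpace C] [IsTopologicalGroup C]
    [CompactSpace C] : C →ₜ* PontryaginDual (PontryaginDual C) where
  toFun c := ⟨⟨⟨fun χ => χ c, rfl⟩, fun _ _ => rfl⟩, continuous_of_discreteTopology⟩
  map_one' := by
    apply PontryaginDual.ext
    intro χ
    exact map_one χ
  map_mul' c d := by
    apply PontryaginDual.ext
    intro χ
    exact map_mul χ c d
  continuous_toFun := by
    refine ContinuousMonoidHom.continuous_of_continuous_uncurry _ ?_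
    change Continuous (fun p : C × PontryaginDual C => p.2 p.1)
    rw [continuous_iff_continuousAt]
    rintro ⟨c, χ⟩
    have h1 : Continuous (fun p : C × PontryaginDual C => χ p.1) :=
      (map_continuous χ).comp continuous_fst
    refine h1.continuousAt.congr ?_
    have h2 : ∀ᶠ p : C × PontryaginDual C in 𝓝 (c, χ), p.2 = χ := by
      have : IsOpen {p : C × PontryaginDual C | p.2 = χ} :=
        (isOpen_discrete {χ}).preimage continuous_snd
      exact this.mem_nhds rfl
    filter_upwards [h2] with p hp
    rw [hp]

/-- Every homomorphism from the group of continuous characters of a compact abelian group to the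
circle is given by evaluation at a point. -/
theorem exists_eval_eq {C : Type*} [CommGroup C] [TopologicalSpace C] [IsTopologicalGroup C]
    [CompactSpace C] [T2Space C] (s : (C →ₜ* Circle) →* Circle) :
    ∃ c : C, ∀ χ : C →ₜ* Circle, χ c = s χ := by
  let s' : PontryaginDual (PontryaginDual C) :=
    ⟨⟨⟨fun χ => s χ, map_one s⟩, fun a b => map_mul s a b⟩, continuous_of_discreteTopology⟩
  by_contra hcon
  let I : Subgroup (PontryaginDual (PontryaginDual C)) := (evalDual C).toMonoidHom.range
  have hIc : IsClosed (I : Set (PontryaginDual (PontryaginDual C))) := by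
    have : (I : Set (PontryaginDual (PontryaginDual C))) = Set.range (evalDual C) := rfl
    rw [this]
    exact (isCompact_range (map_continuous (evalDual C))).isClosed
  have hs' : s' ∉ I := by
    rintro ⟨c, hc⟩
    apply hcon
    refine ⟨c, fun χ => ?_⟩
    exact DFunLike.congr_fun hc χ
  have hcl : IsClosed (I : Set (PontryaginDual (PontryaginDual C))) := hIc
  let Q := PontryaginDual (PontryaginDual C) ⧸ I
  have hne : (QuotientGroup.mk s' : Q) ≠ 1 := by
    intro h
    exact hs' ((QuotientGroup.eq_one_iff s').1 h)
  obtain ⟨ψ, hψ⟩ := exists_character_ne_one (A := Q) _ hne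
  let ψ' : PontryaginDual (PontryaginDual C) →ₜ* Circle :=
    ⟨ψ.toMonoidHom.comp (QuotientGroup.mk' I), (map_continuous ψ).comp continuous_quotient_mk'⟩
  -- the group of evaluations
  let ev : PontryaginDual C →* (PontryaginDual (PontryaginDual C) →ₜ* Circle) :=
    { toFun := fun x => ⟨⟨⟨fun σ => σ x, rfl⟩, fun _ _ => rfl⟩, by
        change Continuous (fun σ : PontryaginDual (PontryaginDual C) => σ x)
        exact (continuous_eval_const (F := C(PontryaginDual C, Circle)) x).comp
          (ContinuousMonoidHom.isInducing_toContinuousMap _ _).continuous⟩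
      map_one' := by
        ext σ
        exact congrArg _ (map_one σ)
      map_mul' := by
        intro x y
        ext σ
        exact congrArg _ (map_mul σ x y) }
  have hmem := mem_of_separates ev.range (by
    intro σ hσ
    by_contra hh
    push Not at hh
    apply hσ
    apply PontryaginDual.ext
    intro x
    exact hh (ev x) ⟨x, rfl⟩) ψ'
  obtain ⟨x, hx⟩ := hmem
  have hx1 : ∀ c : C, x c = 1 := by
    intro c
    have h1 : ψ' (evalDual C c) = 1 := by
      change ψ (QuotientGroup.mk (evalDual C c)) = 1
      have hm : evalDual C c ∈ I := ⟨c, rfl⟩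
      rw [(QuotientGroup.eq_one_iff (N := I) (evalDual C c)).2 hm, map_one]
    rw [← hx] at h1
    exact h1
  have hx2 : x = 1 := PontryaginDual.ext hx1
  apply hψ
  have h3 : ψ' s' = 1 := by
    rw [← hx, hx2, map_one]
    rfl
  exact h3

end

end Pool.Agent.Helper80
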