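import Pool.Agent.Helper80.NullLift

set_option autoImplicit false
set_option linter.unusedSectionVars false

/-!
# The final step: from a cofinite set of coordinates to everything
-/

open Topology Filter Set

namespace Pool.Agent.Helper80

noncomputable section

variable {C : Type*} [CommGroup C] [TopologicalSpace C] [IsTopologicalGroup C] [CompactSpace C]
  [T2Space C]
variable {K : Type*} [Group K] [TopologicalSpace K] [IsTopologicalGroup K] [CompactSpace K]
  [T2Space K]
variable {ι : Type*} (π : Ch C →+ (ι →₀ ℚ))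

lemma exists_root (hπ : Function.Injective π) (n : ℕ) (hn : n ≠ 0) (c : C) : ∃ d : C, d ^ n = c := by
  obtain ⟨t, rfl⟩ := exists_Phi_eq' π hπ c
  refine ⟨Phi π (fun i => (t i).comp (AddMonoidHom.mulLeft (1 / n : ℚ))), ?_⟩
  rw [← Phi_nsmul]
  congr 1
  funext i
  ext q
  have : n • (1 / n * q : ℚ) = q := by
    rw [nsmul_eq_mul]
    field_simp
  rw [Pi.smul_apply, AddMonoidHom.nsmul_apply, AddMonoidHom.comp_apply, AddMonoidHom.coe_mulLeft,
    ← map_nsmul, this]

/-- angle of a complex number as element of the circle `𝕋` -/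
def ang (z : ℂ) : 𝕋 := l (Circle.exp (Complex.arg z))

lemma norm_mul_e_ang (z : ℂ) : (‖z‖ : ℂ) * (e (ang z) : ℂ) = z := by
  rw [ang, e_l, Circle.coe_exp]
  exact Complex.norm_mul_exp_arg_mul_I z

lemma tendsto_l {f : ℕ → Circle} {z : Circle} (h : Tendsto f atTop (𝓝 z)) :
    Tendsto (fun k => l (f k)) atTop (𝓝 (l z)) :=
  (continuous_l.tendsto z).comp h

lemma tendsto_circle {f : ℕ → Circle} {z : Circle}
    (h : Tendsto (fun k => (f k : ℂ)) atTop (𝓝 (z : ℂ))) : Tendsto f atTop (𝓝 z) :=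
  tendsto_subtype_rng.2 h

/-- If `‖z k‖ → 1` and `z k → w` with `w` on the circle, then the phases converge. -/
lemma tendsto_ang {z : ℕ → ℂ} {w : Circle} (h : Tendsto z atTop (𝓝 (w : ℂ))) :
    Tendsto (fun k => ang (z k)) atTop (𝓝 (l w)) := by
  have h1 : Tendsto (fun k => ‖z k‖) atTop (𝓝 1) := by
    have := h.norm
    rwa [Circle.norm_coe] at this
  have h2 : Tendsto (fun k => (e (ang (z k)) : ℂ)) atTop (𝓝 (w : ℂ)) := by
    have h3 : Tendsto (fun k => z k / (‖z k‖ : ℂ)) atTop (𝓝 ((w : ℂ) / ((1 : ℝ) : ℂ))) := by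
      apply h.div
      · exact (Complex.continuous_ofReal.tendsto 1).comp h1
      · simp
    rw [Complex.ofReal_one, div_one] at h3
    refine h3.congr' ?_
    filter_upwards [h1.eventually (isOpen_ne.mem_nhds (by norm_num : (1 : ℝ) ≠ 0))] with k hk
    have hk' : (‖z k‖ : ℂ) ≠ 0 := by exact_mod_cast hk
    nth_rw 1 [← norm_mul_e_ang (z k)]
    field_simp
  have h4 : Tendsto (fun k => e (ang (z k))) atTop (𝓝 w) := tendsto_circle h2
  have h5 := tendsto_l h4
  simpa only [l_e] using h5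

/-- **Final step.** -/
theorem final_step (hπ : Function.Injective π) (j : C →* K) (hj : Continuous j)
    (hinj : Function.Injective j)
    (hopen : ∀ U : Set K, IsOpen U → range j ⊆ U →
      ∃ H : Subgroup K, H.index ≠ 0 ∧ range j ⊆ H ∧ (H : Set K) ⊆ U)
    (S : Subgroup K) (hdense : Dense (S : Set K))
    (hseq : ∀ x : ℕ → K, (∀ n, x n ∈ S) → ∀ a, Tendsto x atTop (𝓝 a) → a ∈ S)
    (F : Set ι) (hF : F.Countable)
    (hFS : ∀ t : P ι, (∀ i ∈ F, t i = 0) → j (Phi π t) ∈ S) (c : C) : j c ∈ S := by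
  classical
  -- the equivariant functions
  choose f hf1 hf2 using fun χ : Ch C => exists_charExt j hj hinj χ.toMul
  -- the countable set of characters supported in `F`
  let XF : Set (Ch C) := {χ | ∀ i ∈ Fᶜ, π χ i = 0}
  have hXF0 : (0 : Ch C) ∈ XF := by
    intro i _
    rw [map_zero]; rfl
  have hXFc : XF.Countable := by
    have : Countable F := hF.to_subtype
    have hc : Countable (F →₀ ℚ) := inferInstance
    let g : XF → (F →₀ ℚ) := fun χ => Finsupp.comapDomain Subtype.val (π χ.1)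
      Subtype.val_injective.injOn
    have hg : Function.Injective g := by
      intro χ ψ h
      apply Subtype.ext
      apply hπ
      ext i
      by_cases hi : i ∈ F
      · have := DFunLike.congr_fun h ⟨i, hi⟩
        simpa [g] using this
      · rw [χ.2 i hi, ψ.2 i hi]
    exact hg.countable
  obtain ⟨enum, henum⟩ := hXFc.exists_eq_range ⟨0, hXF0⟩
  -- points of `S`
  have hx : ∀ k : ℕ, ∃ x : K, x ∈ S ∧ ∀ m ≤ k, ‖f (enum m) (x ^ k.factorial) -
      ((enum m).toMul c : ℂ)‖ < 1 / (k + 1) := by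
    intro k
    obtain ⟨d, hd⟩ := exists_root π hπ k.factorial (Nat.factorial_ne_zero k) c
    let O : Set K := ⋂ m ∈ Finset.range (k + 1), {x : K | ‖f (enum m) (x ^ k.factorial) -
      ((enum m).toMul c : ℂ)‖ < 1 / (k + 1)}
    have hO : IsOpen O := by
      apply isOpen_biInter_finset
      intro m _
      apply isOpen_lt _ continuous_const
      fun_prop
    have hdO : j d ∈ O := by
      simp only [O, mem_iInter, mem_ofPred_eq]
      intro m _
      rw [← map_pow, hd, hf2, sub_self, norm_zero]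
      positivity
    obtain ⟨x, hxO, hxS⟩ := hdense.exists_mem_open hO ⟨_, hdO⟩
    refine ⟨x, hxO, fun m hm => ?_⟩
    simp only [O, mem_iInter, mem_ofPred_eq] at hxS
    exact hxS m (Finset.mem_range.2 (by omega))
  choose x hxS hxf using hx
  let y : ℕ → K := fun k => x k ^ k.factorial
  have hyS : ∀ k, y k ∈ S := fun k => S.pow_mem (hxS k) _
  -- `y` approaches the range of `j` via subgroups
  have hyH : ∀ H : Subgroup K, H.index ≠ 0 → ∀ᶠ k in atTop, y k ∈ H := by
    intro H hH
    filter_upwards [eventually_ge_atTop H.index] with k hk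
    obtain ⟨n, hn0, hn1, hn2⟩ := Subgroup.exists_pow_mem_of_index_ne_zero hH (x k)
    obtain ⟨m, hm⟩ := Nat.dvd_factorial hn0 (hn1.trans hk)
    change x k ^ k.factorial ∈ H
    rw [hm, pow_mul]
    exact H.pow_mem hn2 m
  have hyg : ∀ g : K → ℂ, Continuous g → (∀ c, g (j c) = 0) → Tendsto (fun k => g (y k)) atTop (𝓝 0) := by
    intro g hg hg0
    rw [Metric.tendsto_atTop']
    intro ε hε
    obtain ⟨H, hH1, hH2, hH3⟩ := hopen {x | dist (g x) 0 < ε}
      (isOpen_lt (hg.dist continuous_const) continuous_const) (by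
        rintro _ ⟨c, rfl⟩
        simp only [mem_ofPred_eq, hg0, dist_self]
        exact hε)
    obtain ⟨N, hN⟩ := eventually_atTop.1 (hyH H hH1)
    exact ⟨N, fun n hn => hH3 (hN n hn.le)⟩
  have hnorm : ∀ χ, Tendsto (fun k => ‖f χ (y k)‖) atTop (𝓝 1) := by
    intro χ
    have h1 := hyg (fun x => ((‖f χ x‖ : ℝ) : ℂ) - 1) (by fun_prop) (by
      intro c
      rw [hf2, Circle.norm_coe]
      simp)
    have h2 : Tendsto (fun k => (((‖f χ (y k)‖ : ℝ) : ℂ) - 1) + 1) atTop (𝓝 (0 + 1)) :=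
      h1.add_const 1
    simp only [sub_add_cancel, zero_add] at h2
    have h3 : Tendsto (fun k => ((‖f χ (y k)‖ : ℝ) : ℂ).re) atTop (𝓝 (1 : ℂ).re) :=
      (Complex.continuous_re.tendsto _).comp h2
    simpa using h3
  -- the approximate homomorphism
  let r : Ch C → (ℕ → 𝕋) := fun χ k => hm c χ - ang (f χ (y k))
  have hrA : ∀ χ ∈ XF, r χ ∈ Null := by
    intro χ hχ
    rw [henum] at hχ
    obtain ⟨m, rfl⟩ := hχ
    have h1 : Tendsto (fun k => f (enum m) (y k)) atTop (𝓝 ((enum m).toMul c : ℂ)) := by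
      rw [tendsto_iff_norm_sub_tendsto_zero]
      have h0 := tendsto_one_div_add_atTop_nhds_zero_nat (𝕜 := ℝ)
      refine squeeze_zero' (Eventually.of_forall fun k => norm_nonneg _) ?_ h0
      filter_upwards [eventually_ge_atTop m] with k hk
      exact (hxf k m hk).le
    have h2 := tendsto_ang h1
    have h3 : Tendsto (fun k => hm c (enum m) - ang (f (enum m) (y k))) atTop
        (𝓝 (hm c (enum m) - l ((enum m).toMul c))) := h2.const_sub _
    have h4 : hm c (enum m) - l ((enum m).toMul c) = 0 := sub_self _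
    rw [h4] at h3
    exact h3
  have hrhom : ∀ χ ψ, r (χ + ψ) - (r χ + r ψ) ∈ Null := by
    intro χ ψ
    -- phases are multiplicative up to a null sequence
    have h1 : Tendsto (fun k => f (χ + ψ) (y k) - f χ (y k) * f ψ (y k)) atTop (𝓝 0) := by
      apply hyg (fun x => f (χ + ψ) x - f χ x * f ψ x) (by fun_prop)
      intro c
      rw [hf2, hf2, hf2, toMul_add, ContinuousMonoidHom.mul_apply, Circle.coe_mul, sub_self]
    -- u = (f (χ+ψ) conj(fχ fψ))
    have h2 : Tendsto (fun k => f (χ + ψ) (y k) * ((e (ang (f χ (y k)) + ang (f ψ (y k))))⁻¹ : Circle))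
        atTop (𝓝 ((1 : Circle) : ℂ)) := by
      have h3 : ∀ k, f (χ + ψ) (y k) * ((e (ang (f χ (y k)) + ang (f ψ (y k))))⁻¹ : Circle) =
          (f (χ + ψ) (y k) - f χ (y k) * f ψ (y k)) *
            ((e (ang (f χ (y k)) + ang (f ψ (y k))))⁻¹ : Circle) +
          ((‖f χ (y k)‖ : ℂ) * (‖f ψ (y k)‖ : ℂ)) := by
        intro k
        have h4 : f χ (y k) * f ψ (y k) * ((e (ang (f χ (y k)) + ang (f ψ (y k))))⁻¹ : Circle) =
            ((‖f χ (y k)‖ : ℂ) * (‖f ψ (y k)‖ : ℂ)) := by
          nth_rw 1 [← norm_mul_e_ang (f χ (y k))]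
          nth_rw 1 [← norm_mul_e_ang (f ψ (y k))]
          rw [Circle.coe_inv, e_add, Circle.coe_mul]
          have h5 : (e (ang (f χ (y k))) : ℂ) ≠ 0 := Circle.coe_ne_zero _
          have h6 : (e (ang (f ψ (y k))) : ℂ) ≠ 0 := Circle.coe_ne_zero _
          field_simp
        rw [sub_mul, h4, sub_add_cancel]
      simp_rw [h3]
      have h5 : Tendsto (fun k => (f (χ + ψ) (y k) - f χ (y k) * f ψ (y k)) *
            ((e (ang (f χ (y k)) + ang (f ψ (y k))))⁻¹ : Circle)) atTop (𝓝 0) := by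
        rw [tendsto_zero_iff_norm_tendsto_zero]
        simp_rw [norm_mul, Circle.norm_coe, mul_one]
        exact tendsto_zero_iff_norm_tendsto_zero.1 h1
      have h6 : Tendsto (fun k => ((‖f χ (y k)‖ : ℂ) * (‖f ψ (y k)‖ : ℂ))) atTop
          (𝓝 (((1 : ℝ) : ℂ) * ((1 : ℝ) : ℂ))) :=
        ((Complex.continuous_ofReal.tendsto 1).comp (hnorm χ)).mul
          ((Complex.continuous_ofReal.tendsto 1).comp (hnorm ψ))
      have h7 := h5.add h6
      simpa using h7
    have h8 := tendsto_ang h2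
    rw [l_one] at h8
    have h9 : ∀ᶠ k in atTop, ang (f (χ + ψ) (y k) *
        ((e (ang (f χ (y k)) + ang (f ψ (y k))))⁻¹ : Circle)) =
        ang (f (χ + ψ) (y k)) - (ang (f χ (y k)) + ang (f ψ (y k))) := by
      filter_upwards [(hnorm (χ + ψ)).eventually (isOpen_ne.mem_nhds (by norm_num : (1 : ℝ) ≠ 0))]
        with k hk
      apply e_inj
      apply Subtype.ext
      have hk' : (‖f (χ + ψ) (y k)‖ : ℂ) ≠ 0 := by exact_mod_cast hk
      have h10 := norm_mul_e_ang (f (χ + ψ) (y k) *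
        ((e (ang (f χ (y k)) + ang (f ψ (y k))))⁻¹ : Circle))
      rw [norm_mul, Circle.norm_coe, mul_one] at h10
      apply mul_left_cancel₀ hk'
      rw [h10, e_sub, div_eq_mul_inv, Circle.coe_mul, ← mul_assoc, norm_mul_e_ang]
    have h10 : Tendsto (fun k => - (ang (f (χ + ψ) (y k)) - (ang (f χ (y k)) + ang (f ψ (y k)))))
        atTop (𝓝 0) := by
      have := (h8.congr' h9).neg
      rwa [neg_zero] at this
    rw [mem_Null]
    refine h10.congr ?_
    intro k
    simp only [r, Pi.sub_apply, Pi.add_apply, map_add]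
    abel
  obtain ⟨r', hr'1, hr'2⟩ := exists_lift r hrhom XF hrA
  -- correction points
  let s : ℕ → (Ch C →+ 𝕋) := fun k => (Pi.evalAddMonoidHom (fun _ : ℕ => 𝕋) k).comp r'
  have hs : ∀ k χ, s k χ = r' χ k := fun k χ => rfl
  let cc : ℕ → C := fun k => pt (s k)
  have hccS : ∀ k, j (cc k) ∈ S := by
    intro k
    obtain ⟨t, ht1, ht2⟩ := exists_Phi_eq π Fᶜ (cc k) (by
      intro χ hχ
      rw [pt_spec, hs, hr'2 χ hχ]
      exact e_zero)
    rw [← ht2]
    exact hFS t (fun i hi => ht1 i (fun h => h hi))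
  let w : ℕ → K := fun k => y k * j (cc k)
  have hwS : ∀ k, w k ∈ S := fun k => S.mul_mem (hyS k) (hccS k)
  apply hseq w hwS
  apply tendsto_nhds_of_unique_mapClusterPt
  intro z hz
  -- `z` is in the range of `j`
  have hzr : z ∈ range j := by
    by_contra hzr
    have hcl : IsClosed (range j) := (isCompact_range hj).isClosed
    obtain ⟨U, V, hU, hV, hUj, hVz, hUV⟩ := SeparatedNhds.of_isCompact_isCompact
      (isCompact_range hj) (isCompact_singleton (x := z)) (disjoint_singleton_right.2 hzr)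
    obtain ⟨H, hH1, hH2, hH3⟩ := hopen U hU hUj
    have h1 : ∀ᶠ k in atTop, w k ∈ U := by
      filter_upwards [hyH H hH1] with k hk
      exact hH3 (H.mul_mem hk (hH2 ⟨_, rfl⟩))
    have h2 := (mapClusterPt_iff_frequently.1 hz) V (hV.mem_nhds (hVz rfl))
    obtain ⟨k, hk1, hk2⟩ := (h2.and_eventually h1).exists
    exact disjoint_left.1 hUV hk2 hk1
  obtain ⟨d, rfl⟩ := hzr
  congr 1
  apply ext_ch
  intro χ
  -- evaluate `f χ`
  have h1 : MapClusterPt (f χ (j d)) atTop (f χ ∘ w) :=
    hz.continuousAt_comp (f χ).continuous.continuousAt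
  have h2 : Tendsto (f χ ∘ w) atTop (𝓝 (χ.toMul c : ℂ)) := by
    have h3 : ∀ k, (f χ ∘ w) k = (‖f χ (y k)‖ : ℂ) * (e ((r' χ - r χ) k) : ℂ) * (χ.toMul c : ℂ) := by
      intro k
      change f χ (y k * j (cc k)) = _
      rw [hf1, pt_spec, hs]
      nth_rw 1 [← norm_mul_e_ang (f χ (y k))]
      rw [mul_assoc, mul_assoc, ← Circle.coe_mul, ← Circle.coe_mul, ← e_add, ← e_hm, ← e_add]
      congr 3
      simp only [r, Pi.sub_apply]
      abel
    have h4 : Tendsto (fun k => (r' χ - r χ) k) atTop (𝓝 0) := (mem_Null _).1 (hr'1 χ)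
    have h5 : Tendsto (fun k => (e ((r' χ - r χ) k) : ℂ)) atTop (𝓝 ((1 : Circle) : ℂ)) := by
      have := (continuous_e.tendsto 0).comp h4
      rw [e_zero] at this
      exact (continuous_subtype_val.tendsto _).comp this
    have h6 := (((Complex.continuous_ofReal.tendsto 1).comp (hnorm χ)).mul h5).mul_const
      (χ.toMul c : ℂ)
    simp only [Complex.ofReal_one, Circle.coe_one, one_mul] at h6
    refine h6.congr ?_
    intro k
    rw [h3]
    rfl
  have h3 := mcp_eq h1 h2
  rw [hf2] at h3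
  exact Subtype.ext h3

end

end Pool.Agent.Helper80
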