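import Mathlib

set_option autoImplicit false

namespace Pool.Agent.Helper80.TreeLike

open FreeGroup

variable {α : Type*} [DecidableEq α]

omit [DecidableEq α] in
theorem red_left {l₁ l₂ : List (α × Bool)} (h : FreeGroup.IsReduced (l₁ ++ l₂)) :
    FreeGroup.IsReduced l₁ := by
  unfold FreeGroup.IsReduced at h ⊢
  rw [List.isChain_append] at h
  exact h.1

omit [DecidableEq α] in
theorem red_right {l₁ l₂ : List (α × Bool)} (h : FreeGroup.IsReduced (l₁ ++ l₂)) :
    FreeGroup.IsReduced l₂ := by
  unfold FreeGroup.IsReduced at h ⊢
  rw [List.isChain_append] at h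
  exact h.2.1

omit [DecidableEq α] in
theorem red_pre {l₁ l₂ : List (α × Bool)} (h : FreeGroup.IsReduced l₂) (h' : l₁ <+: l₂) :
    FreeGroup.IsReduced l₁ := by
  obtain ⟨t, rfl⟩ := h'
  exact red_left h

theorem toWord_mul_letter (o : FreeGroup α) (x : α × Bool) :
    (o * mk [x]).toWord = o.toWord ++ [x] ∨
      ∃ w y, o.toWord = w ++ [y] ∧ (o * mk [x]).toWord = w := by
  rcases List.eq_nil_or_concat o.toWord with h | ⟨w, y, h⟩
  · left
    rw [toWord_mul, h]
    simp [toWord_mk]
  · have hred : IsReduced (w ++ [y]) := by
      have := isReduced_toWord (x := o)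
      rwa [h, List.concat_eq_append] at this
    rw [List.concat_eq_append] at h
    by_cases hxy : y.1 = x.1 ∧ y.2 = !x.2
    · right
      refine ⟨w, y, h, ?_⟩
      have hw : IsReduced w := red_left hred
      rw [toWord_mul, h, toWord_mk, reduce_singleton]
      have hstep : Red.Step (w ++ [y] ++ [x]) w := by
        have := @Red.Step.not _ w [] y.1 y.2
        have hx : x = (y.1, !y.2) := by
          ext
          · exact hxy.1.symm
          · rw [hxy.2]; simp
        rw [hx]
        simpa using this
      rw [reduce.Step.eq hstep, hw.reduce_eq]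
    · left
      have hr : IsReduced (w ++ [y] ++ [x]) := by
        have h2 : IsReduced ([y] ++ [x]) := by
          show IsReduced (y :: x :: [])
          rw [FreeGroup.isReduced_cons_cons]
          refine ⟨?_, IsReduced.singleton⟩
          intro h1
          by_contra hne
          apply hxy
          refine ⟨h1, ?_⟩
          cases hy : y.2 <;> cases hx : x.2 <;> simp_all
        exact IsReduced.append_overlap hred h2 (by simp)
      rw [toWord_mul, h, toWord_mk, reduce_singleton, hr.reduce_eq]

theorem prefix_mul_mk : ∀ (L : List (α × Bool)) (o : FreeGroup α) (f : List (α × Bool)),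
    f <+: o.toWord → L.length + f.length ≤ o.toWord.length → f <+: (o * mk L).toWord := by
  intro L
  induction L with
  | nil =>
    intro o f h _
    have : (mk ([] : List (α × Bool))) = 1 := rfl
    rw [this, mul_one]
    exact h
  | cons x L ih =>
    intro o f h hlen
    have hsplit : o * mk (x :: L) = (o * mk [x]) * mk L := by
      rw [mul_assoc, mul_mk]
      rfl
    rw [hsplit]
    rw [List.length_cons] at hlen
    rcases toWord_mul_letter o x with h1 | ⟨w, y, h1, h2⟩
    · apply ih
      · rw [h1]
        exact h.trans (List.prefix_append _ _)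
      · rw [h1, List.length_append]
        simp
        omega
    · rw [h1, List.length_append] at hlen
      simp at hlen
      apply ih
      · rw [h2]
        rw [h1] at h
        apply List.prefix_of_prefix_length_le h (List.prefix_append _ _)
        omega
      · rw [h2]
        omega

/-- `f` is a prefix of `v` -/
def Pre (f v : FreeGroup α) : Prop := f.toWord <+: v.toWord

theorem Pre.one (v : FreeGroup α) : Pre 1 v := by
  unfold Pre
  rw [toWord_one]
  exact List.nil_prefix

theorem Pre.refl (v : FreeGroup α) : Pre v v := List.prefix_refl _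

theorem Pre.trans {a b c : FreeGroup α} (h1 : Pre a b) (h2 : Pre b c) : Pre a c :=
  List.IsPrefix.trans h1 h2

theorem Pre.mul {f o : FreeGroup α} (h : Pre f o) (c : FreeGroup α)
    (hc : norm c + norm f ≤ norm o) : Pre f (o * c) := by
  have := prefix_mul_mk c.toWord o f.toWord h hc
  rwa [mk_toWord] at this

theorem Pre.toWord_eq {f o : FreeGroup α} (h : Pre f o) :
    o.toWord = f.toWord ++ (f⁻¹ * o).toWord := by
  obtain ⟨t, ht⟩ := h
  have hred : IsReduced t := by
    have := isReduced_toWord (x := o)
    rw [← ht] at this
    exact red_right this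
  have : f⁻¹ * o = mk t := by
    rw [inv_mul_eq_iff_eq_mul]
    rw [← mk_toWord (x := o), ← ht, ← mul_mk, mk_toWord]
  rw [this, toWord_mk, hred.reduce_eq, ht]

theorem Pre.norm_eq {f o : FreeGroup α} (h : Pre f o) :
    norm f + norm (f⁻¹ * o) = norm o := by
  have := congrArg List.length h.toWord_eq
  rw [List.length_append] at this
  exact this.symm

theorem Pre.norm_lt {f o p : FreeGroup α} (h : Pre f o) (hp : ¬ Pre f p) :
    norm (f⁻¹ * o) < norm (o⁻¹ * p) := by
  by_contra hcon
  apply hp
  have h1 := h.norm_eq
  have := h.mul (o⁻¹ * p) (by omega)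
  rwa [mul_inv_cancel_left] at this

theorem Pre.translate {f f' o : FreeGroup α} (h : Pre f o)
    (hlast : f.toWord.getLast? = f'.toWord.getLast?) :
    (f' * (f⁻¹ * o)).toWord = f'.toWord ++ (f⁻¹ * o).toWord := by
  have h1 := h.toWord_eq
  have hred : IsReduced (f.toWord ++ (f⁻¹ * o).toWord) := h1 ▸ isReduced_toWord
  have hred' : IsReduced (f'.toWord ++ (f⁻¹ * o).toWord) := by
    unfold FreeGroup.IsReduced at hred ⊢
    rw [List.isChain_append] at hred ⊢
    refine ⟨isReduced_toWord, hred.2.1, ?_⟩
    rw [← hlast]
    exact hred.2.2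
  rw [toWord_mul, hred'.reduce_eq]

theorem Pre.translate' {f f' o : FreeGroup α} (h : Pre f o)
    (hlast : f.toWord.getLast? = f'.toWord.getLast?) : Pre f' (f' * f⁻¹ * o) := by
  unfold Pre
  rw [mul_assoc, h.translate hlast]
  exact List.prefix_append _ _

/-- parent: remove the last letter -/
def par (f : FreeGroup α) : FreeGroup α := mk f.toWord.dropLast

theorem toWord_par (f : FreeGroup α) : (par f).toWord = f.toWord.dropLast := by
  unfold par
  rw [toWord_mk]
  apply IsReduced.reduce_eq
  exact red_pre (isReduced_toWord (x := f)) (List.dropLast_prefix _)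

theorem par_pre (f : FreeGroup α) : Pre (par f) f := by
  unfold Pre
  rw [toWord_par]
  exact List.dropLast_prefix _

theorem norm_par (f : FreeGroup α) : norm (par f) = norm f - 1 := by
  unfold FreeGroup.norm
  rw [toWord_par, List.length_dropLast]

theorem norm_inv_par_mul (f : FreeGroup α) : norm ((par f)⁻¹ * f) ≤ 1 := by
  have h1 := (par_pre f).norm_eq
  have h2 := norm_par f
  omega

theorem Pre.par_of_lt {f o : FreeGroup α} (h : Pre f o) (hlt : norm f < norm o) :
    Pre f (par o) := by
  unfold Pre
  rw [toWord_par]
  apply List.prefix_of_prefix_length_le h (List.dropLast_prefix _)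
  rw [List.length_dropLast]
  unfold FreeGroup.norm at hlt
  omega

theorem Pre.eq_of_norm_eq {f o : FreeGroup α} (h : Pre f o) (hn : norm o ≤ norm f) : f = o := by
  apply toWord_injective
  exact h.eq_of_length_le hn

/-- truncation of a reduced word to its first `k` letters -/
def trunc (k : ℕ) (f : FreeGroup α) : FreeGroup α := mk (f.toWord.take k)

theorem toWord_trunc (k : ℕ) (f : FreeGroup α) : (trunc k f).toWord = f.toWord.take k := by
  unfold trunc
  rw [toWord_mk]
  apply IsReduced.reduce_eq
  exact red_pre (isReduced_toWord (x := f)) (List.take_prefix _ _)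

theorem trunc_pre (k : ℕ) (f : FreeGroup α) : Pre (trunc k f) f := by
  unfold Pre
  rw [toWord_trunc]
  exact List.take_prefix _ _

theorem norm_trunc (k : ℕ) (f : FreeGroup α) : norm (trunc k f) = min k (norm f) := by
  unfold FreeGroup.norm
  rw [toWord_trunc, List.length_take]

theorem finite_ball [Finite α] (r : ℕ) : {v : FreeGroup α | norm v ≤ r}.Finite := by
  have h : {l : List (α × Bool) | l.length ≤ r}.Finite := List.finite_length_le _ _
  refine Set.Finite.of_finite_image (f := toWord) (h.subset ?_) ?_
  · rintro _ ⟨v, hv, rfl⟩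
    exact hv
  · exact toWord_injective.injOn

end Pool.Agent.Helper80.TreeLike
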