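import Mathlib

set_option autoImplicit false

namespace Pool.Agent.Helper80.InvMon

universe u

/-- An inverse monoid: every element `s` has a unique inverse `s⁻¹`. -/
class InverseMonoid (M : Type u) extends Monoid M, Inv M where
  mul_inv_mul : ∀ s : M, s * s⁻¹ * s = s
  inv_mul_inv : ∀ s : M, s⁻¹ * s * s⁻¹ = s⁻¹
  inv_unique : ∀ s t : M, s * t * s = s → t * s * t = t → t = s⁻¹

/-- Words over `A ∪ A⁻¹` where `A` has `n` letters: the letter `(a, true)` stands for `a` and
`(a, false)` for `a⁻¹`. -/
abbrev Word (n : ℕ) : Type := FreeMonoid (Fin n × Bool)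

/-- The formal inverse of a word. -/
def winv {n : ℕ} (w : Word n) : Word n :=
  FreeMonoid.ofList ((w.toList.map (fun p => (p.1, !p.2))).reverse)

/-- The value in `M` of a letter, for an assignment `ι` of the generators. -/
def letterVal {M : Type u} [InverseMonoid M] {n : ℕ} (ι : Fin n → M) (p : Fin n × Bool) : M :=
  if p.2 then ι p.1 else (ι p.1)⁻¹

/-- The value in `M` of a word. -/
def val {M : Type u} [InverseMonoid M] {n : ℕ} (ι : Fin n → M) : Word n →* M :=
  FreeMonoid.lift (letterVal ι)

/-- `ι` generates `M` as an inverse monoid. -/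
def Generates {M : Type u} [InverseMonoid M] {n : ℕ} (ι : Fin n → M) : Prop :=
  Function.Surjective (val ι)

/-- The congruence on words defining `Inv⟨A | r = s for (r, s) ∈ rels⟩`: it is generated by the
relations `w w⁻¹ w = w`, `u u⁻¹ v v⁻¹ = v v⁻¹ u u⁻¹` and the given ones. -/
def presCon {n : ℕ} (rels : Set (Word n × Word n)) : Con (Word n) :=
  conGen (fun x y => (∃ w, x = w * winv w * w ∧ y = w) ∨
    (∃ u v, x = u * winv u * (v * winv v) ∧ y = v * winv v * (u * winv u)) ∨ (x, y) ∈ rels)

/-- `M` is finitely presented as an inverse monoid. -/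
def FinitelyPresented (M : Type u) [InverseMonoid M] : Prop :=
  ∃ (n : ℕ) (ι : Fin n → M) (rels : Set (Word n × Word n)), rels.Finite ∧ Generates ι ∧
    ∀ x y : Word n, val ι x = val ι y ↔ presCon rels x y

/-- The least congruence on `M` whose quotient is a group. -/
def sigma (M : Type u) [InverseMonoid M] : Con M :=
  sInf {c : Con M | ∀ s : M, ∃ t : M, c (s * t) 1 ∧ c (t * s) 1}

/-- `M` is `E`-unitary: the `σ`-class of `1` is exactly the set of idempotents. -/
def EUnitary (M : Type u) [InverseMonoid M] : Prop :=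
  ∀ s : M, sigma M s 1 ↔ s * s = s

/-- A group is virtually free: it has a free subgroup of finite index. -/
def VirtuallyFree (G : Type u) [Group G] : Prop :=
  ∃ H : Subgroup G, H.FiniteIndex ∧ IsFreeGroup H

/-- The maximal group image `M/σ` (any group `G` with a surjection `π : M → G` whose kernel
congruence is `σ`) is virtually free. -/
def MaxGroupImageVirtuallyFree (M : Type u) [InverseMonoid M] : Prop :=
  ∃ (G : Type u) (_ : Group G) (π : M →* G), Function.Surjective π ∧
    (∀ s t : M, π s = π t ↔ sigma M s t) ∧ VirtuallyFree G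

/-- The vertex set of the Schützenberger graph `S(w)`: the strongly connected component of
`w w⁻¹` in the Cayley graph of `M`. -/
def schutzVertices {M : Type u} [InverseMonoid M] {n : ℕ} (ι : Fin n → M) (w : Word n) : Set M :=
  {s | (∃ u : Word n, val ι (w * winv w) * val ι u = s) ∧
    ∃ v : Word n, s * val ι v = val ι (w * winv w)}

/-- The Schützenberger graph `S(w)`: the full subgraph of the Cayley graph on this component,
with an edge between `s` and `s a` for each letter `a` of `A ∪ A⁻¹`. -/
def schutzGraph {M : Type u} [InverseMonoid M] {n : ℕ} (ι : Fin n → M) (w : Word n) :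
    SimpleGraph (schutzVertices ι w) :=
  SimpleGraph.fromRel (fun s t => ∃ a : Fin n × Bool, (s : M) * letterVal ι a = (t : M))

/-- A connected graph is tree-like if it is quasi-isometric to a tree (path metrics). -/
def TreeLikeGraph {V : Type u} (X : SimpleGraph V) : Prop :=
  X.Connected ∧ ∃ (T : Type u) (Y : SimpleGraph T), Y.IsTree ∧ ∃ (ψ : V → T) (k K c C m : ℝ),
    0 < k ∧ 0 < K ∧ 0 ≤ c ∧ 0 ≤ C ∧ 0 ≤ m ∧
    (∀ x₁ x₂ : V, k * X.dist x₁ x₂ - c ≤ Y.dist (ψ x₁) (ψ x₂) ∧
      (Y.dist (ψ x₁) (ψ x₂) : ℝ) ≤ K * X.dist x₁ x₂ + C) ∧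
    ∀ t : T, ∃ x : V, (Y.dist t (ψ x) : ℝ) ≤ m

/-- `M` is tree-like: for every finite generating set all Schützenberger graphs are tree-like. -/
def TreeLike (M : Type u) [InverseMonoid M] : Prop :=
  ∀ (n : ℕ) (ι : Fin n → M), Generates ι → ∀ w : Word n, TreeLikeGraph (schutzGraph ι w)

end Pool.Agent.Helper80.InvMon
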