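import Pool.Agent.Helper80.QuasiTree

set_option autoImplicit false

namespace Pool.Agent.Helper80.TreeLike

open FreeGroup

universe u

attribute [local instance] VData.dec VData.fin

/-- a graph realised inside the closure system -/
structure Real {G : Type u} [Group G] {D : VData G} {L : Type} (S : Sys D (L := L)) where
  R : Type u
  A : SimpleGraph R
  θ : R → G
  inj : Function.Injective θ
  range : ∀ g, (g, none) ∈ S.P → ∃ s, θ s = g
  hadj : ∀ s t, A.Adj s t ↔ s ≠ t ∧
    ((∃ a, θ s * S.val a = θ t ∧ (θ s, some a) ∈ S.P) ∨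
     (∃ a, θ t * S.val a = θ s ∧ (θ t, some a) ∈ S.P))
  conn : A.Connected
  s0 : R
  hs0 : θ s0 = 1

section
variable {G : Type u} [Group G] {D : VData G} {L : Type} {S : Sys D (L := L)} (X : Real S)

theorem adj_norm {g g' : G} (h : (∃ a, g * S.val a = g' ∧ (g, some a) ∈ S.P) ∨
     (∃ a, g' * S.val a = g ∧ (g', some a) ∈ S.P)) :
    norm ((D.π g)⁻¹ * D.π g') ≤ S.r := by
  rcases h with ⟨a, rfl, _⟩ | ⟨a, rfl, _⟩
  · exact S.hlip g a
  · have := S.hlip g' a
    rw [← norm_inv_eq]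
    simpa using this

theorem real_gr {f : FreeGroup D.β} {s t : X.R} (h : X.A.Adj s t)
    (hs : Pre f (D.π (X.θ s))) (ht : Pre f (D.π (X.θ t))) : (gr S f).Adj (X.θ s) (X.θ t) := by
  rw [X.hadj] at h
  rw [gr_adj]
  refine ⟨fun heq => h.1 (X.inj heq), ?_⟩
  rcases h.2 with ⟨a, h1, h2⟩ | ⟨a, h1, h2⟩
  · left; exact ⟨a, h1, h2, hs, ht⟩
  · right; exact ⟨a, h1, h2, ht, hs⟩

theorem gr_real {f : FreeGroup D.β} {x y : G} (p : (gr S f).Walk x y) :
    ∀ s, X.θ s = x → ∃ t, X.θ t = y ∧ X.A.dist s t ≤ p.length := by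
  induction p with
  | nil =>
    intro s hs
    exact ⟨s, hs, by simp⟩
  | @cons a b c h q ih =>
    intro s hs
    rw [gr_adj] at h
    have hb : ∃ t, X.θ t = b := by
      apply X.range
      rcases h.2 with ⟨l, h1, h2, _⟩ | ⟨l, h1, h2, _⟩
      · rw [← h1]; exact (S.hedge _ _ h2).2
      · exact (S.hedge _ _ h2).1
    obtain ⟨t, ht⟩ := hb
    have hst : X.A.Adj s t := by
      rw [X.hadj, hs, ht]
      refine ⟨fun heq => h.1 (by rw [← hs, ← ht, heq]), ?_⟩
      rcases h.2 with ⟨l, h1, h2, _⟩ | ⟨l, h1, h2, _⟩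
      · left; exact ⟨l, h1, h2⟩
      · right; exact ⟨l, h1, h2⟩
    obtain ⟨u, hu, hd⟩ := ih t ht
    refine ⟨u, hu, ?_⟩
    have h1 := X.conn.dist_triangle (u := s) (v := t) (w := u)
    rw [SimpleGraph.dist_eq_one_iff_adj.mpr hst] at h1
    rw [SimpleGraph.Walk.length_cons]
    omega

/-- distance bound from the uniform estimate -/
theorem real_dist_le {K : ℕ} (hK : ∀ f, Good S f K) {f : FreeGroup D.β} {s t : X.R}
    (h1 : Pre f (D.π (X.θ s))) (h2 : Pre f (D.π (X.θ t)))
    (h3 : norm (f⁻¹ * D.π (X.θ s)) ≤ S.r + 1) (h4 : norm (f⁻¹ * D.π (X.θ t)) ≤ S.r + 1)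
    (h5 : (gr S f).Reachable (X.θ s) (X.θ t)) : X.A.dist s t ≤ K := by
  obtain ⟨p, hp⟩ := h5.exists_walk_length_eq_dist
  obtain ⟨t', ht', hd⟩ := gr_real X p s rfl
  have := X.inj ht'
  subst this
  rw [hp] at hd
  exact hd.trans (hK f _ _ h1 h2 h3 h4 h5)

/-- exit lemma -/
theorem exit_aux {f : FreeGroup D.β} {s t : X.R} (p : X.A.Walk s t) :
    Pre f (D.π (X.θ s)) → ¬ Pre f (D.π (X.θ t)) →
    ∃ s', (gr S f).Reachable (X.θ s) (X.θ s') ∧ Pre f (D.π (X.θ s')) ∧
      norm (f⁻¹ * D.π (X.θ s')) ≤ S.r := by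
  induction p with
  | nil => intro h1 h2; exact absurd h1 h2
  | @cons a b c h q ih =>
    intro h1 h2
    by_cases hb : Pre f (D.π (X.θ b))
    · obtain ⟨s', h3, h4, h5⟩ := ih hb h2
      exact ⟨s', (real_gr X h h1 hb).reachable.trans h3, h4, h5⟩
    · refine ⟨a, SimpleGraph.Reachable.refl _, h1, ?_⟩
      have h3 := h1.norm_lt hb
      rw [X.hadj] at h
      have h4 := adj_norm h.2
      omega

/-- nodes of the tree before identification -/
def Node : Type u := {p : FreeGroup D.β × X.R // Pre p.1 (D.π (X.θ p.2))}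

instance nodeSetoid : Setoid (Node X) where
  r p q := p.1.1 = q.1.1 ∧ (gr S p.1.1).Reachable (X.θ p.1.2) (X.θ q.1.2)
  iseqv := by
    refine ⟨fun p => ⟨rfl, SimpleGraph.Reachable.refl _⟩, ?_, ?_⟩
    · rintro p q ⟨h1, h2⟩
      refine ⟨h1.symm, ?_⟩
      rw [← h1]
      exact h2.symm
    · rintro p q r ⟨h1, h2⟩ ⟨h3, h4⟩
      refine ⟨h1.trans h3, h2.trans ?_⟩
      rw [h1]
      exact h4

/-- nodes of the tree: a prefix and a component of the graph in its cone -/
def T : Type u := Quotient (nodeSetoid X)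

def mkT (f : FreeGroup D.β) (s : X.R) (h : Pre f (D.π (X.θ s))) : T X :=
  Quotient.mk (nodeSetoid X) ⟨(f, s), h⟩

theorem mkT_eq {f f' : FreeGroup D.β} {s s' : X.R} {h : Pre f (D.π (X.θ s))}
    {h' : Pre f' (D.π (X.θ s'))} : mkT X f s h = mkT X f' s' h' ↔
      f = f' ∧ (gr S f).Reachable (X.θ s) (X.θ s') := Quotient.eq

theorem T_ind (x : T X) : ∃ f s h, x = mkT X f s h := by
  induction x using Quotient.inductionOn with
  | h p => exact ⟨p.1.1, p.1.2, p.2, rfl⟩

def parT : T X → T X :=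
  Quotient.map (fun p => ⟨(par p.1.1, p.1.2), (par_pre _).trans p.2⟩) (by
    rintro p q ⟨h1, h2⟩
    refine ⟨by simp only [h1], ?_⟩
    exact h2.mono (gr_mono S (par_pre _)))

theorem parT_mk (f : FreeGroup D.β) (s : X.R) (h : Pre f (D.π (X.θ s))) :
    parT X (mkT X f s h) = mkT X (par f) s ((par_pre _).trans h) := rfl

def depT : T X → ℕ :=
  Quotient.lift (fun p => norm p.1.1) (by
    rintro p q ⟨h1, _⟩
    simp only [h1])

theorem depT_mk (f : FreeGroup D.β) (s : X.R) (h : Pre f (D.π (X.θ s))) :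
    depT X (mkT X f s h) = norm f := rfl

def rootT : T X := mkT X 1 X.s0 (Pre.one _)

theorem reach_one (s t : X.R) : (gr S 1).Reachable (X.θ s) (X.θ t) := by
  obtain ⟨p⟩ := X.conn.preconnected s t
  induction p with
  | nil => exact SimpleGraph.Reachable.refl _
  | cons h q ih => exact (real_gr X h (Pre.one _) (Pre.one _)).reachable.trans ih

theorem parT_root : parT X (rootT X) = rootT X := by
  unfold rootT
  rw [parT_mk, mkT_eq]
  have : par (1 : FreeGroup D.β) = 1 := by
    rw [← FreeGroup.norm_eq_zero, norm_par, FreeGroup.norm_one]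
  refine ⟨this, SimpleGraph.Reachable.refl _⟩

theorem depT_lt (x : T X) (hx : x ≠ rootT X) : depT X (parT X x) < depT X x := by
  obtain ⟨f, s, h, rfl⟩ := T_ind X x
  rw [parT_mk, depT_mk, depT_mk, norm_par]
  have : norm f ≠ 0 := by
    intro h0
    rw [FreeGroup.norm_eq_zero] at h0
    subst h0
    apply hx
    unfold rootT
    rw [mkT_eq]
    exact ⟨rfl, reach_one X _ _⟩
  omega

theorem isTree : (parGraph (parT X)).IsTree :=
  parGraph_isTree (dep := depT X) (parT_root X) (depT_lt X)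

theorem iterate_par {f : FreeGroup D.β} (s : X.R) : ∀ (n : ℕ) (o : FreeGroup D.β)
    (_ : Pre f o) (ho : Pre o (D.π (X.θ s))) (_ : norm o = norm f + n),
    (parT X)^[n] (mkT X o s ho) = mkT X f s (Pre.trans (by assumption) ho) := by
  intro n
  induction n with
  | zero =>
    intro o hfo ho hn
    have : f = o := hfo.eq_of_norm_eq (by omega)
    subst this
    rfl
  | succ n ih =>
    intro o hfo ho hn
    rw [Function.iterate_succ_apply, parT_mk]
    apply ih
    · exact hfo.par_of_lt (by omega)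
    · rw [norm_par]; omega

theorem dist_mkT {f o : FreeGroup D.β} (s : X.R) (hfo : Pre f o) (ho : Pre o (D.π (X.θ s))) :
    (parGraph (parT X)).dist (mkT X o s ho) (mkT X f s (hfo.trans ho)) ≤ norm (f⁻¹ * o) := by
  have h1 := hfo.norm_eq
  have h2 := iterate_par X s (norm (f⁻¹ * o)) o hfo ho h1.symm
  rw [← h2]
  exact parGraph_dist_le (isTree X).connected _ _

/-- representatives near the cutting region -/
theorem exists_rep (x : T X) : ∃ f s h, x = mkT X f s h ∧ norm (f⁻¹ * D.π (X.θ s)) ≤ S.r := by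
  obtain ⟨f, s, h, rfl⟩ := T_ind X x
  by_cases hf : f = 1
  · subst hf
    refine ⟨1, X.s0, Pre.one _, ?_, ?_⟩
    · rw [mkT_eq]
      exact ⟨rfl, reach_one X _ _⟩
    · rw [X.hs0, D.one]; simp
  · obtain ⟨p⟩ := X.conn.preconnected s X.s0
    have hno : ¬ Pre f (D.π (X.θ X.s0)) := by
      rw [X.hs0, D.one]
      intro hpre
      apply hf
      have := hpre.norm_eq
      rw [FreeGroup.norm_one] at this
      rw [← FreeGroup.norm_eq_zero]
      omega
    obtain ⟨s', h1, h2, h3⟩ := exit_aux X p h hno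
    refine ⟨f, s', h2, ?_, h3⟩
    rw [mkT_eq]
    exact ⟨rfl, h1⟩

def psi (s : X.R) : T X := mkT X (D.π (X.θ s)) s (Pre.refl _)

theorem psi_adj (s t : X.R) (h : X.A.Adj s t) :
    (parGraph (parT X)).dist (psi X s) (psi X t) ≤ 3 * S.r := by
  set o := D.π (X.θ s) with ho
  set f := trunc (norm o - S.r) o with hf
  have hfo : Pre f o := trunc_pre _ _
  have hn : norm f = norm o - S.r := by
    rw [hf, norm_trunc]; omega
  have hadj := h
  rw [X.hadj] at hadj
  have h1 : norm (o⁻¹ * D.π (X.θ t)) ≤ S.r := adj_norm hadj.2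
  have hft : Pre f (D.π (X.θ t)) := by
    by_cases hr : S.r ≤ norm o
    · have := hfo.mul (o⁻¹ * D.π (X.θ t)) (by omega)
      rwa [mul_inv_cancel_left] at this
    · have : f = 1 := by rw [← FreeGroup.norm_eq_zero]; omega
      rw [this]
      exact Pre.one _
  have h2 := dist_mkT X s hfo (Pre.refl _)
  have h3 := dist_mkT X t hft (Pre.refl _)
  have heq : mkT X f s (hfo.trans (Pre.refl _)) = mkT X f t (hft.trans (Pre.refl _)) := by
    rw [mkT_eq]
    exact ⟨rfl, (real_gr X h hfo hft).reachable⟩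
  have h4 : norm (f⁻¹ * o) ≤ S.r := by
    have := hfo.norm_eq
    omega
  have h5 : norm (f⁻¹ * D.π (X.θ t)) ≤ 2 * S.r := by
    have e : f⁻¹ * D.π (X.θ t) = (f⁻¹ * o) * (o⁻¹ * D.π (X.θ t)) := by group
    rw [e]
    have := norm_mul_le (f⁻¹ * o) (o⁻¹ * D.π (X.θ t))
    omega
  have h6 := (isTree X).connected.dist_triangle (u := psi X s)
    (v := mkT X f s (hfo.trans (Pre.refl _))) (w := psi X t)
  have h7 : (parGraph (parT X)).dist (mkT X f s (hfo.trans (Pre.refl _))) (psi X t) ≤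
      norm (f⁻¹ * D.π (X.θ t)) := by
    rw [heq, SimpleGraph.dist_comm]
    exact h3
  have h8 : (parGraph (parT X)).dist (psi X s) (mkT X f s (hfo.trans (Pre.refl _))) ≤
      norm (f⁻¹ * o) := h2
  omega

theorem quasi [Finite L] : ∃ (T : Type u) (H : SimpleGraph T), H.IsTree ∧
    ∃ (ψ : X.R → T) (a b c : ℕ), (∀ s t, H.dist (ψ s) (ψ t) ≤ a * X.A.dist s t) ∧
      (∀ s t, X.A.dist s t ≤ b * H.dist (ψ s) (ψ t) + 2 * b) ∧
      (∀ x, ∃ s, H.dist x (ψ s) ≤ c) := by
  obtain ⟨K, hK⟩ := exists_uniform_good S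
  refine ⟨T X, parGraph (parT X), isTree X, psi X, 3 * S.r, K, S.r, ?_, ?_, ?_⟩
  · exact dist_le_of_adj X.conn (isTree X).connected (psi X) _ (psi_adj X)
  · choose fr ρ hρ1 hρ2 hρ3 using exists_rep X
    have hstep : ∀ x y, (parGraph (parT X)).Adj x y → X.A.dist (ρ x) (ρ y) ≤ K := by
      have aux : ∀ x y, parT X x = y → X.A.dist (ρ x) (ρ y) ≤ K := by
        intro x y hxy
        have e1 : mkT X (par (fr x)) (ρ x) ((par_pre _).trans (hρ1 x)) =
            mkT X (fr y) (ρ y) (hρ1 y) := by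
          rw [← parT_mk X _ _ (hρ1 x), ← hρ2 x, hxy, ← hρ2 y]
        rw [mkT_eq] at e1
        have e2 := hρ1 y
        have e3 := hρ3 y
        rw [← e1.1] at e2 e3
        apply real_dist_le X hK ((par_pre _).trans (hρ1 x)) e2 _ (by omega) e1.2
        have e4 : (par (fr x))⁻¹ * D.π (X.θ (ρ x)) =
            ((par (fr x))⁻¹ * fr x) * ((fr x)⁻¹ * D.π (X.θ (ρ x))) := by group
        rw [e4]
        have e5 := norm_mul_le ((par (fr x))⁻¹ * fr x) ((fr x)⁻¹ * D.π (X.θ (ρ x)))
        have e6 := norm_inv_par_mul (fr x)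
        have e7 := hρ3 x
        omega
      intro x y hadj
      rw [parGraph_adj] at hadj
      rcases hadj.2 with h | h
      · exact aux x y h
      · rw [SimpleGraph.dist_comm]
        exact aux y x h
    have hlip := dist_le_of_adj (isTree X).connected X.conn ρ K hstep
    have hnear : ∀ s, X.A.dist s (ρ (psi X s)) ≤ K := by
      intro s
      have e1 := hρ2 (psi X s)
      unfold psi at e1
      rw [mkT_eq] at e1
      have e2 := hρ1 (psi X s)
      have e3 := hρ3 (psi X s)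
      unfold psi at e2 e3
      rw [← e1.1] at e2 e3
      apply real_dist_le X hK (Pre.refl _) e2 _ (by omega) e1.2
      rw [inv_mul_cancel, FreeGroup.norm_one]
      omega
    intro s t
    have h1 := X.conn.dist_triangle (u := s) (v := ρ (psi X s)) (w := t)
    have h2 := X.conn.dist_triangle (u := ρ (psi X s)) (v := ρ (psi X t)) (w := t)
    have h3 := hnear s
    have h4 := hnear t
    rw [SimpleGraph.dist_comm] at h4
    have h5 := hlip (psi X s) (psi X t)
    omega
  · intro x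
    obtain ⟨f, s, h, rfl, hn⟩ := exists_rep X x
    refine ⟨s, ?_⟩
    rw [SimpleGraph.dist_comm]
    exact (dist_mkT X s h (Pre.refl _)).trans hn

end

end Pool.Agent.Helper80.TreeLike
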