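import Pool.Agent.Helper80.InvMonDefs
import Pool.Agent.Helper80.QuasiTree2

set_option autoImplicit false

namespace Pool.Agent.Helper80.InvMon

open Pool.Agent.Helper80.TreeLike

universe u

section basics
variable {M : Type u} [InverseMonoid M]

theorem self_inv_idem (s : M) : (s * s⁻¹) * (s * s⁻¹) = s * s⁻¹ := by
  rw [← mul_assoc, InverseMonoid.mul_inv_mul]

theorem inv_self_idem (s : M) : (s⁻¹ * s) * (s⁻¹ * s) = s⁻¹ * s := by
  rw [← mul_assoc, InverseMonoid.inv_mul_inv]

theorem idem_mul_idem {e f : M} (he : e * e = e) (hf : f * f = f) :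
    (e * f) * (e * f) = e * f := by
  set x := (e * f)⁻¹ with hx
  have h1 : (e * f) * x * (e * f) = e * f := InverseMonoid.mul_inv_mul _
  have h2 : x * (e * f) * x = x := InverseMonoid.inv_mul_inv _
  have h3 : f * x * e = x := by
    apply InverseMonoid.inv_unique
    · calc e * f * (f * x * e) * (e * f) = e * (f * f) * x * (e * e) * f := by
            simp only [mul_assoc]
        _ = (e * f) * x * (e * f) := by rw [he, hf]; simp only [mul_assoc]
        _ = e * f := h1
    · calc f * x * e * (e * f) * (f * x * e) = f * (x * ((e * e) * (f * f)) * x) * e := by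
            simp only [mul_assoc]
        _ = f * (x * (e * f) * x) * e := by rw [he, hf]
        _ = f * x * e := by rw [h2]
  have h4 : x * x = x := by
    calc x * x = (f * x * e) * (f * x * e) := by rw [h3]
      _ = f * (x * (e * f) * x) * e := by simp only [mul_assoc]
      _ = f * x * e := by rw [h2]
      _ = x := h3
  have h5 : x = x⁻¹ := InverseMonoid.inv_unique x x (by rw [h4, h4]) (by rw [h4, h4])
  have h6 : e * f = x⁻¹ := InverseMonoid.inv_unique x (e * f) h2 h1
  rw [h6, ← h5, h4]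

theorem idem_comm {e f : M} (he : e * e = e) (hf : f * f = f) : e * f = f * e := by
  have h1 := idem_mul_idem he hf
  have h2 := idem_mul_idem hf he
  have h3 : e * f = (e * f)⁻¹ :=
    InverseMonoid.inv_unique _ _ (by rw [h1, h1]) (by rw [h1, h1])
  have h4 : f * e = (e * f)⁻¹ := by
    apply InverseMonoid.inv_unique
    · calc e * f * (f * e) * (e * f) = e * (f * f) * (e * e) * f := by simp only [mul_assoc]
        _ = (e * f) * (e * f) := by rw [he, hf]; simp only [mul_assoc]
        _ = e * f := h1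
    · calc f * e * (e * f) * (f * e) = f * (e * e) * (f * f) * e := by simp only [mul_assoc]
        _ = (f * e) * (f * e) := by rw [he, hf]; simp only [mul_assoc]
        _ = f * e := h2
  rw [h4]; exact h3

theorem inv_inv' (s : M) : (s⁻¹)⁻¹ = s :=
  (InverseMonoid.inv_unique s⁻¹ s (InverseMonoid.inv_mul_inv s) (InverseMonoid.mul_inv_mul s)).symm

theorem mul_inv' (s t : M) : (s * t)⁻¹ = t⁻¹ * s⁻¹ := by
  symm
  have hc : (t * t⁻¹) * (s⁻¹ * s) = (s⁻¹ * s) * (t * t⁻¹) :=
    idem_comm (self_inv_idem t) (inv_self_idem s)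
  apply InverseMonoid.inv_unique
  · calc s * t * (t⁻¹ * s⁻¹) * (s * t) = s * ((t * t⁻¹) * (s⁻¹ * s)) * t := by
          simp only [mul_assoc]
      _ = s * ((s⁻¹ * s) * (t * t⁻¹)) * t := by rw [hc]
      _ = (s * s⁻¹ * s) * (t * t⁻¹ * t) := by simp only [mul_assoc]
      _ = s * t := by rw [InverseMonoid.mul_inv_mul, InverseMonoid.mul_inv_mul]
  · calc t⁻¹ * s⁻¹ * (s * t) * (t⁻¹ * s⁻¹) = t⁻¹ * ((s⁻¹ * s) * (t * t⁻¹)) * s⁻¹ := by
          simp only [mul_assoc]
      _ = t⁻¹ * ((t * t⁻¹) * (s⁻¹ * s)) * s⁻¹ := by rw [hc]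
      _ = (t⁻¹ * t * t⁻¹) * (s⁻¹ * s * s⁻¹) := by simp only [mul_assoc]
      _ = t⁻¹ * s⁻¹ := by rw [InverseMonoid.inv_mul_inv, InverseMonoid.inv_mul_inv]

theorem one_inv' : (1 : M)⁻¹ = 1 :=
  (InverseMonoid.inv_unique 1 1 (by simp) (by simp)).symm

/-- formal inverse of a letter -/
def linv {n : ℕ} (p : Fin n × Bool) : Fin n × Bool := (p.1, !p.2)

variable {n : ℕ} (ι : Fin n → M)

theorem letterVal_linv (p : Fin n × Bool) : letterVal ι (linv p) = (letterVal ι p)⁻¹ := by
  unfold letterVal linv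
  obtain ⟨a, b⟩ := p
  cases b
  · simp [inv_inv']
  · simp

theorem val_ofList (l : List (Fin n × Bool)) :
    val ι (FreeMonoid.ofList l) = (l.map (letterVal ι)).prod := by
  unfold val
  rw [FreeMonoid.lift_apply]
  rfl

theorem val_nil : val ι (FreeMonoid.ofList []) = 1 := by
  rw [val_ofList]; rfl

theorem val_cons (a : Fin n × Bool) (l : List (Fin n × Bool)) :
    val ι (FreeMonoid.ofList (a :: l)) = letterVal ι a * val ι (FreeMonoid.ofList l) := by
  rw [val_ofList, val_ofList]; simp

theorem winv_ofList (l : List (Fin n × Bool)) :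
    winv (FreeMonoid.ofList l) = FreeMonoid.ofList ((l.map linv).reverse) := rfl

theorem val_winv (w : Word n) : val ι (winv w) = (val ι w)⁻¹ := by
  have key : ∀ l : List (Fin n × Bool), val ι (winv (FreeMonoid.ofList l)) =
      (val ι (FreeMonoid.ofList l))⁻¹ := by
    intro l
    rw [winv_ofList, val_ofList, val_ofList]
    induction l with
    | nil => simp [one_inv']
    | cons a l ih =>
      rw [List.map_cons, List.reverse_cons, List.map_append, List.prod_append, ih]
      simp [mul_inv', letterVal_linv]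
  exact key w.toList

/-- the Schützenberger vertex set in terms of elements -/
def RC (e : M) : Set M := {s | (∃ x, e * x = s) ∧ ∃ y, s * y = e}

theorem schutz_eq (hι : Generates ι) (w : Word n) :
    schutzVertices ι w = RC (val ι w * (val ι w)⁻¹) := by
  ext s
  unfold schutzVertices RC
  rw [Set.mem_ofPred_eq, Set.mem_ofPred_eq, map_mul, val_winv]
  constructor
  · rintro ⟨⟨u, hu⟩, v, hv⟩
    exact ⟨⟨_, hu⟩, _, hv⟩
  · rintro ⟨⟨x, hx⟩, y, hy⟩
    obtain ⟨u, rfl⟩ := hι x
    obtain ⟨v, rfl⟩ := hι y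
    exact ⟨⟨u, hx⟩, v, hy⟩

theorem schutz_mem (hι : Generates ι) (w : Word n) (x : M) :
    x ∈ schutzVertices ι w ↔ x ∈ RC (val ι w * (val ι w)⁻¹) := by
  rw [schutz_eq ι hι]

theorem RC_mid {e s x y : M} (hs : s ∈ RC e) (h : s * x * y ∈ RC e) : s * x ∈ RC e := by
  obtain ⟨⟨x0, hx0⟩, _⟩ := hs
  obtain ⟨_, z, hz⟩ := h
  refine ⟨⟨x0 * x, by rw [← mul_assoc, hx0]⟩, y * z, ?_⟩
  rw [← mul_assoc, hz]

theorem RC_self {e : M} : e ∈ RC e := ⟨⟨1, mul_one _⟩, 1, mul_one _⟩

/-- paths inside the Schützenberger graph -/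
theorem path_dist (w : Word n) (hι : Generates ι)
    :
    ∀ (l : List (Fin n × Bool)) (s t : schutzVertices ι w),
      (s : M) * val ι (FreeMonoid.ofList l) = t →
      ∃ p : (schutzGraph ι w).Walk s t, p.length ≤ l.length := by
  intro l
  induction l with
  | nil =>
    intro s t h
    rw [val_nil, mul_one] at h
    have : s = t := Subtype.ext h
    subst this
    exact ⟨SimpleGraph.Walk.nil, le_rfl⟩
  | cons a l ih =>
    intro s t h
    rw [val_cons, ← mul_assoc] at h
    have hs := s.2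
    have ht := t.2
    have hmid : (s : M) * letterVal ι a ∈ schutzVertices ι w := by
      rw [schutz_mem ι hι] at hs ht ⊢
      apply RC_mid hs (y := val ι (FreeMonoid.ofList l))
      rw [h]; exact ht
    obtain ⟨p, hp⟩ := ih ⟨_, hmid⟩ t h
    by_cases heq : s = ⟨(s : M) * letterVal ι a, hmid⟩
    · refine ⟨p.copy heq.symm rfl, ?_⟩
      rw [SimpleGraph.Walk.length_copy, List.length_cons]
      omega
    · have hadj : (schutzGraph ι w).Adj s ⟨(s : M) * letterVal ι a, hmid⟩ := by
        unfold schutzGraph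
        rw [SimpleGraph.fromRel_adj]
        exact ⟨heq, Or.inl ⟨a, rfl⟩⟩
      refine ⟨SimpleGraph.Walk.cons hadj p, ?_⟩
      rw [SimpleGraph.Walk.length_cons, List.length_cons]
      omega

theorem schutz_connected (w : Word n) (hι : Generates ι) : (schutzGraph ι w).Connected := by
  have he : val ι (w * winv w) ∈ schutzVertices ι w :=
    ⟨⟨1, by simp⟩, 1, by simp⟩
  haveI : Nonempty (schutzVertices ι w) := ⟨⟨_, he⟩⟩
  have key : ∀ s : schutzVertices ι w, (schutzGraph ι w).Reachable ⟨_, he⟩ s := by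
    intro s
    obtain ⟨⟨u, hu⟩, _⟩ := s.2
    obtain ⟨p, _⟩ := path_dist ι w hι u.toList ⟨_, he⟩ s hu
    exact ⟨p⟩
  exact ⟨fun s t => (key s).symm.trans (key t)⟩

end basics

section main
variable {M : Type u} [InverseMonoid M] {n : ℕ} (ι : Fin n → M)
variable {G : Type u} [Group G] (π : M →* G)

/-- value of a letter in the group -/
def gl (p : Fin n × Bool) : G := π (letterVal ι p)

theorem pi_inv (s : M) : π s⁻¹ = (π s)⁻¹ := by
  have h := congrArg π (InverseMonoid.mul_inv_mul s)
  rw [map_mul, map_mul] at h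
  rw [eq_inv_iff_mul_eq_one]
  have h2 : π s * (π s⁻¹ * π s) = π s * 1 := by rw [mul_one, ← mul_assoc, h]
  exact mul_left_cancel h2

theorem gl_linv (p : Fin n × Bool) : gl ι π (linv p) = (gl ι π p)⁻¹ := by
  unfold gl
  rw [letterVal_linv, pi_inv]

/-- vertices and edges of a path starting at `g` -/
def pathSet : G → List (Fin n × Bool) → Set (G × Option (Fin n × Bool))
  | g, [] => {(g, none)}
  | g, a :: l => {(g, some a)} ∪ pathSet (g * gl ι π a) l

theorem pathSet_cons (g : G) (a : Fin n × Bool) (l : List (Fin n × Bool)) :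
    pathSet ι π g (a :: l) = {(g, some a)} ∪ pathSet ι π (g * gl ι π a) l := rfl

theorem pathSet_nil (g : G) : pathSet ι π g [] = {(g, none)} := rfl

theorem pathSet_finite : ∀ (l : List (Fin n × Bool)) (g : G), (pathSet ι π g l).Finite := by
  intro l
  induction l with
  | nil => intro g; exact Set.finite_singleton _
  | cons a l ih => intro g; exact (Set.finite_singleton _).union (ih _)

theorem pathSet_translate : ∀ (l : List (Fin n × Bool)) (h g : G),
    (fun s : G × Option (Fin n × Bool) => (h * s.1, s.2)) '' pathSet ι π g l =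
      pathSet ι π (h * g) l := by
  intro l
  induction l with
  | nil => intro h g; simp [pathSet]
  | cons a l ih =>
    intro h g
    unfold pathSet
    rw [Set.image_union, ih, Set.image_singleton, mul_assoc]

/-- the set of vertices and edges of the Schützenberger graph inside the group -/
def PS (w : Word n) : Set (G × Option (Fin n × Bool)) :=
  {x | ∃ s ∈ schutzVertices ι w, π s = x.1 ∧
    ∀ a, x.2 = some a → s * letterVal ι a ∈ schutzVertices ι w}

/-- the closure rules -/
def RuleS (rels : Set (Word n × Word n)) (F : Set (G × Option (Fin n × Bool)))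
    (o : G × Option (Fin n × Bool)) : Prop :=
  (∃ g a, F = {(g, some a)} ∧ (o = (g, none) ∨ o = (g * gl ι π a, none) ∨
      o = (g * gl ι π a, some (linv a)))) ∨
  (∃ g x y, ((x, y) ∈ rels ∨ (y, x) ∈ rels) ∧ F = pathSet ι π g x.toList ∧
      o ∈ pathSet ι π g y.toList)

theorem RuleS_inv {rels : Set (Word n × Word n)} (h : G) {F : Set (G × Option (Fin n × Bool))}
    {o : G × Option (Fin n × Bool)} (hR : RuleS ι π rels F o) :
    RuleS ι π rels ((fun s : G × Option (Fin n × Bool) => (h * s.1, s.2)) '' F)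
      (h * o.1, o.2) := by
  rcases hR with ⟨g, a, rfl, ho⟩ | ⟨g, x, y, hxy, rfl, ho⟩
  · left
    refine ⟨h * g, a, by rw [Set.image_singleton], ?_⟩
    rcases ho with rfl | rfl | rfl
    · left; rfl
    · right; left; simp [mul_assoc]
    · right; right; simp [mul_assoc]
  · right
    refine ⟨h * g, x, y, hxy, pathSet_translate ι π _ _ _, ?_⟩
    rw [← pathSet_translate]
    exact ⟨o, ho, rfl⟩

variable {ι} {π}

/-- the hypotheses of the problem, unpacked -/
structure Hyp (ι : Fin n → M) (π : M →* G) (rels : Set (Word n × Word n)) : Prop where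
  fin : rels.Finite
  gen : Generates ι
  pres : ∀ x y : Word n, val ι x = val ι y ↔ presCon rels x y
  ker : ∀ s t : M, π s = π t ↔ sigma M s t
  eun : EUnitary M

variable {rels : Set (Word n × Word n)} (H : Hyp ι π rels)

include H

theorem RC_unique {e s t : M} (hs : s ∈ RC e) (ht : t ∈ RC e) (h : π s = π t) : s = t := by
  obtain ⟨⟨x, hx⟩, y, hy⟩ := hs
  obtain ⟨⟨x', hx'⟩, y', hy'⟩ := ht
  have h1 : s * (y * x') = t := by rw [← mul_assoc, hy, hx']
  have h2 : t * (y' * x) = s := by rw [← mul_assoc, hy', hx]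
  have hid : ∀ {a b : M}, π a = π b → (a⁻¹ * b) * (a⁻¹ * b) = a⁻¹ * b := by
    intro a b hab
    apply (H.eun _).mp
    rw [← H.ker, map_mul, pi_inv, hab, inv_mul_cancel, map_one]
  have e1 := hid h
  have e2 := hid h.symm
  have f1 : s * (s⁻¹ * t) = t := by
    calc s * (s⁻¹ * t) = s * (s⁻¹ * (s * (y * x'))) := by rw [h1]
      _ = (s * s⁻¹ * s) * (y * x') := by simp only [mul_assoc]
      _ = t := by rw [InverseMonoid.mul_inv_mul, h1]
  have f2 : t * (t⁻¹ * s) = s := by
    calc t * (t⁻¹ * s) = t * (t⁻¹ * (t * (y' * x))) := by rw [h2]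
      _ = (t * t⁻¹ * t) * (y' * x) := by simp only [mul_assoc]
      _ = s := by rw [InverseMonoid.mul_inv_mul, h2]
  have hc := idem_comm e1 e2
  have f3 : s * (t⁻¹ * s) = s := by
    calc s * (t⁻¹ * s) = (t * (t⁻¹ * s)) * (t⁻¹ * s) := by rw [f2]
      _ = t * ((t⁻¹ * s) * (t⁻¹ * s)) := mul_assoc _ _ _
      _ = s := by rw [e2, f2]
  calc s = t * (t⁻¹ * s) := f2.symm
    _ = (s * (s⁻¹ * t)) * (t⁻¹ * s) := by rw [f1]
    _ = s * ((s⁻¹ * t) * (t⁻¹ * s)) := mul_assoc _ _ _
    _ = s * ((t⁻¹ * s) * (s⁻¹ * t)) := by rw [hc]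
    _ = (s * (t⁻¹ * s)) * (s⁻¹ * t) := (mul_assoc _ _ _).symm
    _ = s * (s⁻¹ * t) := by rw [f3]
    _ = t := f1

theorem SV_unique {w : Word n} {s t : M} (hs : s ∈ schutzVertices ι w)
    (ht : t ∈ schutzVertices ι w) (h : π s = π t) : s = t := by
  rw [schutz_mem ι H.gen] at hs ht
  exact RC_unique H hs ht h

theorem SV_mid {w : Word n} {s x y : M} (hs : s ∈ schutzVertices ι w)
    (h : s * x * y ∈ schutzVertices ι w) : s * x ∈ schutzVertices ι w := by
  rw [schutz_mem ι H.gen] at hs h ⊢
  exact RC_mid hs h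

theorem SV_linv {w : Word n} {s : M} {a : Fin n × Bool} (hs : s ∈ schutzVertices ι w)
    (h : s * letterVal ι a ∈ schutzVertices ι w) :
    s * letterVal ι a * letterVal ι (linv a) = s := by
  rw [letterVal_linv]
  have h1 : s * (letterVal ι a * (letterVal ι a)⁻¹) * letterVal ι a ∈ schutzVertices ι w := by
    rw [mul_assoc, InverseMonoid.mul_inv_mul]
    exact h
  have h2 := SV_mid H hs h1
  rw [mul_assoc]
  apply SV_unique H h2 hs
  rw [map_mul, map_mul, pi_inv, mul_inv_cancel, mul_one]

theorem path_iff {w : Word n} : ∀ (l : List (Fin n × Bool)) (h : G),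
    pathSet ι π h l ⊆ PS ι π w ↔
      ∃ s ∈ schutzVertices ι w, π s = h ∧ s * val ι (FreeMonoid.ofList l) ∈ schutzVertices ι w := by
  intro l
  induction l with
  | nil =>
    intro h
    unfold pathSet
    rw [Set.singleton_subset_iff, val_nil]
    constructor
    · rintro ⟨s, hs, h1, _⟩
      exact ⟨s, hs, h1, by rwa [mul_one]⟩
    · rintro ⟨s, hs, h1, _⟩
      exact ⟨s, hs, h1, by simp⟩
  | cons a l ih =>
    intro h
    unfold pathSet
    rw [Set.union_subset_iff, ih, Set.singleton_subset_iff, val_cons]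
    constructor
    · rintro ⟨⟨s, hs, h1, h2⟩, t, ht, h3, h4⟩
      have h5 := h2 a rfl
      have : s * letterVal ι a = t := by
        apply SV_unique H h5 ht
        rw [map_mul, h1, h3]
        rfl
      refine ⟨s, hs, h1, ?_⟩
      rw [← mul_assoc, this]
      exact h4
    · rintro ⟨s, hs, h1, h2⟩
      rw [← mul_assoc] at h2
      have h3 := SV_mid H hs h2
      refine ⟨⟨s, hs, h1, ?_⟩, s * letterVal ι a, h3, ?_, h2⟩
      · intro b hb
        have : a = b := Option.some_injective _ hb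
        rw [← this]
        exact h3
      · rw [map_mul, h1]
        rfl

theorem PS_closed {w : Word n} (F : Set (G × Option (Fin n × Bool)))
    (o : G × Option (Fin n × Bool)) (hR : RuleS ι π rels F o) (hF : F ⊆ PS ι π w) :
    o ∈ PS ι π w := by
  rcases hR with ⟨g, a, rfl, ho⟩ | ⟨g, x, y, hxy, rfl, ho⟩
  · rw [Set.singleton_subset_iff] at hF
    obtain ⟨s, hs, h1, h2⟩ := hF
    simp only at h1
    have h3 := h2 a rfl
    have h4 : π (s * letterVal ι a) = g * gl ι π a := by rw [map_mul, h1]; rfl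
    rcases ho with rfl | rfl | rfl
    · exact ⟨s, hs, h1, by simp⟩
    · exact ⟨_, h3, h4, by simp⟩
    · refine ⟨_, h3, h4, ?_⟩
      intro b hb
      have : linv a = b := Option.some_injective _ hb
      rw [← this, SV_linv H hs h3]
      exact hs
  · have hval : val ι x = val ι y := by
      rcases hxy with h | h
      · rw [H.pres]
        exact ConGen.Rel.of _ _ (Or.inr (Or.inr h))
      · symm
        rw [H.pres]
        exact ConGen.Rel.of _ _ (Or.inr (Or.inr h))
    have h1 := (path_iff H _ _).mp hF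
    obtain ⟨s, hs, h2, h3⟩ := h1
    have h4 : pathSet ι π g y.toList ⊆ PS ι π w := by
      rw [path_iff H]
      refine ⟨s, hs, h2, ?_⟩
      have e1 : FreeMonoid.ofList y.toList = y := rfl
      have e2 : FreeMonoid.ofList x.toList = x := rfl
      rw [e2] at h3
      rw [e1, ← hval]
      exact h3
    exact h4 ho

/-- closure of a set of vertices and edges under the rules -/
def ClosedS (ι : Fin n → M) (π : M →* G) (rels : Set (Word n × Word n))
    (Q : Set (G × Option (Fin n × Bool))) : Prop :=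
  ∀ F o, RuleS ι π rels F o → F ⊆ Q → o ∈ Q

omit H in
theorem ClosedS.edge {Q : Set (G × Option (Fin n × Bool))} (hQ : ClosedS ι π rels Q)
    {g : G} {a : Fin n × Bool} (h : (g, some a) ∈ Q) :
    (g, none) ∈ Q ∧ (g * gl ι π a, none) ∈ Q ∧ (g * gl ι π a, some (linv a)) ∈ Q := by
  have hs : ({(g, some a)} : Set (G × Option (Fin n × Bool))) ⊆ Q :=
    Set.singleton_subset_iff.mpr h
  exact ⟨hQ _ _ (Or.inl ⟨g, a, rfl, Or.inl rfl⟩) hs,
    hQ _ _ (Or.inl ⟨g, a, rfl, Or.inr (Or.inl rfl)⟩) hs,
    hQ _ _ (Or.inl ⟨g, a, rfl, Or.inr (Or.inr rfl)⟩) hs⟩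

omit H in
theorem path_start {Q : Set (G × Option (Fin n × Bool))} (hQ : ClosedS ι π rels Q)
    {g : G} {l : List (Fin n × Bool)} (h : pathSet ι π g l ⊆ Q) : (g, none) ∈ Q := by
  cases l with
  | nil => exact h rfl
  | cons a l => exact (hQ.edge (h (Or.inl rfl))).1

omit H in
theorem path_append {Q : Set (G × Option (Fin n × Bool))} (hQ : ClosedS ι π rels Q) :
    ∀ (l l' : List (Fin n × Bool)) (g : G), pathSet ι π g (l ++ l') ⊆ Q ↔
      pathSet ι π g l ⊆ Q ∧ pathSet ι π (g * π (val ι (FreeMonoid.ofList l))) l' ⊆ Q := by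
  intro l l'
  induction l with
  | nil =>
    intro g
    rw [val_nil, map_one, mul_one, List.nil_append]
    refine ⟨fun h => ⟨?_, h⟩, fun h => h.2⟩
    unfold pathSet
    rw [Set.singleton_subset_iff]
    exact path_start hQ h
  | cons a l ih =>
    intro g
    have e : g * π (letterVal ι a * val ι (FreeMonoid.ofList l)) =
        g * gl ι π a * π (val ι (FreeMonoid.ofList l)) := by
      rw [map_mul, ← mul_assoc]; rfl
    rw [List.cons_append, pathSet_cons, pathSet_cons, Set.union_subset_iff,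
      Set.union_subset_iff, ih, val_cons, e, and_assoc]

omit H in
theorem path_mul {Q : Set (G × Option (Fin n × Bool))} (hQ : ClosedS ι π rels Q)
    (x y : Word n) (g : G) : pathSet ι π g (x * y).toList ⊆ Q ↔
      pathSet ι π g x.toList ⊆ Q ∧ pathSet ι π (g * π (val ι x)) y.toList ⊆ Q :=
  path_append hQ x.toList y.toList g

omit H in
theorem path_inv {Q : Set (G × Option (Fin n × Bool))} (hQ : ClosedS ι π rels Q) :
    ∀ (l : List (Fin n × Bool)) (g : G), pathSet ι π g l ⊆ Q →
      pathSet ι π (g * π (val ι (FreeMonoid.ofList l))) (l.map linv).reverse ⊆ Q := by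
  intro l
  induction l with
  | nil =>
    intro g h
    rw [val_nil, map_one, mul_one]
    exact h
  | cons a l ih =>
    intro g h
    unfold pathSet at h
    rw [Set.union_subset_iff, Set.singleton_subset_iff] at h
    obtain ⟨h1, h2⟩ := h
    have h3 := ih _ h2
    rw [List.map_cons, List.reverse_cons, path_append hQ, val_cons, map_mul]
    have e1 : g * (π (letterVal ι a) * π (val ι (FreeMonoid.ofList l))) =
        g * gl ι π a * π (val ι (FreeMonoid.ofList l)) := by
      rw [← mul_assoc]; rfl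
    rw [e1]
    refine ⟨h3, ?_⟩
    have e2 : FreeMonoid.ofList (l.map linv).reverse = winv (FreeMonoid.ofList l) := rfl
    rw [e2, val_winv, pi_inv, mul_inv_cancel_right]
    unfold pathSet
    unfold pathSet
    rw [Set.union_subset_iff, Set.singleton_subset_iff, Set.singleton_subset_iff, gl_linv,
      mul_inv_cancel_right]
    exact ⟨(hQ.edge h1).2.2, (hQ.edge h1).1⟩

/-- the congruence of words that are interchangeable inside `Q` -/
def conQ {Q : Set (G × Option (Fin n × Bool))} (hQ : ClosedS ι π rels Q) : Con (Word n) where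
  r x y := π (val ι x) = π (val ι y) ∧
    ∀ g, (pathSet ι π g x.toList ⊆ Q ↔ pathSet ι π g y.toList ⊆ Q)
  iseqv := by
    refine ⟨fun x => ⟨rfl, fun g => Iff.rfl⟩, fun h => ⟨h.1.symm, fun g => (h.2 g).symm⟩,
      fun h h' => ⟨h.1.trans h'.1, fun g => (h.2 g).trans (h'.2 g)⟩⟩
  mul' := by
    rintro x y z t ⟨h1, h2⟩ ⟨h3, h4⟩
    refine ⟨by rw [map_mul, map_mul, map_mul, map_mul, h1, h3], fun g => ?_⟩
    rw [path_mul hQ, path_mul hQ, h2, h1, h4]

theorem presCon_le {Q : Set (G × Option (Fin n × Bool))} (hQ : ClosedS ι π rels Q) :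
    presCon rels ≤ conQ hQ := by
  unfold presCon
  rw [Con.conGen_le]
  have hw : ∀ (w : Word n) (g : G), pathSet ι π g (w * winv w).toList ⊆ Q ↔
      pathSet ι π g w.toList ⊆ Q := by
    intro w g
    rw [path_mul hQ]
    refine ⟨fun h => h.1, fun h => ⟨h, ?_⟩⟩
    exact path_inv hQ w.toList g h
  have hone : ∀ w : Word n, π (val ι (w * winv w)) = 1 := by
    intro w
    rw [map_mul, map_mul, val_winv, pi_inv, mul_inv_cancel]
  rintro x y (⟨w, rfl, rfl⟩ | ⟨u, v, rfl, rfl⟩ | hxy)
  · refine ⟨?_, fun g => ?_⟩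
    · rw [map_mul, map_mul, hone, one_mul]
    · rw [path_mul hQ, hw, hone, mul_one]
      tauto
  · refine ⟨?_, fun g => ?_⟩
    · rw [map_mul, map_mul, hone, hone, map_mul, map_mul, hone, hone]
    · rw [path_mul hQ (u * winv u) (v * winv v), path_mul hQ (v * winv v) (u * winv u),
        hw, hw, hw, hw, hone, hone, mul_one]
      tauto
  · have hval : val ι x = val ι y := by
      rw [H.pres]
      exact ConGen.Rel.of _ _ (Or.inr (Or.inr hxy))
    refine ⟨by rw [hval], fun g => ⟨fun h o ho => ?_, fun h o ho => ?_⟩⟩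
    · exact hQ _ _ (Or.inr ⟨g, x, y, Or.inl hxy, rfl, ho⟩) h
    · exact hQ _ _ (Or.inr ⟨g, y, x, Or.inr hxy, rfl, ho⟩) h

theorem PS_min {w : Word n} {Q : Set (G × Option (Fin n × Bool))} (hQ : ClosedS ι π rels Q)
    (hE : pathSet ι π 1 w.toList ⊆ Q) : PS ι π w ⊆ Q := by
  have hone : π (val ι (w * winv w)) = 1 := by
    rw [map_mul, map_mul, val_winv, pi_inv, mul_inv_cancel]
  have hw : pathSet ι π 1 (w * winv w).toList ⊆ Q := by
    rw [path_mul hQ]
    exact ⟨hE, path_inv hQ w.toList 1 hE⟩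
  have key : ∀ u v : Word n, val ι (w * winv w) * val ι u * val ι v = val ι (w * winv w) →
      pathSet ι π 1 u.toList ⊆ Q ∧ pathSet ι π (π (val ι u)) v.toList ⊆ Q := by
    intro u v h
    have h1 : presCon rels ((w * winv w) * (u * v)) (w * winv w) := by
      rw [← H.pres, map_mul, map_mul (val ι) u v, ← mul_assoc]
      exact h
    have h2 := ((presCon_le H hQ h1).2 1).mpr hw
    rw [path_mul hQ (w * winv w) (u * v), hone, mul_one, path_mul hQ u v, one_mul] at h2
    exact h2.2
  rintro ⟨g, o⟩ ⟨s, hs, h1, h2⟩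
  simp only at h1 h2
  have hg : ∀ u : Word n, val ι (w * winv w) * val ι u = s → π (val ι u) = g := by
    intro u hu
    rw [← h1, ← hu, map_mul, hone, one_mul]
  obtain ⟨⟨u, hu⟩, v, hv⟩ := hs
  cases o with
  | none =>
    obtain ⟨_, h4⟩ := key u v (by rw [hu, hv])
    rw [hg u hu] at h4
    exact path_start hQ h4
  | some a =>
    obtain ⟨_, v', hv'⟩ := h2 a rfl
    have h5 := key u (FreeMonoid.of a * v') (by
      have : val ι (FreeMonoid.of a) = letterVal ι a := by
        unfold val
        rw [FreeMonoid.lift_eval_of]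
      rw [hu, map_mul (val ι) (FreeMonoid.of a) v', this, ← mul_assoc]
      exact hv')
    rw [hg u hu] at h5
    exact h5.2 (Or.inl rfl)

omit H in
theorem pathSet_disp {g : G} {l : List (Fin n × Bool)} {p : G × Option (Fin n × Bool)}
    (hp : p ∈ pathSet ι π g l) : ∃ q ∈ pathSet ι π 1 l, p.1 = g * q.1 := by
  have := pathSet_translate ι π l g 1
  rw [mul_one] at this
  rw [← this] at hp
  obtain ⟨q, hq, rfl⟩ := hp
  exact ⟨q, hq, rfl⟩

/-- displacements occurring in the rules -/
def Disp (ι : Fin n → M) (π : M →* G) (rels : Set (Word n × Word n)) : Set G :=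
  Set.range (gl ι π) ∪ Set.range (fun a => (gl ι π a)⁻¹) ∪ {1} ∪
    (⋃ xy ∈ rels, (fun p : (G × Option (Fin n × Bool)) × (G × Option (Fin n × Bool)) =>
      p.1.1⁻¹ * p.2.1) '' (pathSet ι π 1 xy.1.toList ×ˢ pathSet ι π 1 xy.2.toList)) ∪
    (⋃ xy ∈ rels, (fun p : (G × Option (Fin n × Bool)) × (G × Option (Fin n × Bool)) =>
      p.1.1⁻¹ * p.2.1) '' (pathSet ι π 1 xy.2.toList ×ˢ pathSet ι π 1 xy.1.toList))

theorem Disp_finite : (Disp ι π rels).Finite := by
  unfold Disp
  refine Set.Finite.union (Set.Finite.union (Set.Finite.union (Set.Finite.union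
    (Set.finite_range _) (Set.finite_range _)) (Set.finite_singleton _)) ?_) ?_
  · apply H.fin.biUnion
    intro xy _
    exact ((pathSet_finite ι π _ _).prod (pathSet_finite ι π _ _)).image _
  · apply H.fin.biUnion
    intro xy _
    exact ((pathSet_finite ι π _ _).prod (pathSet_finite ι π _ _)).image _

omit H in
theorem rule_disp {F : Set (G × Option (Fin n × Bool))} {o : G × Option (Fin n × Bool)}
    (hR : RuleS ι π rels F o) : ∀ p ∈ F, ∃ d ∈ Disp ι π rels, p.1 = o.1 * d := by
  intro p hp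
  rcases hR with ⟨g, a, rfl, ho⟩ | ⟨g, x, y, hxy, rfl, ho⟩
  · rw [Set.mem_singleton_iff] at hp
    subst hp
    rcases ho with rfl | rfl | rfl
    · exact ⟨1, Or.inl (Or.inl (Or.inr rfl)), by simp⟩
    · exact ⟨(gl ι π a)⁻¹, Or.inl (Or.inl (Or.inl (Or.inr ⟨a, rfl⟩))), by simp⟩
    · exact ⟨(gl ι π a)⁻¹, Or.inl (Or.inl (Or.inl (Or.inr ⟨a, rfl⟩))), by simp⟩
  · obtain ⟨q, hq, hq'⟩ := pathSet_disp hp
    obtain ⟨q', hq2, hq2'⟩ := pathSet_disp ho
    refine ⟨q'.1⁻¹ * q.1, ?_, ?_⟩
    · rcases hxy with h | h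
      · right
        simp only [Set.mem_iUnion]
        exact ⟨(x, y), h, (q', q), ⟨hq2, hq⟩, rfl⟩
      · left; right
        simp only [Set.mem_iUnion]
        exact ⟨(y, x), h, (q', q), ⟨hq2, hq⟩, rfl⟩
    · rw [hq', hq2']
      group

attribute [local instance] VData.dec VData.fin

open FreeGroup in
theorem disp_bound (D : VData G) : ∃ r : ℕ, ∀ d ∈ Disp ι π rels, ∀ h : G,
    norm ((D.π h)⁻¹ * D.π (h * d)) ≤ r := by
  choose bd hbd using D.bounded
  obtain ⟨r, hr⟩ := ((Disp_finite H).image bd).bddAbove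
  exact ⟨r, fun d hd h => (hbd d h).trans (hr ⟨d, hd, rfl⟩)⟩

open FreeGroup in
theorem E0_bound (D : VData G) (w : Word n) : ∃ N : ℕ, ∀ s ∈ pathSet ι π 1 w.toList,
    norm (D.π s.1) ≤ N := by
  obtain ⟨N, hN⟩ := ((pathSet_finite ι π w.toList 1).image (fun s => norm (D.π s.1))).bddAbove
  exact ⟨N, fun s hs => hN ⟨s, hs, rfl⟩⟩

theorem E0_sub (w : Word n) : pathSet ι π 1 w.toList ⊆ PS ι π w := by
  rw [path_iff H]
  have hid : val ι (w * winv w) * val ι w = val ι w := by
    rw [map_mul, val_winv, InverseMonoid.mul_inv_mul]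
  refine ⟨val ι (w * winv w), ⟨⟨1, by simp⟩, 1, by simp⟩, ?_, ?_⟩
  · rw [map_mul, map_mul, val_winv, pi_inv, mul_inv_cancel]
  · refine ⟨⟨w, rfl⟩, winv w, ?_⟩
    have e1 : val ι (FreeMonoid.ofList w.toList) = val ι w := rfl
    rw [e1, hid, ← map_mul]

theorem exists_sys (D : VData G) (w : Word n) :
    ∃ S : Sys D (L := Fin n × Bool), S.P = PS ι π w ∧ S.val = gl ι π := by
  obtain ⟨r, hr⟩ := disp_bound H D
  obtain ⟨N, hN⟩ := E0_bound H D w
  refine ⟨{ val := gl ι π, P := PS ι π w, Rule := RuleS ι π rels,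
            E0 := pathSet ι π 1 w.toList, r := r, N0 := N, hinv := ?_, hr := ?_, hE0 := E0_sub H w,
            hclosed := PS_closed H, hmin := ?_, hN0 := hN, hedge := ?_, hlip := ?_ }, rfl, rfl⟩
  · intro v F o hR
    exact RuleS_inv ι π (D.j v) hR
  · intro F o hR p hp
    obtain ⟨d, hd, hd'⟩ := rule_disp hR p hp
    rw [hd']
    exact hr d hd _
  · intro Q hE hQ
    exact PS_min H hQ hE
  · intro g a h
    have hc : ClosedS ι π rels (PS ι π w) := PS_closed H
    exact ⟨(hc.edge h).1, (hc.edge h).2.1⟩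
  · intro g a
    exact hr _ (Or.inl (Or.inl (Or.inl (Or.inl ⟨a, rfl⟩)))) g

theorem exists_real (D : VData G) (w : Word n) :
    ∃ (T : Type u) (Y : SimpleGraph T), Y.IsTree ∧
    ∃ (ψ : schutzVertices ι w → T) (a b c : ℕ),
      (∀ s t, Y.dist (ψ s) (ψ t) ≤ a * (schutzGraph ι w).dist s t) ∧
      (∀ s t, (schutzGraph ι w).dist s t ≤ b * Y.dist (ψ s) (ψ t) + 2 * b) ∧
      (∀ x, ∃ s, Y.dist x (ψ s) ≤ c) := by
  obtain ⟨S, hP, hv⟩ := exists_sys H D w
  have hinj : Function.Injective (fun s : schutzVertices ι w => π (s : M)) := by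
    intro s t hst
    exact Subtype.ext (SV_unique H s.2 t.2 hst)
  have he : val ι (w * winv w) ∈ schutzVertices ι w := ⟨⟨1, by simp⟩, 1, by simp⟩
  have hedge : ∀ s t : schutzVertices ι w, (∃ a, (s : M) * letterVal ι a = t) ↔
      ∃ a, π (s : M) * S.val a = π (t : M) ∧ (π (s : M), some a) ∈ S.P := by
    intro s t
    rw [hP, hv]
    constructor
    · rintro ⟨a, ha⟩
      refine ⟨a, by rw [← ha, map_mul]; rfl, s, s.2, rfl, ?_⟩
      intro b hb
      have : a = b := Option.some_injective _ hb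
      rw [← this, ha]
      exact t.2
    · rintro ⟨a, h1, s', hs', h2, h3⟩
      have h4 : s' = s := SV_unique H hs' s.2 h2
      subst h4
      refine ⟨a, ?_⟩
      apply SV_unique H (h3 a rfl) t.2
      rw [map_mul]
      exact h1
  let X : Real S :=
    { R := schutzVertices ι w
      A := schutzGraph ι w
      θ := fun s => π (s : M)
      inj := hinj
      range := by
        intro g hg
        rw [hP] at hg
        obtain ⟨s, hs, h1, _⟩ := hg
        exact ⟨⟨s, hs⟩, h1⟩
      hadj := by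
        intro s t
        unfold schutzGraph
        rw [SimpleGraph.fromRel_adj, hedge, hedge]
      conn := schutz_connected ι w H.gen
      s0 := ⟨_, he⟩
      hs0 := by
        show π (val ι (w * winv w)) = 1
        rw [map_mul, map_mul, val_winv, pi_inv, mul_inv_cancel] }
  exact quasi X

end main

section final
variable {M : Type u} [InverseMonoid M]

theorem lip_change {n n' : ℕ} {ι : Fin n → M} {ι' : Fin n' → M} (hι : Generates ι)
    (hι' : Generates ι') {w : Word n} {w' : Word n'} (hw : val ι w = val ι' w')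
    (f : schutzVertices ι' w' → schutzVertices ι w) (hf : ∀ s, (f s : M) = s) :
    ∃ K : ℕ, ∀ s t, (schutzGraph ι w).dist (f s) (f t) ≤ K * (schutzGraph ι' w').dist s t := by
  choose u hu using fun a : Fin n' × Bool => hι (letterVal ι' a)
  obtain ⟨K, hK⟩ := (Set.finite_range (fun a => (u a).toList.length)).bddAbove
  refine ⟨K, ?_⟩
  apply dist_le_of_adj (schutz_connected ι' w' hι') (schutz_connected ι w hι) f K
  have aux : ∀ s t : schutzVertices ι' w', (∃ a, (s : M) * letterVal ι' a = t) →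
      (schutzGraph ι w).dist (f s) (f t) ≤ K := by
    rintro s t ⟨a, ha⟩
    obtain ⟨p, hp⟩ := path_dist ι w hι (u a).toList (f s) (f t) (by
      rw [hf, hf, ← ha, ← hu a]; rfl)
    exact (SimpleGraph.dist_le p).trans (hp.trans (hK ⟨a, rfl⟩))
  intro s t hadj
  unfold schutzGraph at hadj
  rw [SimpleGraph.fromRel_adj] at hadj
  rcases hadj.2 with h | h
  · exact aux s t h
  · rw [SimpleGraph.dist_comm]
    exact aux t s h

theorem main (hfp : FinitelyPresented M) (hE : EUnitary M)
    (hvf : MaxGroupImageVirtuallyFree M) : TreeLike M := by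
  obtain ⟨n, ι, rels, hfin, hgen, hpres⟩ := hfp
  obtain ⟨G, _, π, hsurj, hker, Hs, hHs, hfree⟩ := hvf
  have H : Hyp ι π rels := ⟨hfin, hgen, hpres, hker, hE⟩
  have hGfg : Group.FG G := by
    rw [Group.fg_iff_exists_freeGroup_hom_surjective_finite]
    refine ⟨Fin n, inferInstance, FreeGroup.lift (fun i => π (ι i)), ?_⟩
    intro g
    obtain ⟨s, rfl⟩ := hsurj g
    obtain ⟨w, rfl⟩ := hgen s
    have key : ∀ l : List (Fin n × Bool), ∃ x : FreeGroup (Fin n),
        FreeGroup.lift (fun i => π (ι i)) x = π (val ι (FreeMonoid.ofList l)) := by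
      intro l
      induction l with
      | nil => exact ⟨1, by rw [val_nil]; simp⟩
      | cons a l ih =>
        obtain ⟨x, hx⟩ := ih
        rw [val_cons]
        obtain ⟨i, b⟩ := a
        cases b
        · refine ⟨(FreeGroup.of i)⁻¹ * x, ?_⟩
          rw [map_mul, map_mul, hx, map_inv, FreeGroup.lift_apply_of]
          congr 1
          unfold letterVal
          simp [pi_inv]
        · refine ⟨FreeGroup.of i * x, ?_⟩
          rw [map_mul, map_mul, hx, FreeGroup.lift_apply_of]
          congr 1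
    exact key w.toList
  obtain ⟨D⟩ := exists_vdata G hGfg Hs
  intro n' ι' hι' w'
  refine ⟨schutz_connected ι' w' hι', ?_⟩
  obtain ⟨w, hw⟩ := hgen (val ι' w')
  have hset : schutzVertices ι w = schutzVertices ι' w' := by
    rw [schutz_eq ι hgen, schutz_eq ι' hι', hw]
  obtain ⟨T, Y, hT, ψ, a, b, c, h1, h2, h3⟩ := exists_real H D w
  let f : schutzVertices ι' w' → schutzVertices ι w := fun s => ⟨s, by rw [hset]; exact s.2⟩
  let f' : schutzVertices ι w → schutzVertices ι' w' := fun s => ⟨s, by rw [← hset]; exact s.2⟩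
  obtain ⟨K, hK⟩ := lip_change hgen hι' hw f (fun _ => rfl)
  obtain ⟨K', hK'⟩ := lip_change hι' hgen hw.symm f' (fun _ => rfl)
  refine ⟨T, Y, hT, fun s => ψ (f s), 1 / (K' * b + 1), a * K + 1, 2, 0, c, by positivity,
    by positivity, by norm_num, le_rfl, by positivity, ?_, ?_⟩
  · intro x y
    have e1 := h1 (f x) (f y)
    have e2 := h2 (f x) (f y)
    have e3 := hK x y
    have e4 := hK' (f x) (f y)
    have ff : ∀ z, f' (f z) = z := fun z => rfl
    rw [ff, ff] at e4
    have e5 : ((schutzGraph ι' w').dist x y : ℝ) ≤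
        K' * (b * Y.dist (ψ (f x)) (ψ (f y)) + 2 * b) := by
      exact_mod_cast e4.trans (Nat.mul_le_mul_left K' e2)
    have e6 : (Y.dist (ψ (f x)) (ψ (f y)) : ℝ) ≤ a * (K * (schutzGraph ι' w').dist x y) := by
      exact_mod_cast e1.trans (Nat.mul_le_mul_left a e3)
    have hd0 : (0 : ℝ) ≤ Y.dist (ψ (f x)) (ψ (f y)) := by positivity
    have hd1 : (0 : ℝ) ≤ (schutzGraph ι' w').dist x y := by positivity
    constructor
    · rw [sub_le_iff_le_add, div_mul_eq_mul_div, one_mul, div_le_iff₀ (by positivity)]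
      nlinarith
    · nlinarith
  · intro t
    obtain ⟨s, hs⟩ := h3 t
    refine ⟨f' s, ?_⟩
    have : f (f' s) = s := rfl
    simp only [this]
    exact_mod_cast hs

end final

end Pool.Agent.Helper80.InvMon
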