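import Pool.Agent.Helper80.Central

set_option autoImplicit false
set_option linter.unusedSectionVars false

/-!
# Main theorem for MP_12f6a1_al
-/

open Topology Filter Set
open scoped IsMulCommutative Pointwise

universe u v

namespace Pool.Agent.Helper80.LocMin

/-- type synonym -/
def Cpy (G : Type u) : Type u := G

instance {G : Type u} [Group G] : Group (Cpy G) := inferInstanceAs (Group G)

/-- identity -/
def toCpy (G : Type u) [Group G] : G →* Cpy G := MonoidHom.id G

/-- From local minimality to local essentiality. -/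
theorem locally_essential {G : Type u} {K : Type v} [Group G] [TopologicalSpace G]
    [Group K] [TopologicalSpace K] [IsTopologicalGroup K] [T2Space K] [CompactSpace K]
    (i : G →* K) (hi : IsEmbedding i) (hd : DenseRange i) (hlm : IsLocallyMinimal G) :
    ∃ W ∈ 𝓝 (1 : K), ∀ N : Subgroup K, N.Normal → IsClosed (N : Set K) →
      (N : Set K) ⊆ W → N ≠ ⊥ → ∃ x ∈ N, x ∈ i.range ∧ x ≠ 1 := by
  obtain ⟨V, hV, hmin⟩ := hlm
  rw [hi.isInducing.nhds_eq_comap, mem_comap] at hV
  obtain ⟨O, hO, hOV⟩ := hV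
  rw [map_one] at hO
  obtain ⟨W, hWo, hW1, hWW⟩ := exists_open_nhds_one_mul_subset hO
  refine ⟨W, hWo.mem_nhds hW1, fun N hN hNc hNW hNne => ?_⟩
  by_contra hcon
  push Not at hcon
  apply hNne
  -- the quotient map
  let q : G →* K ⧸ N := (QuotientGroup.mk' N).comp i
  have hqapp : ∀ g, q g = (QuotientGroup.mk (i g) : K ⧸ N) := fun g => rfl
  have hqinj : Function.Injective q := by
    rw [injective_iff_map_eq_one]
    intro g hg
    have h1 : i g ∈ N := (QuotientGroup.eq_one_iff _).1 hg
    have h2 := hcon _ h1 ⟨g, rfl⟩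
    apply hi.injective
    rw [h2, map_one]
  let q' : Cpy G →* K ⧸ N := q
  let τ : TopologicalSpace (Cpy G) := TopologicalSpace.induced q' inferInstance
  have hqind : @IsInducing (Cpy G) (K ⧸ N) τ _ q' := ⟨rfl⟩
  have hτ : @IsTopologicalGroup (Cpy G) τ _ := topologicalGroup_induced q'
  have hT2 : @T2Space (Cpy G) τ := by
    have hc : @Continuous (Cpy G) (K ⧸ N) τ _ q' := continuous_induced_dom
    exact T2Space.of_injective_continuous hqinj hc
  have hqc : Continuous q := (QuotientGroup.continuous_mk (N := N)).comp hi.continuous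
  have hfc : @Continuous G (Cpy G) _ τ (toCpy G) := continuous_induced_rng.2 hqc
  have hnhd : toCpy G '' V ∈ @nhds (Cpy G) τ 1 := by
    rw [hqind.nhds_eq_comap, mem_comap, map_one]
    refine ⟨(QuotientGroup.mk : K → K ⧸ N) '' W, ?_, ?_⟩
    · have h1 : IsOpen ((QuotientGroup.mk : K → K ⧸ N) '' W) :=
        QuotientGroup.isOpenMap_coe _ hWo
      apply h1.mem_nhds
      exact ⟨1, hW1, rfl⟩
    · intro g hg
      obtain ⟨w, hw, hwg⟩ := hg
      refine ⟨g, hOV ?_, rfl⟩
      have h1 : w⁻¹ * i g ∈ N := QuotientGroup.eq.1 hwg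
      have h2 : i g = w * (w⁻¹ * i g) := by group
      apply hWW
      rw [h2]
      exact Set.mul_mem_mul hw (hNW h1)
  have hopen := @hmin (Cpy G) _ τ hτ hT2 (toCpy G) Function.bijective_id hfc hnhd
  rw [eq_bot_iff]
  intro n hn
  rw [Subgroup.mem_bot]
  by_contra hn1
  obtain ⟨A, B, hA, hB, h1A, hnB, hAB⟩ := t2_separation (Ne.symm hn1)
  have hU : IsOpen (i ⁻¹' A) := hA.preimage hi.continuous
  have h3 := hopen _ hU
  have h4 : toCpy G '' (i ⁻¹' A) ∈ @nhds (Cpy G) τ 1 := by
    apply h3.mem_nhds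
    refine ⟨1, ?_, rfl⟩
    rw [mem_preimage, map_one]
    exact h1A
  rw [hqind.nhds_eq_comap, mem_comap, map_one] at h4
  obtain ⟨Q, hQ, hQA⟩ := h4
  obtain ⟨Q', hQ'Q, hQ'o, h1Q'⟩ := mem_nhds_iff.1 hQ
  have h5 : IsOpen (((QuotientGroup.mk : K → K ⧸ N) ⁻¹' Q') ∩ B) :=
    (hQ'o.preimage QuotientGroup.continuous_mk).inter hB
  have h6 : n ∈ ((QuotientGroup.mk : K → K ⧸ N) ⁻¹' Q') ∩ B := by
    refine ⟨?_, hnB⟩
    rw [mem_preimage, (QuotientGroup.eq_one_iff n).2 hn]
    exact h1Q'
  obtain ⟨g, hg⟩ := hd.exists_mem_open h5 ⟨n, h6⟩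
  have h7 : g ∈ toCpy G '' (i ⁻¹' A) := hQA (hQ'Q hg.1)
  obtain ⟨g', hg', hgg'⟩ := h7
  have h8 : g' = g := hgg'
  rw [h8] at hg'
  exact disjoint_left.1 hAB hg' hg.2

/-- The image of the identity component of `G`. -/
lemma connectedComponentIn_subset {G : Type u} {K : Type v} [Group G] [TopologicalSpace G]
    [Group K] [TopologicalSpace K] (i : G →* K) (hi : IsEmbedding i) {Y : Set K}
    (hY : IsPreconnected Y) (h1 : (1 : K) ∈ Y) (hYr : Y ⊆ range i) :
    Y ⊆ i '' connectedComponent (1 : G) := by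
  have h2 : i '' (i ⁻¹' Y) = Y := image_preimage_eq_of_subset hYr
  have h3 : IsPreconnected (i ⁻¹' Y) := by
    rw [← hi.isInducing.isPreconnected_image, h2]
    exact hY
  have h4 : i ⁻¹' Y ⊆ connectedComponent (1 : G) :=
    h3.subset_connectedComponent (by rw [mem_preimage, map_one]; exact h1)
  rw [← h2]
  exact image_mono h4

lemma noFree_of_not_ulam {B : Type u} (h : ¬ UlamMeasurable (Cardinal.mk B)) : NoFree B := by
  intro F hF
  by_contra hcon
  push Not at hcon
  exact h ⟨B, F, rfl, hcon, hF⟩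

/-- **Main theorem.** -/
theorem main {G : Type u} {K : Type v} [Group G] [TopologicalSpace G] [IsTopologicalGroup G]
    [Group K] [TopologicalSpace K] (i : G →* K) (hK : IsCompactCompletion i)
    (hseq : IsSeqComplete G) (hlm : IsLocallyMinimal G) (hnil : Group.IsNilpotent G)
    (hw : ¬ UlamMeasurable (weight (connectedComponent (1 : G)))) :
    i '' connectedComponent (1 : G) = connectedComponent (1 : K) := by
  have := hK.topGroup
  have := hK.t2
  have := hK.compact
  have hi := hK.embedding
  have hd := hK.dense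
  -- the base of the component
  obtain ⟨𝓑, h𝓑, h𝓑c⟩ : ∃ B : Set (Set (connectedComponent (1 : G))),
      TopologicalSpace.IsTopologicalBasis B ∧
      Cardinal.mk B = weight (connectedComponent (1 : G)) := by
    have := csInf_mem (s := {κ : Cardinal.{u} | ∃ B : Set (Set (connectedComponent (1 : G))),
      TopologicalSpace.IsTopologicalBasis B ∧ Cardinal.mk B = κ})
      ⟨_, _, TopologicalSpace.isTopologicalBasis_opens, rfl⟩
    exact this
  rw [← h𝓑c] at hw
  have hnf := noFree_of_not_ulam hw
  let one' : connectedComponent (1 : G) := ⟨1, mem_connectedComponent⟩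
  let B : Type u := {b : 𝓑 // one' ∈ b.1}
  have hB : NoFree B := hnf.of_map Subtype.val (fun b => by
    apply Set.Subsingleton.countable
    intro x hx y hy
    exact Subtype.ext (hx.trans hy.symm))
  let T : B → Set K := fun b => i '' (Subtype.val '' b.1.1)
  have hT1 : ∀ W ∈ 𝓝 (1 : K), ∃ b, T b ⊆ W := by
    intro W hW
    have h1 : (fun x : connectedComponent (1 : G) => i x.1) ⁻¹' W ∈ 𝓝 one' := by
      apply (hi.continuous.comp continuous_subtype_val).continuousAt.preimage_mem_nhds
      change W ∈ 𝓝 (i 1)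
      rwa [map_one]
    obtain ⟨b, hb, h1b, hbW⟩ := h𝓑.mem_nhds_iff.1 h1
    refine ⟨⟨⟨b, hb⟩, h1b⟩, ?_⟩
    rintro _ ⟨_, ⟨x, hx, rfl⟩, rfl⟩
    exact hbW hx
  have hT2 : ∀ b, ∀ z : ℕ → K, (∀ n, z n ∈ connectedComponentIn (i.range : Set K) 1) →
      Tendsto z atTop (𝓝 1) → ∀ᶠ n in atTop, z n ∈ T b := by
    intro b z hz hz1
    have h1 : connectedComponentIn (i.range : Set K) 1 ⊆ i '' connectedComponent (1 : G) :=
      connectedComponentIn_subset i hi isPreconnected_connectedComponentIn
        (mem_connectedComponentIn i.range.one_mem) (_root_.connectedComponentIn_subset _ _)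
    choose g hg hgz using fun n => h1 (hz n)
    have h2 : Tendsto (fun n => (⟨g n, hg n⟩ : connectedComponent (1 : G))) atTop (𝓝 one') := by
      rw [(hi.isInducing.comp IsInducing.subtypeVal).tendsto_nhds_iff]
      have h3 : ((i ∘ Subtype.val) one' : K) = 1 := map_one i
      rw [h3]
      refine hz1.congr (fun n => (hgz n).symm)
    have h3 : (b.1.1 : Set (connectedComponent (1 : G))) ∈ 𝓝 one' :=
      (h𝓑.isOpen b.1.2).mem_nhds b.2
    filter_upwards [h2.eventually h3] with n hn
    exact ⟨g n, ⟨⟨g n, hg n⟩, hn, rfl⟩, hgz n⟩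
  have hS : ∀ x : ℕ → K, (∀ n, x n ∈ i.range) → ∀ a, Tendsto x atTop (𝓝 a) → a ∈ i.range := by
    intro x hx a ha
    choose g hg using hx
    have hcau : IsCauchySeq g := by
      intro U hU
      rw [hi.isInducing.nhds_eq_comap, mem_comap] at hU
      obtain ⟨O, hO, hOU⟩ := hU
      rw [map_one] at hO
      have hf1 : Tendsto (fun p : ℕ × ℕ => x p.1) (atTop ×ˢ atTop) (𝓝 a) := ha.comp tendsto_fst
      have hf2 : Tendsto (fun p : ℕ × ℕ => x p.2) (atTop ×ˢ atTop) (𝓝 a) := ha.comp tendsto_snd
      have h1 : Tendsto (fun p : ℕ × ℕ => (x p.1)⁻¹ * x p.2) (atTop ×ˢ atTop) (𝓝 1) := by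
        have := hf1.inv.mul hf2
        rwa [inv_mul_cancel] at this
      have h2 : Tendsto (fun p : ℕ × ℕ => x p.1 * (x p.2)⁻¹) (atTop ×ˢ atTop) (𝓝 1) := by
        have := hf1.mul hf2.inv
        rwa [mul_inv_cancel] at this
      have h3 := (h1.eventually hO).and (h2.eventually hO)
      rw [prod_atTop_atTop_eq, eventually_atTop_prod_self] at h3
      obtain ⟨N, hN⟩ := h3
      refine ⟨N, fun m hm n hn => ?_⟩
      obtain ⟨h4, h5⟩ := hN m n hm hn
      constructor
      · apply hOU
        rw [mem_preimage, map_mul, map_inv, hg, hg]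
        exact h4
      · apply hOU
        rw [mem_preimage, map_mul, map_inv, hg, hg]
        exact h5
    obtain ⟨g0, hg0⟩ := hseq g hcau
    refine ⟨g0, ?_⟩
    have h1 : Tendsto (fun n => i (g n)) atTop (𝓝 (i g0)) := (hi.continuous.tendsto _).comp hg0
    simp_rw [hg] at h1
    exact tendsto_nhds_unique h1 ha
  have hKn : Group.IsNilpotent K := isNilpotent_of_dense i hd hnil
  let C0 := Subgroup.connectedComponentOfOne K
  have hC0 : C0 ≤ Subgroup.center K := component_le_center hKn
  have hmc : IsMulCommutative C0 := ⟨⟨fun a b => Subtype.ext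
    ((Subgroup.mem_center_iff.1 (hC0 a.2)) b).symm⟩⟩
  have hC0c : IsClosed (C0 : Set K) := isClosed_connectedComponent
  have : CompactSpace C0 := isCompact_iff_compactSpace.1 hC0c.isCompact
  have : ConnectedSpace C0 := isConnected_iff_connectedSpace.1 isConnected_connectedComponent
  have hrange : range C0.subtype = connectedComponent (1 : K) := by
    rw [Subgroup.coe_subtype, Subtype.range_val]
    rfl
  have hmain := main_abs (C := C0) (K := K) C0.subtype continuous_subtype_val
    C0.subtype_injective (fun c x => (((Subgroup.mem_center_iff.1 (hC0 c.2)) x)).symm)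
    (by
      intro U hU hUC
      rw [hrange] at hUC ⊢
      exact exists_subgroup_between U hU hUC)
    i.range hd hS (locally_essential i hi hd hlm) hB T hT1 hT2
  apply Subset.antisymm
  · have h1 : IsPreconnected (i '' connectedComponent (1 : G)) :=
      isPreconnected_connectedComponent.image _ hi.continuous.continuousOn
    exact h1.subset_connectedComponent ⟨1, mem_connectedComponent, map_one i⟩
  · apply connectedComponentIn_subset i hi isPreconnected_connectedComponent
      mem_connectedComponent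
    intro x hx
    exact hmain ⟨x, hx⟩

end Pool.Agent.Helper80.LocMin
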