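import Pool.Agent.Helper80.FinalStep

set_option autoImplicit false
set_option linter.unusedSectionVars false

/-!
# Main argument for a central compact connected subgroup
-/

open Topology Filter Set

namespace Pool.Agent.Helper80

noncomputable section

lemma NoFree.of_map {α β : Type*} (hβ : NoFree β) (f : α → β)
    (hf : ∀ b, (f ⁻¹' {b}).Countable) : NoFree α := by
  intro F hF
  obtain ⟨b, hb⟩ := hβ (F.map f) (by
    intro s hs
    rw [Ultrafilter.mem_map, preimage_iInter]
    exact hF _ (fun n => Ultrafilter.mem_map.1 (hs n)))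
  have hb' : f ⁻¹' {b} ∈ F := Ultrafilter.mem_map.1 hb
  by_contra hcon
  push Not at hcon
  have hA := hf b
  set A := f ⁻¹' {b}
  have hne : A.Nonempty := by
    by_contra h
    rw [not_nonempty_iff_eq_empty] at h
    rw [h] at hb'
    exact Ultrafilter.empty_notMem hb'
  obtain ⟨g, hg⟩ := hA.exists_eq_range hne
  have h1 := hF (fun n => {g n}ᶜ) (fun n => Ultrafilter.compl_mem_iff_notMem.2 (hcon (g n)))
  have h2 := F.toFilter.inter_mem hb' h1
  have h3 : A ∩ ⋂ n, {g n}ᶜ = ∅ := by
    rw [eq_empty_iff_forall_notMem]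
    rintro x ⟨hx, hx'⟩
    rw [hg] at hx
    obtain ⟨n, rfl⟩ := hx
    rw [mem_iInter] at hx'
    exact hx' n rfl
  rw [h3] at h2
  exact Ultrafilter.empty_notMem h2

section TorsionFree

variable {C : Type*} [CommGroup C] [TopologicalSpace C] [IsTopologicalGroup C]

lemma char_torsion_free [ConnectedSpace C] (χ : C →ₜ* Circle) (n : ℕ) (hn : n ≠ 0)
    (h : ∀ c, χ c ^ n = 1) (c : C) : χ c = 1 := by
  have hfin : {z : Circle | z ^ n = 1 ∧ z ≠ 1}.Finite := by
    have h1 : {z : ℂ | z ^ n = 1}.Finite := by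
      apply ((Polynomial.nthRoots n (1 : ℂ)).toFinset.finite_toSet).subset
      intro z hz
      simp only [Finset.mem_coe, Multiset.mem_toFinset]
      rw [Polynomial.mem_nthRoots (Nat.pos_of_ne_zero hn)]
      exact hz
    apply Set.Finite.of_finite_image (f := fun z : Circle => (z : ℂ))
    · apply h1.subset
      rintro _ ⟨z, ⟨hz, _⟩, rfl⟩
      rw [mem_ofPred_eq, ← Circle.coe_pow, hz, Circle.coe_one]
    · exact fun a _ b _ hab => Circle.ext hab
  have hopen : IsOpen {c : C | χ c = 1} := by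
    have : {c : C | χ c = 1} = χ ⁻¹' {z : Circle | z ^ n = 1 ∧ z ≠ 1}ᶜ := by
      ext c
      simp only [mem_ofPred_eq, mem_preimage, mem_compl_iff, not_and, not_not]
      exact ⟨fun h1 _ => h1, fun h1 => h1 (h c)⟩
    rw [this]
    exact hfin.isClosed.isOpen_compl.preimage (map_continuous χ)
  have hclosed : IsClosed {c : C | χ c = 1} := isClosed_eq (map_continuous χ) continuous_const
  have huniv := IsClopen.eq_univ ⟨hclosed, hopen⟩ ⟨1, map_one χ⟩
  have : c ∈ {c : C | χ c = 1} := by rw [huniv]; trivial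
  exact this

instance [ConnectedSpace C] : IsAddTorsionFree (Ch C) where
  nsmul_right_injective := by
    intro n hn a b hab
    have h1 : n • (a - b) = 0 := by rw [smul_sub, sub_eq_zero]; exact hab
    have h2 : a - b = 0 := by
      have h3 : ∀ c, ((a - b).toMul) c ^ n = 1 := by
        intro c
        have h4 : ((n • (a - b)).toMul) c = 1 := by rw [h1]; rfl
        rw [toMul_nsmul, ContinuousMonoidHom.pow_apply] at h4
        exact h4
      have h5 := char_torsion_free _ n hn h3
      have h6 : (a - b).toMul = 1 := ContinuousMonoidHom.ext h5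
      exact h6
    exact sub_eq_zero.1 h2

end TorsionFree

lemma zact_congr {z w : 𝕋} (h : z = w) (hz : IsTwo z) (hw : IsTwo w) (a : ℤ_[2]) :
    zact z hz a = zact w hw a := by
  subst h; rfl

/-- The action of 2-adic integers. -/
def psi {ι : Type*} (t : P ι) (ht : Tw t) (a : ℤ_[2]) : P ι := fun i =>
  { toFun := fun q => zact (t i q) (ht i q) a
    map_zero' := by
      rw [zact_congr (map_zero (t i)) _ isTwo_zero, zact_zero]
    map_add' := by
      intro x y
      rw [zact_congr (map_add (t i) x y) _ (isTwo_add (ht i x) (ht i y)), zact_add] }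

lemma psi_apply {ι : Type*} (t : P ι) (ht : Tw t) (a : ℤ_[2]) (i : ι) (q : ℚ) :
    psi t ht a i q = zact (t i q) (ht i q) a := rfl

lemma psi_add {ι : Type*} (t : P ι) (ht : Tw t) (a b : ℤ_[2]) :
    psi t ht (a + b) = psi t ht a + psi t ht b := by
  funext i
  ext q
  rw [psi_apply, map_add]
  rfl

lemma psi_zero {ι : Type*} (t : P ι) (ht : Tw t) : psi t ht 0 = 0 := by
  funext i
  ext q
  rw [psi_apply, map_zero]
  rfl

lemma psi_neg {ι : Type*} (t : P ι) (ht : Tw t) (a : ℤ_[2]) :
    psi t ht (-a) = - psi t ht a := by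
  funext i
  ext q
  rw [psi_apply, map_neg]
  rfl

lemma psi_one {ι : Type*} (t : P ι) (ht : Tw t) : psi t ht 1 = t := by
  funext i
  ext q
  rw [psi_apply, zact_one]

lemma psi_int_mul {ι : Type*} (t : P ι) (ht : Tw t) (n : ℤ) (a : ℤ_[2]) :
    psi t ht (n * a) = n • psi t ht a := by
  funext i
  ext q
  have : (n : ℤ_[2]) * a = n • a := by rw [zsmul_eq_mul]
  rw [psi_apply, this, map_zsmul]
  rfl

lemma psi_tendsto {ι : Type*} (t : P ι) (ht : Tw t) (a : ℤ_[2]) (i : ι) (q : ℚ) :
    Tendsto (fun b => psi t ht b i q) (𝓝 a) (𝓝 (psi t ht a i q)) :=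
  (continuous_zact _ (ht i q)).tendsto a

section Main

variable {C : Type*} [CommGroup C] [TopologicalSpace C] [IsTopologicalGroup C] [CompactSpace C]
  [T2Space C]
variable {K : Type*} [Group K] [TopologicalSpace K] [IsTopologicalGroup K] [CompactSpace K]
  [T2Space K]
variable {ι : Type*} (π : Ch C →+ (ι →₀ ℚ)) (j : C →* K) (S : Subgroup K)

/-- The subgroup of `Hom(ℚ,𝕋)^ι` of elements mapped into `S`. -/
def DD : AddSubgroup (P ι) where
  carrier := {t | j (Phi π t) ∈ S}
  zero_mem' := by
    rw [mem_ofPred_eq, Phi_zero, map_one]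
    exact S.one_mem
  add_mem' := by
    intro a b ha hb
    rw [mem_ofPred_eq, Phi_add, map_mul]
    exact S.mul_mem ha hb
  neg_mem' := by
    intro a ha
    rw [mem_ofPred_eq, Phi_neg, map_inv]
    exact S.inv_mem ha

lemma mem_DD (t : P ι) : t ∈ DD π j S ↔ j (Phi π t) ∈ S := Iff.rfl

lemma seqCl_DD (hj : Continuous j)
    (hseq : ∀ x : ℕ → K, (∀ n, x n ∈ S) → ∀ a, Tendsto x atTop (𝓝 a) → a ∈ S) :
    SeqCl (DD π j S) := by
  intro f g hf hfg
  exact hseq (fun n => j (Phi π (f n))) hf _ ((hj.tendsto _).comp (Phi_tendsto π f g hfg))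

lemma le2_DD (hj : Continuous j) (hcen : ∀ c x, j c * x = x * j c)
    (hseq : ∀ x : ℕ → K, (∀ n, x n ∈ S) → ∀ a, Tendsto x atTop (𝓝 a) → a ∈ S)
    (hLE : ∃ W ∈ 𝓝 (1 : K), ∀ N : Subgroup K, N.Normal → IsClosed (N : Set K) →
      (N : Set K) ⊆ W → N ≠ ⊥ → ∃ x ∈ N, x ∈ S ∧ x ≠ 1) :
    LE2 (DD π j S) := by
  classical
  obtain ⟨W, hW, hLE⟩ := hLE
  have hW' : j ⁻¹' W ∈ 𝓝 (1 : C) := by
    apply hj.continuousAt.preimage_mem_nhds
    rwa [map_one]
  obtain ⟨u, hu⟩ := exists_finset_char hW'
  refine ⟨u.biUnion (fun χ => (π χ).support), fun t ht h0 => ?_⟩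
  have hcont : Continuous (fun a => j (Phi π (psi t ht a))) := by
    apply hj.comp
    rw [continuous_iff_continuousAt]
    intro a
    exact Phi_tendsto π (fun a => psi t ht a) _ (fun i q => psi_tendsto t ht a i q)
  let N : Subgroup K :=
    { carrier := range (fun a => j (Phi π (psi t ht a)))
      one_mem' := ⟨0, by simp only [psi_zero, Phi_zero, map_one]⟩
      mul_mem' := by
        rintro _ _ ⟨a, rfl⟩ ⟨b, rfl⟩
        exact ⟨a + b, by simp only [psi_add, Phi_add, map_mul]⟩
      inv_mem' := by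
        rintro _ ⟨a, rfl⟩
        exact ⟨-a, by simp only [psi_neg, Phi_neg, map_inv]⟩ }
  have hNnormal : N.Normal := by
    constructor
    rintro _ ⟨a, rfl⟩ g
    refine ⟨a, ?_⟩
    simp only
    rw [← hcen, mul_inv_cancel_right]
  have hNcl : IsClosed (N : Set K) := (isCompact_range hcont).isClosed
  have hNW : (N : Set K) ⊆ W := by
    rintro _ ⟨a, rfl⟩
    apply hu
    intro χ hχ
    rw [Phi_spec, pr_apply]
    have : (π χ).sum (fun i q => psi t ht a i q) = 0 := by
      apply Finset.sum_eq_zero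
      intro i hi
      have h1 : t i = 0 := h0 i (Finset.mem_biUnion.2 ⟨χ, hχ, hi⟩)
      have h2 : t i (π χ i) = 0 := by rw [h1]; rfl
      change psi t ht a i (π χ i) = 0
      rw [psi_apply, zact_congr h2 _ isTwo_zero, zact_zero]
    rw [this, e_zero]
  by_cases hN : N = ⊥
  · refine ⟨0, ?_⟩
    rw [mem_DD, pow_zero, one_smul]
    have h1 : j (Phi π (psi t ht 1)) ∈ N := ⟨1, rfl⟩
    rw [hN, Subgroup.mem_bot, psi_one] at h1
    rw [h1]
    exact S.one_mem
  · obtain ⟨_, ⟨a, rfl⟩, hxS, hx1⟩ := hLE N hNnormal hNcl hNW hN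
    simp only at hxS hx1
    have ha0 : a ≠ 0 := by
      rintro rfl
      apply hx1
      rw [psi_zero, Phi_zero, map_one]
    refine ⟨a.valuation, ?_⟩
    -- approximate the inverse of the unit part by integers
    set v := PadicInt.unitCoeff ha0 with hv
    have hspec := PadicInt.unitCoeff_spec ha0
    have hdense := PadicInt.denseRange_intCast (p := 2) ((v⁻¹ : ℤ_[2]ˣ) : ℤ_[2])
    obtain ⟨x, hx, hxlim⟩ := mem_closure_iff_seq_limit.1 hdense
    choose m hm using hx
    apply seqCl_DD π j S hj hseq (fun n => psi t ht (m n * a))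
    · intro n
      rw [psi_int_mul]
      exact (DD π j S).zsmul_mem hxS (m n)
    · intro i q
      have h1 : Tendsto (fun n => (m n : ℤ_[2]) * a) atTop (𝓝 ((2 ^ a.valuation : ℕ) : ℤ_[2])) := by
        have h2 : Tendsto (fun n => (m n : ℤ_[2]) * a) atTop
            (𝓝 (((v⁻¹ : ℤ_[2]ˣ) : ℤ_[2]) * a)) :=
          (hxlim.mul_const a).congr (fun n => by rw [hm])
        have h3 : ((v⁻¹ : ℤ_[2]ˣ) : ℤ_[2]) * a = ((2 ^ a.valuation : ℕ) : ℤ_[2]) := by
          conv_lhs => rw [hspec]
          rw [← hv, ← mul_assoc, Units.inv_mul, one_mul]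
          push_cast
          rfl
        rwa [h3] at h2
      have h4 := (psi_tendsto t ht ((2 ^ a.valuation : ℕ) : ℤ_[2]) i q).comp h1
      have h5 : psi t ht ((2 ^ a.valuation : ℕ) : ℤ_[2]) = (2 ^ a.valuation : ℕ) • t := by
        have := psi_int_mul t ht ((2 ^ a.valuation : ℕ) : ℤ) 1
        rw [mul_one, psi_one, natCast_zsmul] at this
        exact_mod_cast this
      rw [h5] at h4
      exact h4

/-- line -/
def line (i : ι) (ρ : ℝ) : P ι := by
  classical
  exact Pi.single i
    { toFun := fun q => ((ρ * (q : ℝ) : ℝ) : 𝕋)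
      map_zero' := by simp
      map_add' := by
        intro x y
        rw [← AddCircle.coe_add]
        congr 1
        push_cast
        ring }

lemma line_same (i : ι) (ρ : ℝ) (q : ℚ) : line i ρ i q = ((ρ * (q : ℝ) : ℝ) : 𝕋) := by
  simp [line]

lemma line_ne {i i' : ι} (h : i' ≠ i) (ρ : ℝ) : line i ρ i' = 0 := by
  simp [line, h]

lemma half_ne_zero : ((1 / 2 : ℝ) : 𝕋) ≠ 0 := by
  intro h
  rw [AddCircle.coe_eq_zero_iff] at h
  obtain ⟨n, hn⟩ := h
  simp only [zsmul_eq_mul, mul_one] at hn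
  have h2 : (2 * n : ℝ) = 1 := by linarith
  have h3 : (2 * n : ℤ) = 1 := by exact_mod_cast h2
  omega

/-- **Main theorem, central version.** -/
theorem main_abs {C : Type*} [CommGroup C] [TopologicalSpace C] [IsTopologicalGroup C]
    [CompactSpace C] [T2Space C] [ConnectedSpace C]
    {K : Type*} [Group K] [TopologicalSpace K] [IsTopologicalGroup K] [CompactSpace K]
    [T2Space K] (j : C →* K) (hj : Continuous j)
    (hinj : Function.Injective j) (hcen : ∀ c x, j c * x = x * j c)
    (hopen : ∀ U : Set K, IsOpen U → range j ⊆ U →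
      ∃ H : Subgroup K, H.index ≠ 0 ∧ range j ⊆ H ∧ (H : Set K) ⊆ U)
    (S : Subgroup K) (hdense : Dense (S : Set K))
    (hseq : ∀ x : ℕ → K, (∀ n, x n ∈ S) → ∀ a, Tendsto x atTop (𝓝 a) → a ∈ S)
    (hLE : ∃ W ∈ 𝓝 (1 : K), ∀ N : Subgroup K, N.Normal → IsClosed (N : Set K) →
      (N : Set K) ⊆ W → N ≠ ⊥ → ∃ x ∈ N, x ∈ S ∧ x ≠ 1)
    {B : Type*} (hB : NoFree B) (T : B → Set K)
    (hT1 : ∀ W ∈ 𝓝 (1 : K), ∃ b, T b ⊆ W)
    (hT2 : ∀ b, ∀ z : ℕ → K, (∀ n, z n ∈ connectedComponentIn (S : Set K) 1) →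
      Tendsto z atTop (𝓝 1) → ∀ᶠ n in atTop, z n ∈ T b)
    (c : C) : j c ∈ S := by
  classical
  obtain ⟨ι, π, hπ, hπ2⟩ := exists_emb (Ch C)
  have hSeq := seqCl_DD π j S hj hseq
  have hLE2 := le2_DD π j S hj hcen hseq hLE
  have hbad := finite_bad hSeq hLE2
  have hemb : IsClosedEmbedding j := hj.isClosedEmbedding hinj
  choose x m hm0 hxm using hπ2
  -- the test points
  let z : ι → C := fun i => Phi π (line i (1 / (2 * m i)))
  have hzx : ∀ i, (x i).toMul (z i) = e ((1 / 2 : ℝ) : 𝕋) := by
    intro i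
    simp only [z]
    have h5 : (Finsupp.single i (m i : ℚ)).sum (fun i' q => line i (1 / (2 * m i)) i' q) =
        line i (1 / (2 * m i)) i (m i : ℚ) := Finsupp.sum_single_index (map_zero _)
    rw [Phi_spec, pr_apply, hxm, h5, line_same]
    congr 2
    have : (m i : ℝ) ≠ 0 := by exact_mod_cast hm0 i
    push_cast
    field_simp
  have hzcc : ∀ i, Good (DD π j S) {i} → j (z i) ∈ connectedComponentIn (S : Set K) 1 := by
    intro i hi
    have hc : Continuous (fun ρ : ℝ => j (Phi π (line i ρ))) := by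
      apply hj.comp
      rw [continuous_iff_continuousAt]
      intro ρ
      apply Phi_tendsto π (fun ρ => line i ρ)
      intro i' q
      by_cases h : i' = i
      · subst h
        simp_rw [line_same]
        have : Continuous (fun ρ : ℝ => ((ρ * (q : ℝ) : ℝ) : 𝕋)) :=
          (AddCircle.continuous_mk' 1).comp (continuous_id.mul continuous_const)
        exact this.tendsto ρ
      · simp_rw [line_ne h]
        exact tendsto_const_nhds
    have hsub : range (fun ρ : ℝ => j (Phi π (line i ρ))) ⊆ (S : Set K) := by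
      rintro _ ⟨ρ, rfl⟩
      have := hi.all hSeq (line i ρ) (fun i' hi' => line_ne hi' ρ)
      exact this
    have h1 : (1 : K) ∈ range (fun ρ : ℝ => j (Phi π (line i ρ))) := by
      refine ⟨0, ?_⟩
      have : line i (0 : ℝ) = 0 := by
        funext i'
        by_cases h : i' = i
        · subst h
          ext q
          rw [line_same, zero_mul]
          rfl
        · rw [line_ne h]; rfl
      simp only [this, Phi_zero, map_one]
    exact (isPreconnected_range hc).subset_connectedComponentIn h1 hsub ⟨_, rfl⟩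
  -- neighbourhoods
  have hW : ∀ i, ∃ W ∈ 𝓝 (1 : K), ∀ c, j c ∈ W → (x i).toMul c ≠ e ((1 / 2 : ℝ) : 𝕋) := by
    intro i
    have h1 : {c : C | (x i).toMul c ≠ e ((1 / 2 : ℝ) : 𝕋)} ∈ 𝓝 (1 : C) := by
      apply (isOpen_ne_fun (map_continuous (x i).toMul) continuous_const).mem_nhds
      rw [mem_ofPred_eq, map_one, ← e_zero]
      exact fun h => half_ne_zero (e_inj h).symm
    rw [hemb.isInducing.nhds_eq_comap, mem_comap] at h1
    obtain ⟨W, hW, hW'⟩ := h1
    rw [map_one] at hW
    exact ⟨W, hW, fun c hc => hW' hc⟩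
  choose W hW1 hW2 using hW
  choose β hβ using fun i => hT1 (W i) (hW1 i)
  have hι : NoFree ι := by
    apply hB.of_map β
    intro b
    apply Set.Finite.countable
    have : β ⁻¹' {b} ⊆ {i | ¬ Good (DD π j S) {i}} ∪ {i | Good (DD π j S) {i} ∧ β i = b} := by
      intro i hi
      by_cases h : Good (DD π j S) {i}
      · right; exact ⟨h, hi⟩
      · left; exact h
    refine (hbad.union ?_).subset this
    by_contra hinf
    have hinf : {i | Good (DD π j S) {i} ∧ β i = b}.Infinite := hinf
    let f := hinf.natEmbedding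
    have hz1 : Tendsto (fun n => j (z (f n))) atTop (𝓝 1) := by
      have h1 : Tendsto (fun n => Phi π (line (f n : ι) (1 / (2 * m (f n))))) atTop
          (𝓝 (Phi π (0 : P ι))) := by
        apply Phi_tendsto π (fun n => line (f n : ι) (1 / (2 * m (f n))))
        intro i q
        apply tendsto_const_nhds.congr'
        have : ∀ᶠ n in atTop, i ≠ (f n : ι) := by
          by_cases h : ∃ n, i = (f n : ι)
          · obtain ⟨n, hn⟩ := h
            filter_upwards [eventually_gt_atTop n] with k hk hik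
            have : f n = f k := Subtype.ext (hn.symm.trans hik)
            exact hk.ne (f.injective this)
          · push Not at h
            exact Eventually.of_forall h
        filter_upwards [this] with n hn
        rw [line_ne hn]
        rfl
      rw [Phi_zero] at h1
      have := (hj.tendsto 1).comp h1
      rwa [map_one] at this
    have h2 := hT2 b _ (fun n => hzcc _ (f n).2.1) hz1
    obtain ⟨n, hn⟩ := h2.exists
    have h3 : j (z (f n)) ∈ W (f n) := by
      apply hβ (f n)
      rw [(f n).2.2]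
      exact hn
    exact hW2 _ _ h3 (hzx _)
  obtain ⟨F, hFfin, hF⟩ := exists_good_compl hSeq hLE2 hι
  refine final_step π hπ j hj hinj hopen S hdense hseq F hFfin.countable ?_ c
  intro t ht
  exact hF.all hSeq t (fun i hi => ht i (not_not.1 hi))

end Main

end

end Pool.Agent.Helper80
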