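import Pool.Agent.Helper80.Pairing

set_option autoImplicit false
set_option linter.unusedSectionVars false

/-!
# Lifting homomorphisms modulo null sequences
-/

open Topology Filter Set

namespace Pool.Agent.Helper80

noncomputable section

/-- null sequences in the circle -/
def Null : AddSubgroup (ℕ → 𝕋) where
  carrier := {r | Tendsto r atTop (𝓝 0)}
  zero_mem' := tendsto_const_nhds
  add_mem' := by
    intro a b ha hb
    have := Tendsto.add ha hb
    rw [add_zero] at this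
    exact this
  neg_mem' := by
    intro a ha
    have := Tendsto.neg ha
    rw [neg_zero] at this
    exact this

lemma mem_Null (r : ℕ → 𝕋) : r ∈ Null ↔ Tendsto r atTop (𝓝 0) := Iff.rfl

lemma exists_div_small (n : ℕ) (hn : n ≠ 0) (z : 𝕋) : ∃ w : 𝕋, n • w = z ∧ ‖w‖ ≤ ‖z‖ := by
  obtain ⟨x, rfl⟩ := QuotientAddGroup.mk_surjective z
  have hn1 : (1 : ℝ) ≤ n := by exact_mod_cast Nat.one_le_iff_ne_zero.2 hn
  set y : ℝ := x - round x with hy
  have hxy : ((y : ℝ) : 𝕋) = (x : 𝕋) := by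
    rw [hy, AddCircle.coe_sub]
    have : (((round x : ℤ) : ℝ) : 𝕋) = 0 := by
      rw [AddCircle.coe_eq_zero_iff]
      exact ⟨round x, by simp⟩
    rw [this, sub_zero]
  have hnorm : ‖((x : ℝ) : 𝕋)‖ = |y| := by
    rw [AddCircle.norm_eq]
    simp [hy]
  refine ⟨((y / n : ℝ) : 𝕋), ?_, ?_⟩
  · rw [← AddCircle.coe_nsmul]
    have : n • (y / n) = y := by
      rw [nsmul_eq_mul]
      field_simp
    rw [this]
    exact hxy
  · refine (QuotientAddGroup.norm_mk_le_norm (S := AddSubgroup.zmultiples (1 : ℝ))).trans ?_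
    change ‖(y / n : ℝ)‖ ≤ ‖((x : ℝ) : 𝕋)‖
    rw [hnorm, Real.norm_eq_abs, abs_div, Nat.abs_cast]
    exact div_le_self (abs_nonneg _) hn1

lemma div_Null (n : ℕ) (hn : n ≠ 0) (r : Null) : ∃ b : Null, n • b = r := by
  choose w hw1 hw2 using fun k => exists_div_small n hn ((r : ℕ → 𝕋) k)
  refine ⟨⟨w, ?_⟩, ?_⟩
  · rw [mem_Null, tendsto_zero_iff_norm_tendsto_zero]
    have := tendsto_zero_iff_norm_tendsto_zero.1 ((mem_Null _).1 r.2)
    exact squeeze_zero (fun k => norm_nonneg _) hw2 this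
  · apply Subtype.ext
    funext k
    exact hw1 k

lemma exists_retraction : ∃ ρ : (ℕ → 𝕋) →+ Null, ∀ r : Null, ρ r = r := by
  obtain ⟨k, hk⟩ := exists_ext div_Null Null.subtype Null.subtype_injective (AddMonoidHom.id Null)
  exact ⟨k, hk⟩

/-- A map which is a homomorphism modulo null sequences, and null on a set, is congruent to a
homomorphism vanishing on that set. -/
theorem exists_lift {X : Type*} [AddCommGroup X] (r : X → (ℕ → 𝕋))
    (hr : ∀ x y, r (x + y) - (r x + r y) ∈ Null) (A : Set X) (hA : ∀ x ∈ A, r x ∈ Null) :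
    ∃ r' : X →+ (ℕ → 𝕋), (∀ x, r' x - r x ∈ Null) ∧ ∀ x ∈ A, r' x = 0 := by
  obtain ⟨ρ, hρ⟩ := exists_retraction
  have key : ∀ x y, r (x + y) - ρ (r (x + y)) = (r x - ρ (r x)) + (r y - ρ (r y)) := by
    intro x y
    have h1 := hρ ⟨_, hr x y⟩
    have h2 : ((ρ (r (x + y) - (r x + r y)) : Null) : ℕ → 𝕋) = r (x + y) - (r x + r y) :=
      congrArg Subtype.val h1
    rw [map_sub, map_add] at h2
    simp only [AddSubgroup.coe_sub, AddSubgroup.coe_add] at h2
    have h3 : r (x + y) = (r x + r y) + ((ρ (r (x + y)) : ℕ → 𝕋) - (ρ (r x) + ρ (r y))) := by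
      rw [h2]; abel
    calc r (x + y) - ρ (r (x + y)) = (r x + r y) + ((ρ (r (x + y)) : ℕ → 𝕋) - (ρ (r x) + ρ (r y)))
          - ρ (r (x + y)) := by rw [← h3]
      _ = _ := by abel
  refine ⟨AddMonoidHom.mk' (fun x => r x - ρ (r x)) key, ?_, ?_⟩
  · intro x
    change (r x - (ρ (r x) : ℕ → 𝕋)) - r x ∈ Null
    have : (r x - (ρ (r x) : ℕ → 𝕋)) - r x = - (ρ (r x) : ℕ → 𝕋) := by abel
    rw [this]
    exact Null.neg_mem (ρ (r x)).2
  · intro x hx
    change r x - (ρ (r x) : ℕ → 𝕋) = 0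
    have h1 := hρ ⟨_, hA x hx⟩
    have h2 : ((ρ (r x) : Null) : ℕ → 𝕋) = r x := congrArg Subtype.val h1
    rw [h2, sub_self]

end

end Pool.Agent.Helper80
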