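import Mathlib

set_option autoImplicit false

/-!
# Characters separate points of a compact abelian group
-/

open MeasureTheory Topology Filter

set_option linter.unusedSectionVars false

namespace Pool.Agent.Helper80.PW

noncomputable section

section Abstract

variable {A : Type*} [CommGroup A] [TopologicalSpace A] [IsTopologicalGroup A]

/-- translate of a function -/
def L (f : C(A, ℂ)) : C(A, C(A, ℂ)) :=
  ContinuousMap.curry ⟨fun p : A × A => f (p.1⁻¹ * p.2), by fun_prop⟩

lemma L_apply (f : C(A, ℂ)) (b x : A) : L f b x = f (b⁻¹ * x) := rfl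

open WeakDual

variable {R : Type*} [CommCStarAlgebra R] (u : A → R) (u1 : u 1 = 1)
  (um : ∀ a b, u (a * b) = u a * u b) (us : ∀ a, star (u a) * u a = 1)
  (t : C(A, ℂ) → R) (ht : Continuous t) (ut : ∀ f a, u a * t f = t (L f a))

include us in
lemma Abs.norm_u (φ : characterSpace ℂ R) (a : A) : ‖φ (u a)‖ = 1 := by
  have h2 : star (φ (u a)) * φ (u a) = 1 := by
    rw [← map_star, ← map_mul, us, map_one]
  have h3 : ‖φ (u a)‖ * ‖φ (u a)‖ = 1 := by
    have := congrArg norm h2
    rwa [norm_mul, norm_one, norm_star] at this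
  nlinarith [norm_nonneg (φ (u a))]

/-- The character given by `φ`. -/
def Abs.chr (φ : characterSpace ℂ R) (f : C(A, ℂ)) (hf : φ (t f) ≠ 0) : A →ₜ* Circle where
  toFun a := ⟨φ (u a), by
    rw [Submonoid.unitSphere]
    exact mem_sphere_zero_iff_norm.2 (Abs.norm_u u us φ a)⟩
  map_one' := by
    apply Subtype.ext
    change φ (u 1) = 1
    rw [u1, map_one]
  map_mul' a b := by
    apply Subtype.ext
    change φ (u (a * b)) = φ (u a) * φ (u b)
    rw [um, map_mul]
  continuous_toFun := by
    apply Continuous.subtype_mk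
    have h1 : ∀ a, φ (u a) = φ (t (L f a)) / φ (t f) := by
      intro a
      rw [← ut, map_mul, mul_div_assoc, div_self hf, mul_one]
    simp_rw [h1]
    apply Continuous.div_const
    exact (map_continuous φ).comp (ht.comp (L f).continuous)

include u1 um us ht ut in
lemma Abs.mul_eq (a : A) (ha : ∀ χ : A →ₜ* Circle, χ a = 1) (f : C(A, ℂ)) :
    u a * t f = t f := by
  have h : ∀ φ : characterSpace ℂ R, φ (u a * t f - t f) = 0 := by
    intro φ
    by_cases hf : φ (t f) = 0
    · rw [map_sub, map_mul, hf, mul_zero, sub_zero]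
    · have h1 := ha (Abs.chr u u1 um us t ht ut φ f hf)
      have h2 : φ (u a) = 1 := congrArg Subtype.val h1
      rw [map_sub, map_mul, h2, one_mul, sub_self]
  have h2 : u a * t f - t f = 0 := by
    apply (gelfandTransform_isometry R).injective
    rw [map_zero]
    ext φ
    exact h φ
  exact sub_eq_zero.1 h2

end Abstract

variable {A : Type*} [CommGroup A] [TopologicalSpace A] [IsTopologicalGroup A] [CompactSpace A]
  [T2Space A] [MeasurableSpace A] [BorelSpace A]

variable (A) in
/-- `L²` of the group. -/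
abbrev HH := Lp ℂ 2 (Measure.haar : Measure A)

/-- translation operator. -/
def U (a : A) : HH A →L[ℂ] HH A :=
  LinearMap.mkContinuous
    { toFun := fun g => DomMulAct.mk a • g
      map_add' := fun g h => smul_add _ g h
      map_smul' := fun c g => smul_comm _ c g } 1
    (fun g => by simp)

lemma U_apply (a : A) (g : HH A) : U a g = DomMulAct.mk a • g := rfl

lemma norm_U_apply (a : A) (g : HH A) : ‖U a g‖ = ‖g‖ := by
  rw [U_apply, DomMulAct.norm_smul_Lp]

lemma U_mul (a b : A) : U (a * b) = U a * U b := by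
  ext1 g
  rw [mul_apply_eq_comp, U_apply, U_apply, U_apply, smul_smul, ← DomMulAct.mk_mul,
    mul_comm]

lemma U_one : U (1 : A) = 1 := by
  ext1 g
  rw [U_apply, DomMulAct.mk_one, one_smul, one_apply_eq_self]

lemma continuous_U (g : HH A) : Continuous (fun a : A => U a g) := by
  have : Fact ((2 : ENNReal) ≠ ⊤) := ⟨by norm_num⟩
  have h : Continuous (fun a : A => (DomMulAct.mk a : Aᵈᵐᵃ)) := DomMulAct.continuous_mk
  exact h.smul continuous_const

lemma U_comm (a b : A) : U a * U b = U b * U a := by
  rw [← U_mul, mul_comm, U_mul]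

lemma norm_U_le (a : A) : ‖U a‖ ≤ 1 :=
  ContinuousLinearMap.opNorm_le_bound _ zero_le_one (fun g => by rw [norm_U_apply, one_mul])

lemma star_U (a : A) : star (U a) = U a⁻¹ := by
  have h1 : star (U a) * U a = 1 := by
    rw [ContinuousLinearMap.star_eq_adjoint]
    exact (ContinuousLinearMap.norm_map_iff_adjoint_comp_self (U a)).1 (norm_U_apply a)
  have h2 : U a * U a⁻¹ = 1 := by rw [← U_mul, mul_inv_cancel, U_one]
  calc star (U a) = star (U a) * (U a * U a⁻¹) := by rw [h2, mul_one]
    _ = U a⁻¹ := by rw [← mul_assoc, h1, one_mul]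

lemma integrable_aux (f : C(A, ℂ)) (g : HH A) :
    Integrable (fun x => f x • U x g) (Measure.haar : Measure A) := by
  have hc : Continuous (fun x => f x • U x g) := f.continuous.smul (continuous_U g)
  exact hc.integrable_of_hasCompactSupport (HasCompactSupport.of_compactSpace _)

/-- convolution operator. -/
def T (f : C(A, ℂ)) : HH A →L[ℂ] HH A :=
  LinearMap.mkContinuous
    { toFun := fun g => ∫ x, f x • U x g ∂(Measure.haar : Measure A)
      map_add' := fun g h => by
        rw [← integral_add (integrable_aux f g) (integrable_aux f h)]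
        simp
      map_smul' := fun c g => by
        rw [RingHom.id_apply, ← integral_smul]
        congr 1
        ext1 x
        rw [map_smul, smul_comm] } (‖f‖ * (Measure.haar : Measure A).real Set.univ)
    (fun g => by
      have h : ∀ x : A, ‖f x • U x g‖ ≤ ‖f‖ * ‖g‖ := fun x => by
        rw [norm_smul, norm_U_apply]
        gcongr
        exact f.norm_coe_le_norm x
      refine (norm_integral_le_of_norm_le_const (Filter.Eventually.of_forall h)).trans ?_
      apply le_of_eq
      ring)

lemma T_apply (f : C(A, ℂ)) (g : HH A) :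
    T f g = ∫ x, f x • U x g ∂(Measure.haar : Measure A) := rfl

lemma norm_T_le (f : C(A, ℂ)) : ‖T f‖ ≤ ‖f‖ * (Measure.haar : Measure A).real Set.univ :=
  LinearMap.mkContinuous_norm_le _ (by positivity) _

lemma commute_T (S : HH A →L[ℂ] HH A) (hS : ∀ a, S * U a = U a * S) (f : C(A, ℂ)) :
    S * T f = T f * S := by
  ext1 g
  rw [mul_apply_eq_comp, mul_apply_eq_comp, T_apply, T_apply,
    ← ContinuousLinearMap.integral_comp_comm S (integrable_aux f g)]
  congr 1
  ext1 x
  rw [map_smul]
  congr 1
  exact DFunLike.congr_fun (hS x) g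

/-- The commutative von Neumann algebra generated by translations. -/
def B (A : Type*) [CommGroup A] [TopologicalSpace A] [IsTopologicalGroup A] [CompactSpace A]
  [T2Space A] [MeasurableSpace A] [BorelSpace A] : StarSubalgebra ℂ (HH A →L[ℂ] HH A) where
  toSubalgebra := Subalgebra.centralizer ℂ (Set.centralizer (Set.range (U : A → _)))
  star_mem' := by
    intro x hx
    refine Set.star_mem_centralizer' ?_ hx
    intro y hy
    refine Set.star_mem_centralizer' ?_ hy
    rintro _ ⟨a, rfl⟩
    exact ⟨a⁻¹, (star_U a).symm⟩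

lemma mem_B_iff (x : HH A →L[ℂ] HH A) :
    x ∈ B A ↔ x ∈ Set.centralizer (Set.centralizer (Set.range (U : A → _))) := Iff.rfl

lemma U_mem (a : A) : U a ∈ B A := by
  rw [mem_B_iff]
  exact Set.subset_centralizer_centralizer ⟨a, rfl⟩

lemma T_mem (f : C(A, ℂ)) : T f ∈ B A := by
  rw [mem_B_iff, Set.mem_centralizer_iff]
  intro S hS
  rw [Set.mem_centralizer_iff] at hS
  exact commute_T S (fun a => (hS _ ⟨a, rfl⟩).symm) f

instance : IsClosed (B A : Set (HH A →L[ℂ] HH A)) :=
  Set.isClosed_centralizer _

instance : CommCStarAlgebra (B A) :=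
  { (inferInstance : CStarAlgebra (B A)) with
    mul_comm := by
      rintro ⟨x, hx⟩ ⟨y, hy⟩
      apply Subtype.ext
      refine Set.centralizer_centralizer_comm_of_comm ?_ x hx y hy
      rintro _ ⟨a, rfl⟩ _ ⟨b, rfl⟩
      exact U_comm a b }

lemma U_mul_T (f : C(A, ℂ)) (b : A) : U b * T f = T (L f b) := by
  ext1 g
  rw [mul_apply_eq_comp, T_apply, T_apply,
    ← ContinuousLinearMap.integral_comp_comm (U b) (integrable_aux f g),
    ← integral_mul_left_eq_self (fun x => (L f b) x • U x g) b]
  congr 1
  ext1 x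
  rw [map_smul, L_apply, inv_mul_cancel_left, U_mul, mul_apply_eq_comp]

lemma T_sub (f g : C(A, ℂ)) : T f - T g = T (f - g) := by
  ext1 h
  rw [sub_apply, T_apply, T_apply, T_apply, ← integral_sub (integrable_aux f h)
    (integrable_aux g h)]
  congr 1
  ext1 x
  rw [ContinuousMap.sub_apply, sub_smul]

lemma continuous_T : Continuous (T : C(A, ℂ) → (HH A →L[ℂ] HH A)) := by
  have h : LipschitzWith (Real.toNNReal ((Measure.haar : Measure A).real Set.univ))
      (T : C(A, ℂ) → (HH A →L[ℂ] HH A)) := by
    apply LipschitzWith.of_dist_le_mul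
    intro f g
    rw [dist_eq_norm, dist_eq_norm, T_sub, Real.coe_toNNReal _ (by positivity), mul_comm]
    exact norm_T_le _
  exact h.continuous

/-- The element `T f` in `B`. -/
def TB (f : C(A, ℂ)) : B A := ⟨T f, T_mem f⟩

/-- The element `U a` in `B`. -/
def UB (a : A) : B A := ⟨U a, U_mem a⟩

lemma continuous_TB : Continuous (TB : C(A, ℂ) → B A) := continuous_T.subtype_mk _

lemma UB_mul_TB (f : C(A, ℂ)) (b : A) : UB b * TB f = TB (L f b) := by
  apply Subtype.ext
  exact U_mul_T f b

lemma U_mul_T_eq (a : A) (ha : ∀ χ : A →ₜ* Circle, χ a = 1) (f : C(A, ℂ)) : U a * T f = T f := by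
  have h := Abs.mul_eq (R := B A) UB (Subtype.ext U_one) (fun a b => Subtype.ext (U_mul a b))
    (fun a => by
      apply Subtype.ext
      change star (U a) * U a = 1
      rw [star_U, ← U_mul, inv_mul_cancel, U_one]) TB continuous_TB UB_mul_TB a ha f
  exact congrArg Subtype.val h

lemma U_eq_of_T (a : A) (ha : ∀ f : C(A, ℂ), U a * T f = T f) (g : HH A) : U a g = g := by
  by_contra hne
  have hpos : 0 < ‖U a g - g‖ := norm_pos_iff.2 (sub_ne_zero.2 hne)
  set ε := ‖U a g - g‖ / 4 with hε
  have hε0 : 0 < ε := by positivity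
  have hV : IsOpen {x : A | ‖U x g - g‖ < ε} :=
    isOpen_lt ((continuous_U g).sub continuous_const).norm continuous_const
  have h1V : (1 : A) ∈ {x : A | ‖U x g - g‖ < ε} := by
    simp [U_one, hε0]
  obtain ⟨f, hf0, hf1, hf01⟩ := exists_continuous_zero_one_of_isClosed hV.isClosed_compl
    (isClosed_singleton (x := (1 : A))) (by
      rw [Set.disjoint_singleton_right]
      exact fun h => h h1V)
  have hf1' : f 1 = 1 := hf1 rfl
  let F : C(A, ℂ) := ⟨fun x => (f x : ℂ), by fun_prop⟩
  set c := ∫ x, f x ∂(Measure.haar : Measure A) with hc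
  have hfint : Integrable f (Measure.haar : Measure A) :=
    f.continuous.integrable_of_hasCompactSupport (HasCompactSupport.of_compactSpace _)
  have hc0 : 0 < c := by
    rw [hc]
    refine (integral_pos_iff_support_of_nonneg (fun x => (hf01 x).1) hfint).2 ?_
    have ho : IsOpen (Function.support f) := f.continuous.isOpen_support
    exact ho.measure_pos _ ⟨1, by simp [hf1']⟩
  have key : ‖T F g - (c : ℂ) • g‖ ≤ c * ε := by
    have e1 : T F g - (c : ℂ) • g = ∫ x, (f x : ℂ) • (U x g - g) ∂(Measure.haar : Measure A) := by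
      rw [T_apply]
      have : (c : ℂ) • g = ∫ x, (f x : ℂ) • g ∂(Measure.haar : Measure A) := by
        rw [integral_smul_const, hc, integral_complex_ofReal]
      rw [this, ← integral_sub (integrable_aux F g)]
      · congr 1
        ext1 x
        rw [smul_sub]
        rfl
      · exact (hfint.ofReal).smul_const g
    rw [e1]
    calc ‖∫ x, (f x : ℂ) • (U x g - g) ∂(Measure.haar : Measure A)‖
        ≤ ∫ x, f x * ε ∂(Measure.haar : Measure A) := by
          apply norm_integral_le_of_norm_le (hfint.mul_const ε)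
          filter_upwards with x
          rw [norm_smul, Complex.norm_real, Real.norm_of_nonneg (hf01 x).1]
          by_cases hx : x ∈ {x : A | ‖U x g - g‖ < ε}
          · exact mul_le_mul_of_nonneg_left (le_of_lt hx) (hf01 x).1
          · have : f x = 0 := hf0 hx
            rw [this]; simp
      _ = c * ε := by rw [integral_mul_const]
  have h2 : U a (T F g) = T F g := DFunLike.congr_fun (ha F) g
  have h3 : ‖(c : ℂ) • (U a g - g)‖ ≤ 2 * (c * ε) := by
    have : (c : ℂ) • (U a g - g) = (T F g - (c : ℂ) • g) - U a (T F g - (c : ℂ) • g) := by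
      rw [map_sub, map_smul, h2, smul_sub]
      abel
    rw [this]
    calc _ ≤ ‖T F g - (c : ℂ) • g‖ + ‖U a (T F g - (c : ℂ) • g)‖ := norm_sub_le _ _
      _ ≤ c * ε + c * ε := by
        rw [norm_U_apply]
        exact add_le_add key key
      _ = 2 * (c * ε) := by ring
  rw [norm_smul, Complex.norm_real, Real.norm_of_nonneg hc0.le] at h3
  have h4 : ‖U a g - g‖ ≤ 2 * ε := by
    have : c * ‖U a g - g‖ ≤ c * (2 * ε) := by linarith
    exact le_of_mul_le_mul_left this hc0
  linarith

lemma eq_one_of_U (a : A) (ha : ∀ g : HH A, U a g = g) : a = 1 := by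
  by_contra hne
  -- open neighbourhood `V` of `1` with `a⁻¹ • V` disjoint from `V`
  obtain ⟨V, W, hV, hW, h1V, haW, hVW⟩ := t2_separation (Ne.symm hne)
  let s : Set A := V ∩ (a * ·) ⁻¹' W
  have hs : IsOpen s := hV.inter (hW.preimage (continuous_const_mul a))
  have h1s : (1 : A) ∈ s := ⟨h1V, by simpa using haW⟩
  have hsm : MeasurableSet s := hs.measurableSet
  have hdisj : Disjoint s ((a • ·) ⁻¹' s) := by
    rw [Set.disjoint_left]
    rintro x ⟨hx1, hx2⟩ ⟨hx3, hx4⟩
    exact Set.disjoint_left.1 hVW hx3 hx2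
  have h := ha (indicatorConstLp 2 hsm (measure_ne_top (Measure.haar : Measure A) s) (1 : ℂ))
  rw [U_apply, DomMulAct.mk_smul_indicatorConstLp] at h
  have h2 := (indicatorConstLp_inj _ _ hsm _ one_ne_zero).1 h
  have h3 : (Measure.haar : Measure A) s = 0 := by
    have h4 : (Measure.haar : Measure A) (s \ ((a • ·) ⁻¹' s)) = 0 := by
      have := h2.symm
      exact (ae_eq_set.1 this).1
    rwa [hdisj.sdiff_eq_left] at h4
  exact (hs.measure_pos _ ⟨1, h1s⟩).ne' h3

end

end Pool.Agent.Helper80.PW

namespace Pool.Agent.Helper80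

open PW in
/-- **Peter–Weyl for compact abelian groups**: continuous characters separate points. -/
theorem exists_character_ne_one {A : Type*} [CommGroup A] [TopologicalSpace A]
    [IsTopologicalGroup A] [CompactSpace A] [T2Space A] (a : A) (ha : a ≠ 1) :
    ∃ χ : A →ₜ* Circle, χ a ≠ 1 := by
  borelize A
  by_contra h
  push Not at h
  exact ha (eq_one_of_U a (U_eq_of_T a (U_mul_T_eq a h)))

end Pool.Agent.Helper80
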