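import Pool.Agent.Helper80.CharExt
import Pool.Agent.Helper80.CoreP

set_option autoImplicit false
set_option linter.unusedSectionVars false

/-!
# Compact connected abelian groups as quotients of powers of `Hom(ℚ, 𝕋)`
-/

open Topology Filter Set

namespace Pool.Agent.Helper80

noncomputable section

/-- circle exponential as a hom -/
def e : 𝕋 → Circle := AddCircle.toCircle

lemma e_add (x y : 𝕋) : e (x + y) = e x * e y := AddCircle.toCircle_add x y
lemma e_zero : e 0 = 1 := AddCircle.toCircle_zero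
lemma e_neg (x : 𝕋) : e (-x) = (e x)⁻¹ := AddCircle.toCircle_neg x
lemma e_sub (x y : 𝕋) : e (x - y) = e x / e y := by
  rw [sub_eq_add_neg, e_add, e_neg, div_eq_mul_inv]
lemma continuous_e : Continuous e := AddCircle.continuous_toCircle
lemma e_inj : Function.Injective e := AddCircle.injective_toCircle one_ne_zero

/-- inverse -/
def l : Circle → 𝕋 := (AddCircle.homeomorphCircle (one_ne_zero)).symm

lemma continuous_l : Continuous l := (AddCircle.homeomorphCircle (one_ne_zero)).symm.continuous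
lemma e_l (z : Circle) : e (l z) = z := by
  have := (AddCircle.homeomorphCircle (T := 1) (one_ne_zero)).apply_symm_apply z
  rwa [AddCircle.homeomorphCircle_apply] at this
lemma l_e (z : 𝕋) : l (e z) = z := e_inj (e_l _)
lemma l_mul (z w : Circle) : l (z * w) = l z + l w := e_inj (by rw [e_add, e_l, e_l, e_l])
lemma l_one : l 1 = 0 := e_inj (by rw [e_l, e_zero])
lemma l_inv (z : Circle) : l z⁻¹ = - l z := e_inj (by rw [e_neg, e_l, e_l])

/-- Torsion-free abelian groups embed in `ℚ`-vector spaces. -/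
theorem exists_emb (X : Type*) [AddCommGroup X] [IsAddTorsionFree X] :
    ∃ (ι : Set (DivisibleHull X)) (π : X →+ (ι →₀ ℚ)), Function.Injective π ∧
      ∀ i, ∃ x : X, ∃ m : ℕ, m ≠ 0 ∧ π x = Finsupp.single i (m : ℚ) := by
  let b := Module.Basis.ofVectorSpace ℚ (DivisibleHull X)
  refine ⟨Module.Basis.ofVectorSpaceIndex ℚ (DivisibleHull X),
    b.repr.toAddEquiv.toAddMonoidHom.comp (DivisibleHull.coeAddMonoidHom X), ?_, ?_⟩
  · exact b.repr.toAddEquiv.injective.comp DivisibleHull.coe_injective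
  · intro i
    obtain ⟨x, s, hxs⟩ : ∃ x : X, ∃ s : ℕ+, b i = DivisibleHull.mk x s := by
      induction (b i) with
      | mk x s => exact ⟨x, s, rfl⟩
    refine ⟨x, s.val, s.pos.ne', ?_⟩
    have h1 : ((x : X) : DivisibleHull X) = (s.val : ℕ) • b i := by
      rw [hxs, DivisibleHull.nsmul_mk, DivisibleHull.mk_eq_mk]
      exact ⟨1, by simp⟩
    change b.repr ((x : X) : DivisibleHull X) = _
    rw [h1, map_nsmul, Module.Basis.repr_self, Finsupp.smul_single, nsmul_eq_mul, mul_one]

variable {C : Type*} [CommGroup C] [TopologicalSpace C] [IsTopologicalGroup C] [CompactSpace C]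
  [T2Space C]

/-- the (additive) group of characters. -/
abbrev Ch (C : Type*) [CommGroup C] [TopologicalSpace C] [IsTopologicalGroup C] :=
  Additive (C →ₜ* Circle)

/-- the point of `C` defined by a homomorphism on characters. -/
lemma exists_pt (s : Ch C →+ 𝕋) : ∃ c : C, ∀ χ : Ch C, χ.toMul c = e (s χ) := by
  let s' : (C →ₜ* Circle) →* Circle :=
    { toFun := fun χ => e (s (Additive.ofMul χ))
      map_one' := by rw [ofMul_one, map_zero, e_zero]
      map_mul' := fun a b => by rw [ofMul_mul, map_add, e_add] }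
  obtain ⟨c, hc⟩ := exists_eval_eq s'
  exact ⟨c, fun χ => hc χ.toMul⟩

/-- the point defined by a homomorphism -/
def pt (s : Ch C →+ 𝕋) : C := Classical.choose (exists_pt s)

lemma pt_spec (s : Ch C →+ 𝕋) (χ : Ch C) : χ.toMul (pt s) = e (s χ) :=
  Classical.choose_spec (exists_pt s) χ

lemma ext_char {c d : C} (h : ∀ χ : C →ₜ* Circle, χ c = χ d) : c = d := by
  by_contra hne
  obtain ⟨χ, hχ⟩ := exists_character_ne_one (c * d⁻¹) (fun h => hne (mul_inv_eq_one.1 h))
  apply hχ
  rw [map_mul, map_inv, h χ, mul_inv_cancel]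

lemma ext_ch {c d : C} (h : ∀ χ : Ch C, χ.toMul c = χ.toMul d) : c = d :=
  ext_char (fun χ => h (Additive.ofMul χ))

/-- the homomorphism on characters defined by a point -/
def hm (c : C) : Ch C →+ 𝕋 where
  toFun χ := l (χ.toMul c)
  map_zero' := by
    rw [toMul_zero]
    exact l_one
  map_add' a b := by
    rw [toMul_add, ContinuousMonoidHom.mul_apply, l_mul]

lemma e_hm (c : C) (χ : Ch C) : e (hm c χ) = χ.toMul c := e_l _

lemma pt_hm (c : C) : pt (hm c) = c := ext_ch (fun χ => by rw [pt_spec, e_hm])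

lemma pt_add (s t : Ch C →+ 𝕋) : pt (s + t) = pt s * pt t :=
  ext_ch (fun χ => by rw [map_mul, pt_spec, pt_spec, pt_spec, AddMonoidHom.add_apply, e_add])

lemma mcp_eq {Y α : Type*} [TopologicalSpace Y] [T2Space Y] {F : Filter α} {u : α → Y} {x y : Y}
    (h1 : MapClusterPt x F u) (h2 : Tendsto u F (𝓝 y)) : x = y := by
  have : NeBot (𝓝 x ⊓ 𝓝 y) := NeBot.mono h1 (inf_le_inf_left _ h2)
  exact eq_of_nhds_neBot this

/-- convergence in `C` is tested by characters. -/
lemma tendsto_of_char {α : Type*} {F : Filter α} {f : α → C} {c : C}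
    (h : ∀ χ : Ch C, Tendsto (fun a => χ.toMul (f a)) F (𝓝 (χ.toMul c))) :
    Tendsto f F (𝓝 c) := by
  apply tendsto_nhds_of_unique_mapClusterPt
  intro d hd
  apply ext_ch
  intro χ
  have h1 : MapClusterPt (χ.toMul d) F (χ.toMul ∘ f) :=
    hd.continuousAt_comp (map_continuous χ.toMul).continuousAt
  have h2 : Tendsto (χ.toMul ∘ f) F (𝓝 (χ.toMul c)) := h χ
  exact mcp_eq h1 h2

/-- finitely many characters determine small subgroups -/
lemma exists_finset_char {W : Set C} (hW : W ∈ 𝓝 (1 : C)) :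
    ∃ u : Finset (Ch C), ∀ c : C, (∀ χ ∈ u, χ.toMul c = 1) → c ∈ W := by
  have hcomp : IsCompact (interior W)ᶜ := isOpen_interior.isClosed_compl.isCompact
  obtain ⟨u, hu⟩ := hcomp.elim_finite_subfamily_closed (fun χ : Ch C => {c : C | χ.toMul c = 1})
    (fun χ => isClosed_eq (map_continuous χ.toMul) continuous_const) (by
      rw [eq_empty_iff_forall_notMem]
      rintro c ⟨hc1, hc2⟩
      simp only [mem_iInter, mem_ofPred_eq] at hc2
      have : c = 1 := ext_ch (fun χ => by rw [hc2 χ, map_one])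
      rw [this] at hc1
      exact hc1 (mem_interior_iff_mem_nhds.2 hW))
  refine ⟨u, fun c hc => ?_⟩
  by_contra hcW
  have : c ∈ (interior W)ᶜ ∩ ⋂ χ ∈ u, {c : C | χ.toMul c = 1} := by
    refine ⟨fun h => hcW (interior_subset h), ?_⟩
    simp only [mem_iInter, mem_ofPred_eq]
    exact hc
  rw [hu] at this
  exact this

section Phi

variable {ι : Type*} (π : Ch C →+ (ι →₀ ℚ))

/-- the pairing -/
def pr (t : P ι) : Ch C →+ 𝕋 := (Finsupp.liftAddHom t).comp π

lemma pr_apply (t : P ι) (χ : Ch C) : pr π t χ = (π χ).sum (fun i q => t i q) := by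
  simp [pr, Finsupp.liftAddHom_apply]

lemma pr_add (t t' : P ι) : pr π (t + t') = pr π t + pr π t' := by
  refine AddMonoidHom.ext fun χ => ?_
  rw [AddMonoidHom.add_apply, pr_apply, pr_apply, pr_apply, ← Finsupp.sum_add]
  rfl

/-- the homomorphism `Hom(ℚ,𝕋)^ι → C`. -/
def Phi (t : P ι) : C := pt (pr π t)

lemma Phi_spec (t : P ι) (χ : Ch C) : χ.toMul (Phi π t) = e (pr π t χ) := pt_spec _ _

lemma Phi_add (t t' : P ι) : Phi π (t + t') = Phi π t * Phi π t' := by
  rw [Phi, pr_add, pt_add]; rfl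

lemma Phi_zero : Phi π (0 : P ι) = 1 := by
  have := Phi_add π (0 : P ι) 0
  rw [add_zero] at this
  exact left_eq_mul.1 this

lemma Phi_neg (t : P ι) : Phi π (-t) = (Phi π t)⁻¹ := by
  rw [eq_inv_iff_mul_eq_one, ← Phi_add, neg_add_cancel, Phi_zero]

lemma Phi_nsmul (n : ℕ) (t : P ι) : Phi π (n • t) = Phi π t ^ n := by
  induction n with
  | zero => rw [zero_nsmul, Phi_zero, pow_zero]
  | succ n ih => rw [succ_nsmul, Phi_add, ih, pow_succ]

/-- `Phi` is continuous for convergence of families along a filter. -/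
lemma Phi_tendsto {α : Type*} {F : Filter α} (f : α → P ι) (g : P ι)
    (h : ∀ i q, Tendsto (fun a => f a i q) F (𝓝 (g i q))) :
    Tendsto (fun a => Phi π (f a)) F (𝓝 (Phi π g)) := by
  apply tendsto_of_char
  intro χ
  simp_rw [Phi_spec]
  apply (continuous_e.tendsto _).comp
  simp_rw [pr_apply]
  exact tendsto_finsetSum _ (fun i _ => h i _)

/-- surjectivity onto annihilators. -/
theorem exists_Phi_eq (J : Set ι) (c : C)
    (hc : ∀ χ : Ch C, (∀ i ∈ J, π χ i = 0) → χ.toMul c = 1) :
    ∃ t : P ι, (∀ i, i ∉ J → t i = 0) ∧ Phi π t = c := by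
  classical
  let πJ : Ch C →+ (ι →₀ ℚ) := (Finsupp.filterAddHom (· ∈ J)).comp π
  have hπJ : ∀ χ, πJ χ = Finsupp.filter (· ∈ J) (π χ) := fun χ => rfl
  have hker : πJ.ker ≤ (hm c).ker := by
    intro χ hχ
    rw [AddMonoidHom.mem_ker] at hχ ⊢
    have h1 : χ.toMul c = 1 := by
      apply hc
      intro i hi
      have := DFunLike.congr_fun hχ i
      rw [hπJ, Finsupp.filter_apply_pos _ _ hi] at this
      exact this
    change l (χ.toMul c) = 0
    rw [h1, l_one]
  obtain ⟨k, hk⟩ := exists_ext div_T (QuotientAddGroup.kerLift πJ)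
    (QuotientAddGroup.kerLift_injective πJ) (QuotientAddGroup.lift πJ.ker (hm c) hker)
  have hk' : ∀ χ, k (πJ χ) = hm c χ := fun χ => hk (χ : _ ⧸ πJ.ker)
  refine ⟨fun i => if i ∈ J then k.comp (Finsupp.singleAddHom i) else 0,
    fun i hi => by simp [hi], ?_⟩
  apply ext_ch
  intro χ
  rw [Phi_spec, ← e_hm, ← hk']
  congr 1
  rw [pr_apply]
  have h1 : ∀ i q, (if i ∈ J then k.comp (Finsupp.singleAddHom i) else 0 : ℚ →+ 𝕋) q =
      if i ∈ J then k (Finsupp.single i q) else 0 := by
    intro i q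
    split_ifs <;> simp
  simp_rw [h1]
  rw [hπJ, Finsupp.filter_eq_sum, map_sum, Finsupp.sum]
  rw [Finset.sum_filter]

/-- surjectivity -/
theorem exists_Phi_eq' (hπ : Function.Injective π) (c : C) : ∃ t : P ι, Phi π t = c := by
  obtain ⟨t, _, ht⟩ := exists_Phi_eq π univ c (by
    intro χ h
    have h1 : π χ = π 0 := by
      rw [map_zero]
      ext i
      exact h i (mem_univ i)
    have h2 : χ = 0 := hπ h1
    rw [h2]
    rfl)
  exact ⟨t, ht⟩

end Phi

end

end Pool.Agent.Helper80
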