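import Mathlib

set_option autoImplicit false

namespace Pool.Agent.Helper80.TreeLike

universe u

section
variable {T : Type u} (par : T → T) (dep : T → ℕ) (root : T)

/-- graph of a parent function -/
def parGraph : SimpleGraph T := SimpleGraph.fromRel (fun x y => par x = y)

theorem parGraph_adj {x y : T} : (parGraph par).Adj x y ↔ x ≠ y ∧ (par x = y ∨ par y = x) := by
  unfold parGraph
  rw [SimpleGraph.fromRel_adj]

variable {par} {dep} {root}

theorem parGraph_reach (h0 : par root = root)
    (h1 : ∀ x, x ≠ root → dep (par x) < dep x) :
    ∀ (n : ℕ) (x : T), dep x ≤ n → (parGraph par).Reachable x root := by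
  intro n
  induction n with
  | zero =>
    intro x hx
    by_cases h : x = root
    · rw [h]
    · have := h1 x h
      omega
  | succ n ih =>
    intro x hx
    by_cases h : x = root
    · rw [h]
    · have h2 := h1 x h
      have h3 : (parGraph par).Adj x (par x) := by
        rw [parGraph_adj]
        refine ⟨?_, Or.inl rfl⟩
        intro heq
        rw [← heq] at h2
        omega
      exact h3.reachable.trans (ih _ (by omega))

theorem parGraph_isTree (h0 : par root = root)
    (h1 : ∀ x, x ≠ root → dep (par x) < dep x) : (parGraph par).IsTree := by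
  classical
  haveI : Nonempty T := ⟨root⟩
  refine ⟨⟨?_⟩, ?_⟩
  · intro x y
    exact (parGraph_reach h0 h1 _ x le_rfl).trans (parGraph_reach h0 h1 _ y le_rfl).symm
  · intro v c hc
    obtain ⟨w, hw, hmax⟩ := Finset.exists_max_image c.support.toFinset dep
      ⟨v, List.mem_toFinset.mpr c.start_mem_support⟩
    rw [List.mem_toFinset] at hw
    have hc' := hc.rotate hw
    have key : ∀ x, (parGraph par).Adj w x → x ∈ c.support → x = par w := by
      intro x hadj hx
      rw [parGraph_adj] at hadj
      obtain ⟨hne, h | h⟩ := hadj
      · exact h.symm
      · exfalso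
        have hxr : x ≠ root := by
          intro hxr
          rw [hxr, h0] at h
          exact hne (h.symm.trans hxr.symm)
        have h2 := h1 x hxr
        rw [h] at h2
        have h3 := hmax x (List.mem_toFinset.mpr hx)
        omega
    apply hc'.snd_ne_penultimate
    have hnil : ¬ (c.rotate w hw).Nil := hc'.not_nil
    have hs : ∀ x, x ∈ (c.rotate w hw).support → x ∈ c.support := by
      intro x hx
      simpa using hx
    rw [key _ (SimpleGraph.Walk.adj_snd hnil)
        (hs _ (SimpleGraph.Walk.getVert_mem_support _ _)),
      key _ (SimpleGraph.Walk.adj_penultimate hnil).symm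
        (hs _ (SimpleGraph.Walk.getVert_mem_support _ _))]

theorem parGraph_dist_le (hconn : (parGraph par).Connected) :
    ∀ (n : ℕ) (x : T), (parGraph par).dist x (par^[n] x) ≤ n := by
  intro n
  induction n with
  | zero => intro x; simp
  | succ n ih =>
    intro x
    rw [Function.iterate_succ_apply]
    have h1 := hconn.dist_triangle (u := x) (v := par x) (w := par^[n] (par x))
    have h2 := ih (par x)
    have h3 : (parGraph par).dist x (par x) ≤ 1 := by
      by_cases h : x = par x
      · rw [← h]; simp
      · have : (parGraph par).Adj x (par x) := by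
          rw [parGraph_adj]
          exact ⟨h, Or.inl rfl⟩
        rw [SimpleGraph.dist_eq_one_iff_adj.mpr this]
    omega

end

/-- edge-wise Lipschitz maps are Lipschitz for the path metrics -/
theorem dist_le_of_adj {V W : Type*} {G : SimpleGraph V} {H : SimpleGraph W}
    (hG : G.Connected) (hH : H.Connected) (f : V → W) (K : ℕ)
    (hK : ∀ x y, G.Adj x y → H.dist (f x) (f y) ≤ K) (x y : V) :
    H.dist (f x) (f y) ≤ K * G.dist x y := by
  obtain ⟨p, hp⟩ := hG.exists_walk_length_eq_dist x y
  rw [← hp]
  clear hp
  induction p with
  | nil => simp
  | @cons a b c h q ih =>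
    have h1 := hH.dist_triangle (u := f a) (v := f b) (w := f c)
    have h2 := hK _ _ h
    rw [SimpleGraph.Walk.length_cons]
    calc H.dist (f a) (f c) ≤ K + K * q.length := by omega
      _ = K * (q.length + 1) := by ring

end Pool.Agent.Helper80.TreeLike
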