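import Pool.Agent.Helper80.VFree
import Pool.Agent.Helper80.ParentTree

set_option autoImplicit false

namespace Pool.Agent.Helper80.TreeLike

open FreeGroup

universe u

attribute [local instance] VData.dec VData.fin

section
variable {G : Type u} [Group G] (D : VData G) {L : Type}

/-- left translation on (partial) edges -/
def act (v : FreeGroup D.β) (s : G × Option L) : G × Option L := (D.j v * s.1, s.2)

theorem act_act (v w : FreeGroup D.β) (s : G × Option L) :
    act D v (act D w s) = act D (v * w) s := by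
  unfold act
  simp [mul_assoc]

theorem act_one (s : G × Option L) : act D 1 s = s := by
  unfold act
  simp

/-- data of a translation invariant closure system and its least closed set -/
structure Sys where
  val : L → G
  P : Set (G × Option L)
  Rule : Set (G × Option L) → G × Option L → Prop
  E0 : Set (G × Option L)
  r : ℕ
  N0 : ℕ
  hinv : ∀ v F o, Rule F o → Rule (act D v '' F) (act D v o)
  hr : ∀ F o, Rule F o → ∀ p ∈ F, norm ((D.π o.1)⁻¹ * D.π p.1) ≤ r
  hE0 : E0 ⊆ P
  hclosed : ∀ F o, Rule F o → F ⊆ P → o ∈ P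
  hmin : ∀ Q : Set (G × Option L), E0 ⊆ Q → (∀ F o, Rule F o → F ⊆ Q → o ∈ Q) → P ⊆ Q
  hN0 : ∀ s ∈ E0, norm (D.π s.1) ≤ N0
  hedge : ∀ g a, (g, some a) ∈ P → (g, none) ∈ P ∧ (g * val a, none) ∈ P
  hlip : ∀ g a, norm ((D.π g)⁻¹ * D.π (g * val a)) ≤ r

end

section
variable {G : Type u} [Group G] {D : VData G} {L : Type} (S : Sys D (L := L))

theorem lemA (v f : FreeGroup D.β) (hE : ∀ s ∈ S.E0, ¬ Pre f (D.π s.1))
    (hcol : ∀ s ∈ S.P, Pre f (D.π s.1) → norm (f⁻¹ * D.π s.1) ≤ S.r → act D v s ∈ S.P) :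
    ∀ s ∈ S.P, Pre f (D.π s.1) → act D v s ∈ S.P := by
  have key : S.P ⊆ {s | s ∈ S.P ∧ (Pre f (D.π s.1) → act D v s ∈ S.P)} := by
    apply S.hmin
    · intro s hs
      exact ⟨S.hE0 hs, fun h => absurd h (hE s hs)⟩
    · intro F o hF hsub
      have hoP : o ∈ S.P := S.hclosed F o hF (fun p hp => (hsub hp).1)
      refine ⟨hoP, fun ho => ?_⟩
      by_cases hall : ∀ p ∈ F, Pre f (D.π p.1)
      · apply S.hclosed _ _ (S.hinv v F o hF)
        rintro _ ⟨p, hp, rfl⟩
        exact (hsub hp).2 (hall p hp)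
      · push Not at hall
        obtain ⟨p, hp, hnp⟩ := hall
        apply hcol o hoP ho
        have h1 := ho.norm_lt hnp
        have h2 := S.hr F o hF p hp
        omega
  intro s hs
  exact (key hs).2

/-- the finite ball in `G × Option L` -/
def ballS : Set (G × Option L) := {s | norm (D.π s.1) ≤ S.r}

theorem ballS_finite [Finite L] : (ballS S).Finite := by
  have h1 : {g : G | norm (D.π g) ≤ S.r}.Finite := D.ball_finite S.r
  have h2 : (Set.univ : Set (Option L)).Finite := Set.finite_univ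
  apply (h1.prod h2).subset
  intro s hs
  exact ⟨hs, Set.mem_univ _⟩

/-- the finite type of `f` -/
noncomputable def key (f : FreeGroup D.β) :
    FreeGroup D.β ⊕ (Option (D.β × Bool) × Set (G × Option L)) :=
  if norm f ≤ S.N0 then Sum.inl f else
    Sum.inr (f.toWord.getLast?, {s | s ∈ ballS S ∧ act D f s ∈ S.P})

theorem key_range_finite [Finite L] : (Set.range (key S)).Finite := by
  have h1 : {f : FreeGroup D.β | norm f ≤ S.N0}.Finite := finite_ball S.N0
  have h2 : (Set.univ : Set (Option (D.β × Bool))).Finite := Set.finite_univ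
  have h3 : {A : Set (G × Option L) | A ⊆ ballS S}.Finite := (ballS_finite S).finite_subsets
  apply ((h1.image Sum.inl).union ((h2.prod h3).image Sum.inr)).subset
  rintro _ ⟨f, rfl⟩
  unfold key
  split_ifs with h
  · left; exact ⟨f, h, rfl⟩
  · right
    refine ⟨_, ⟨Set.mem_univ _, ?_⟩, rfl⟩
    show {s | s ∈ ballS S ∧ act D f s ∈ S.P} ⊆ ballS S
    intro s hs
    exact hs.1

theorem key_eq_cases {f f' : FreeGroup D.β} (h : key S f = key S f') :
    f = f' ∨ (S.N0 < norm f ∧ f.toWord.getLast? = f'.toWord.getLast? ∧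
      ∀ s, s ∈ ballS S → (act D f s ∈ S.P ↔ act D f' s ∈ S.P)) := by
  unfold key at h
  split_ifs at h with h1 h2 h2
  · left; exact Sum.inl_injective h
  · right
    have h3 := Sum.inr_injective h
    rw [Prod.mk.injEq] at h3
    refine ⟨by omega, h3.1, fun s hs => ?_⟩
    have h4 := Set.ext_iff.mp h3.2 s
    simpa [hs] using h4

theorem transfer {f f' : FreeGroup D.β} (h : key S f = key S f') :
    ∀ s ∈ S.P, Pre f (D.π s.1) → act D (f' * f⁻¹) s ∈ S.P := by
  rcases key_eq_cases S h with rfl | ⟨hN, hlast, hball⟩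
  · intro s hs _
    rw [mul_inv_cancel, act_one]
    exact hs
  · apply lemA
    · intro s hs hpre
      have h1 := S.hN0 s hs
      have h2 := hpre.norm_eq
      omega
    · intro s hs hpre hn
      have hb : act D f⁻¹ s ∈ ballS S := by
        show norm (D.π (D.j f⁻¹ * s.1)) ≤ S.r
        rw [D.equiv]
        exact hn
      have h1 := (hball _ hb).mp (by rw [act_act, mul_inv_cancel, act_one]; exact hs)
      rwa [act_act] at h1

theorem transfer_pre {f f' : FreeGroup D.β} (h : key S f = key S f') (g : G)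
    (hg : Pre f (D.π g)) : Pre f' (D.π (D.j (f' * f⁻¹) * g)) := by
  have hlast : f.toWord.getLast? = f'.toWord.getLast? := by
    rcases key_eq_cases S h with rfl | ⟨_, hlast, _⟩
    · rfl
    · exact hlast
  rw [D.equiv]
  exact hg.translate' hlast

/-- the part of the graph inside the cone of `f` -/
def gr (f : FreeGroup D.β) : SimpleGraph G :=
  SimpleGraph.fromRel (fun g g' => ∃ a, g * S.val a = g' ∧ (g, some a) ∈ S.P ∧
    Pre f (D.π g) ∧ Pre f (D.π g'))

theorem gr_adj {f : FreeGroup D.β} {g g' : G} : (gr S f).Adj g g' ↔ g ≠ g' ∧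
    ((∃ a, g * S.val a = g' ∧ (g, some a) ∈ S.P ∧ Pre f (D.π g) ∧ Pre f (D.π g')) ∨
     (∃ a, g' * S.val a = g ∧ (g', some a) ∈ S.P ∧ Pre f (D.π g') ∧ Pre f (D.π g))) := by
  unfold gr
  rw [SimpleGraph.fromRel_adj]

theorem gr_mono {f f' : FreeGroup D.β} (h : Pre f' f) : gr S f ≤ gr S f' := by
  intro g g' hadj
  rw [gr_adj] at hadj ⊢
  refine ⟨hadj.1, ?_⟩
  rcases hadj.2 with ⟨a, h1, h2, h3, h4⟩ | ⟨a, h1, h2, h3, h4⟩
  · left; exact ⟨a, h1, h2, h.trans h3, h.trans h4⟩
  · right; exact ⟨a, h1, h2, h.trans h3, h.trans h4⟩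

/-- translation as a graph homomorphism -/
def trHom {f f' : FreeGroup D.β} (h : key S f = key S f') : gr S f →g gr S f' where
  toFun g := D.j (f' * f⁻¹) * g
  map_rel' := by
    intro g g' hadj
    rw [gr_adj] at hadj ⊢
    refine ⟨fun heq => hadj.1 (mul_left_cancel heq), ?_⟩
    rcases hadj.2 with ⟨a, h1, h2, h3, h4⟩ | ⟨a, h1, h2, h3, h4⟩
    · left
      refine ⟨a, by rw [mul_assoc, h1], ?_, transfer_pre S h _ h3, transfer_pre S h _ h4⟩
      exact transfer S h _ h2 h3
    · right
      refine ⟨a, by rw [mul_assoc, h1], ?_, transfer_pre S h _ h3, transfer_pre S h _ h4⟩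
      exact transfer S h _ h2 h3

/-- uniform bound on distances near the boundary of the cone of `f` -/
def Good (f : FreeGroup D.β) (K : ℕ) : Prop :=
  ∀ g g', Pre f (D.π g) → Pre f (D.π g') → norm (f⁻¹ * D.π g) ≤ S.r + 1 →
    norm (f⁻¹ * D.π g') ≤ S.r + 1 → (gr S f).Reachable g g' → (gr S f).dist g g' ≤ K

theorem Good.mono {f : FreeGroup D.β} {K K' : ℕ} (h : Good S f K) (hK : K ≤ K') :
    Good S f K' := fun g g' h1 h2 h3 h4 h5 => (h g g' h1 h2 h3 h4 h5).trans hK

theorem exists_good (f : FreeGroup D.β) : ∃ K, Good S f K := by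
  have h1 : {g : G | norm (f⁻¹ * D.π g) ≤ S.r + 1}.Finite := by
    apply ((D.ball_finite (S.r + 1)).image (fun g => D.j f * g)).subset
    intro g hg
    refine ⟨D.j f⁻¹ * g, ?_, by simp⟩
    show norm (D.π (D.j f⁻¹ * g)) ≤ S.r + 1
    rw [D.equiv]
    exact hg
  obtain ⟨K, hK⟩ := ((h1.prod h1).image (fun p => (gr S f).dist p.1 p.2)).bddAbove
  exact ⟨K, fun g g' _ _ h3 h4 _ => hK ⟨(g, g'), ⟨h3, h4⟩, rfl⟩⟩

theorem Good.transfer {f f' : FreeGroup D.β} (h : key S f = key S f') {K : ℕ}
    (hK : Good S f K) : Good S f' K := by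
  intro g g' h1 h2 h3 h4 h5
  have hback : ∀ x : G, D.j (f' * f⁻¹) * (D.j (f * f'⁻¹) * x) = x := by
    intro x
    rw [← mul_assoc, ← _root_.map_mul]
    simp
  have hnorm : ∀ x : G, f⁻¹ * D.π (D.j (f * f'⁻¹) * x) = f'⁻¹ * D.π x := by
    intro x
    rw [D.equiv]
    group
  have hreach := h5.map (trHom S h.symm)
  obtain ⟨p, hp⟩ := hreach.exists_walk_length_eq_dist
  have hle : (gr S f).dist (D.j (f * f'⁻¹) * g) (D.j (f * f'⁻¹) * g') ≤ K := by
    apply hK
    · exact transfer_pre S h.symm _ h1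
    · exact transfer_pre S h.symm _ h2
    · rw [hnorm]; exact h3
    · rw [hnorm]; exact h4
    · exact hreach
  have hq := SimpleGraph.dist_le (p.map (trHom S h))
  rw [SimpleGraph.Walk.length_map, hp] at hq
  have e1 : (trHom S h) ((trHom S h.symm) g) = g := hback g
  have e2 : (trHom S h) ((trHom S h.symm) g') = g' := hback g'
  rw [e1, e2] at hq
  exact hq.trans hle

theorem exists_uniform_good [Finite L] : ∃ K, ∀ f, Good S f K := by
  classical
  let m : FreeGroup D.β → ℕ := fun f => Nat.find (exists_good S f)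
  have hm : ∀ f, Good S f (m f) := fun f => Nat.find_spec (exists_good S f)
  have hmk : ∀ f f', key S f = key S f' → m f' ≤ m f := by
    intro f f' h
    exact Nat.find_min' _ ((hm f).transfer S h)
  have hfin : (Set.range m).Finite := by
    choose c hc using fun k : Set.range (key S) => k.2
    have := (key_range_finite S).to_subtype
    apply (Set.finite_range (fun k : Set.range (key S) => m (c k))).subset
    rintro _ ⟨f, rfl⟩
    refine ⟨⟨key S f, f, rfl⟩, ?_⟩
    have h1 := hc ⟨key S f, f, rfl⟩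
    simp only at h1
    exact le_antisymm (hmk _ _ h1.symm) (hmk _ _ h1)
  obtain ⟨K, hK⟩ := hfin.bddAbove
  exact ⟨K, fun f => (hm f).mono S (hK ⟨f, rfl⟩)⟩

end

end Pool.Agent.Helper80.TreeLike
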