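import Mathlib

set_option autoImplicit false
set_option linter.unusedSectionVars false

/-!
# 2-primary torsion of the circle and homomorphisms from `ℚ`

* `zact`: the continuous homomorphism `ℤ_[2] → 𝕋` with `1 ↦ z`, for `z` of 2-power order.
* `exists_seq_two_primary`: every homomorphism `ℚ → 𝕋` is a pointwise limit of a sequence of
  homomorphisms with values in the 2-primary torsion part.
-/

open Topology Filter

namespace Pool.Agent.Helper80

noncomputable section

/-- circle -/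
abbrev 𝕋 : Type := AddCircle (1 : ℝ)

/-- 2-primary elements -/
def IsTwo {M : Type*} [AddCommGroup M] (z : M) : Prop := ∃ k : ℕ, (2 ^ k : ℕ) • z = 0

/-- A divisible group satisfies Baer's condition. -/
lemma baer_of_div {M : Type*} [AddCommGroup M] (h : ∀ (n : ℕ), n ≠ 0 → ∀ a : M, ∃ b : M, n • b = a) :
    Module.Baer ℤ M := by
  have h' : ∀ (n : ℤ), n ≠ 0 → ∀ a : M, ∃ b : M, n • b = a := by
    intro n hn a
    obtain ⟨b, hb⟩ := h n.natAbs (Int.natAbs_ne_zero.2 hn) a
    rcases Int.natAbs_eq n with h1 | h1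
    · refine ⟨b, ?_⟩
      rw [h1, natCast_zsmul, hb]
    · refine ⟨-b, ?_⟩
      rw [h1, neg_smul, smul_neg, neg_neg, natCast_zsmul, hb]
  classical
  let _ : DivisibleBy M ℤ :=
    { div := fun a n => if hn : n = 0 then 0 else Classical.choose (h' n hn a)
      div_zero := fun a => by simp
      div_cancel := fun {n} a hn => by
        simp only [hn, dif_neg, not_false_eq_true]
        exact Classical.choose_spec (h' n hn a) }
  exact Module.Baer.of_divisible M

/-- extension of homomorphisms into divisible groups -/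
lemma exists_ext {M N Q : Type*} [AddCommGroup M] [AddCommGroup N] [AddCommGroup Q]
    (h : ∀ (n : ℕ), n ≠ 0 → ∀ a : Q, ∃ b : Q, n • b = a) (f : M →+ N)
    (hf : Function.Injective f) (g : M →+ Q) : ∃ k : N →+ Q, ∀ x, k (f x) = g x := by
  obtain ⟨k, hk⟩ := (baer_of_div h).extension_property_addMonoidHom f hf g
  exact ⟨k, fun x => DFunLike.congr_fun hk x⟩

lemma div_T (n : ℕ) (hn : n ≠ 0) (a : 𝕋) : ∃ b : 𝕋, n • b = a := by
  refine ⟨DivisibleBy.div a (n : ℤ), ?_⟩
  have := DivisibleBy.div_cancel (A := 𝕋) (α := ℤ) a (n := (n : ℤ)) (by exact_mod_cast hn)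
  rwa [natCast_zsmul] at this

/-- The 2-primary torsion subgroup of the circle. -/
def T2 : AddSubgroup 𝕋 where
  carrier := {z | IsTwo z}
  zero_mem' := ⟨0, by simp⟩
  add_mem' := by
    rintro a b ⟨k, hk⟩ ⟨l, hl⟩
    refine ⟨k + l, ?_⟩
    rw [smul_add, pow_add, mul_comm, mul_smul, hk, smul_zero, mul_comm, mul_smul, hl, smul_zero,
      add_zero]
  neg_mem' := by
    rintro a ⟨k, hk⟩
    exact ⟨k, by rw [smul_neg, hk, neg_zero]⟩

lemma div_T2 (n : ℕ) (hn : n ≠ 0) (a : T2) : ∃ b : T2, n • b = a := by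
  obtain ⟨e, m, hm, rfl⟩ := Nat.exists_eq_two_pow_mul_odd hn
  obtain ⟨a, k, hk⟩ := a
  obtain ⟨w, hw⟩ := div_T (2 ^ e) (by positivity) a
  have hw0 : (2 ^ (k + e) : ℕ) • w = 0 := by rw [pow_add, mul_smul, hw, hk]
  have hc : IsCoprime (m : ℤ) ((2 ^ (k + e) : ℕ) : ℤ) := by
    rw [Nat.isCoprime_iff_coprime]
    exact Nat.Coprime.pow_right _ (Nat.coprime_two_right.2 hm)
  obtain ⟨x, y, hxy⟩ := hc
  have hxw : (2 ^ (k + e) : ℕ) • (x • w) = 0 := by
    rw [smul_comm, hw0, smul_zero]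
  refine ⟨⟨x • w, k + e, hxw⟩, ?_⟩
  apply Subtype.ext
  change (2 ^ e * m) • (x • w) = a
  have h1 : m • (x • w) = w := by
    have h2 : (x * (m : ℤ) + y * ((2 ^ (k + e) : ℕ) : ℤ)) • w = w := by rw [hxy, one_smul]
    rw [add_smul, mul_smul, mul_smul, natCast_zsmul, natCast_zsmul, hw0, smul_zero, add_zero] at h2
    rw [smul_comm, h2]
  rw [mul_smul, h1, hw]

/-- approximation by 2-primary elements -/
lemma exists_T2_near (z : 𝕋) (ε : ℝ) (hε : 0 < ε) : ∃ w : T2, ‖(w : 𝕋) - z‖ < ε := by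
  obtain ⟨r, rfl⟩ := QuotientAddGroup.mk_surjective z
  obtain ⟨k, hk⟩ := exists_pow_lt_of_lt_one hε (by norm_num : (1 / 2 : ℝ) < 1)
  have h2k : (0 : ℝ) < 2 ^ k := by positivity
  refine ⟨⟨((⌊2 ^ k * r⌋ / 2 ^ k : ℝ) : 𝕋), k, ?_⟩, ?_⟩
  · rw [← AddCircle.coe_nsmul]
    have : (2 ^ k : ℕ) • ((⌊2 ^ k * r⌋ / 2 ^ k : ℝ)) = ((⌊2 ^ k * r⌋ : ℤ) : ℝ) := by
      rw [nsmul_eq_mul]
      push_cast
      field_simp
    rw [this]
    have h3 := AddCircle.coe_eq_zero_iff (p := (1 : ℝ)) (x := ((⌊2 ^ k * r⌋ : ℤ) : ℝ))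
    exact h3.2 ⟨⌊2 ^ k * r⌋, by simp⟩
  · change ‖((⌊2 ^ k * r⌋ / 2 ^ k : ℝ) : 𝕋) - (r : 𝕋)‖ < ε
    rw [← AddCircle.coe_sub]
    refine (QuotientAddGroup.norm_mk_le_norm (S := AddSubgroup.zmultiples (1 : ℝ))).trans_lt ?_
    rw [Real.norm_eq_abs]
    have h4 : |(⌊2 ^ k * r⌋ / 2 ^ k : ℝ) - r| ≤ (1 / 2) ^ k := by
      have h5 : (⌊2 ^ k * r⌋ / 2 ^ k : ℝ) - r = - (Int.fract (2 ^ k * r) / 2 ^ k) := by
        have := Int.floor_add_fract (2 ^ k * r)
        field_simp
        linarith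
      rw [h5, abs_neg, abs_of_nonneg (by positivity)]
      rw [div_pow, one_pow]
      gcongr
      exact (Int.fract_lt_one _).le
    exact h4.trans_lt hk

lemma exists_hom_T2 (n : ℕ) (hn : n ≠ 0) (z : T2) : ∃ h : ℚ →+ 𝕋, (∀ q, IsTwo (h q)) ∧
    h (1 / n) = z := by
  let f : ℤ →+ ℚ := (AddMonoidHom.mulLeft (1 / n : ℚ)).comp (Int.castAddHom ℚ)
  have hf : Function.Injective f := by
    intro a b hab
    simp only [f, AddMonoidHom.coe_comp, Function.comp_apply, Int.coe_castAddHom,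
      AddMonoidHom.coe_mulLeft] at hab
    have hn' : (1 / n : ℚ) ≠ 0 := by positivity
    exact_mod_cast mul_left_cancel₀ hn' hab
  obtain ⟨k, hk⟩ := exists_ext div_T2 f hf (zmultiplesHom T2 z)
  refine ⟨T2.subtype.comp k, fun q => (k q).2, ?_⟩
  have h1 := hk 1
  simp only [f, AddMonoidHom.coe_comp, Function.comp_apply, Int.coe_castAddHom,
    AddMonoidHom.coe_mulLeft, Int.cast_one, mul_one, zmultiplesHom_apply, one_smul] at h1
  rw [AddMonoidHom.comp_apply, h1]
  rfl

/-- Every homomorphism `ℚ → 𝕋` is a pointwise limit of 2-primary ones. -/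
theorem exists_seq_two_primary (h : ℚ →+ 𝕋) : ∃ g : ℕ → (ℚ →+ 𝕋), (∀ n q, IsTwo (g n q)) ∧
    ∀ q, Tendsto (fun n => g n q) atTop (𝓝 (h q)) := by
  have hz : ∀ n : ℕ, ∃ w : T2, ‖(w : 𝕋) - h (1 / (n.factorial : ℕ))‖ < 1 / ((n + 1) * n.factorial) := by
    intro n
    exact exists_T2_near _ _ (by positivity)
  choose w hw using hz
  choose g hg1 hg2 using fun n : ℕ => exists_hom_T2 n.factorial (Nat.factorial_ne_zero n) (w n)
  refine ⟨g, hg1, fun q => ?_⟩
  rw [tendsto_iff_norm_sub_tendsto_zero]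
  refine squeeze_zero' (Eventually.of_forall fun n => norm_nonneg _) (g := fun n : ℕ => |(q.num : ℝ)| / (n + 1)) ?_ ?_
  · filter_upwards [eventually_ge_atTop q.den] with n hn
    have hd : q.den ∣ n.factorial := Nat.dvd_factorial q.den_pos hn
    obtain ⟨e, he⟩ := hd
    have hq : q = (q.num * (e : ℤ)) • (1 / (n.factorial : ℕ) : ℚ) := by
      rw [zsmul_eq_mul, he]
      push_cast
      have hd0 : (q.den : ℚ) ≠ 0 := by exact_mod_cast q.den_ne_zero
      have he0 : (e : ℚ) ≠ 0 := by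
        intro h0
        have : e = 0 := by exact_mod_cast h0
        rw [this, mul_zero] at he
        exact Nat.factorial_ne_zero n he
      field_simp
      exact (Rat.mul_den_eq_num q)
    have h1 : g n q - h q = (q.num * (e : ℤ)) • (g n (1 / (n.factorial : ℕ)) - h (1 / (n.factorial : ℕ))) := by
      conv_lhs => rw [hq]
      rw [map_zsmul, map_zsmul, smul_sub]
    rw [h1, hg2]
    calc ‖(q.num * (e : ℤ)) • ((w n : 𝕋) - h (1 / (n.factorial : ℕ)))‖
        ≤ ‖(q.num * (e : ℤ))‖ * ‖((w n : 𝕋) - h (1 / (n.factorial : ℕ)))‖ := norm_zsmul_le _ _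
      _ ≤ ‖(q.num * (e : ℤ))‖ * (1 / ((n + 1) * n.factorial)) := by
          gcongr
          exact (hw n).le
      _ ≤ |(q.num : ℝ)| / (n + 1) := by
          rw [Int.norm_eq_abs]
          push_cast
          rw [abs_mul, Nat.abs_cast]
          have hfac : (n.factorial : ℝ) = q.den * e := by exact_mod_cast he
          have he0 : (0 : ℝ) ≤ e := by positivity
          have hle : (e : ℝ) ≤ n.factorial := by
            rw [hfac]
            have : (1 : ℝ) ≤ q.den := by exact_mod_cast q.den_pos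
            nlinarith
          have hfp : (0 : ℝ) < n.factorial := by exact_mod_cast Nat.factorial_pos n
          rw [mul_one_div, div_le_div_iff₀ (by positivity) (by positivity)]
          have : |(q.num : ℝ)| * e ≤ |(q.num : ℝ)| * n.factorial := by gcongr
          nlinarith [abs_nonneg (q.num : ℝ)]
  · have := tendsto_one_div_add_atTop_nhds_zero_nat (𝕜 := ℝ)
    have h2 := this.const_mul |(q.num : ℝ)|
    simp only [mul_one_div, mul_zero] at h2
    exact h2

/-! ### The action of the 2-adic integers -/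

instance : Fact (Nat.Prime 2) := ⟨Nat.prime_two⟩

lemma eq_of_dense {f g : ℤ_[2] → 𝕋} (hf : Continuous f) (hg : Continuous g)
    (h : ∀ n : ℤ, f n = g n) : f = g :=
  PadicInt.denseRange_intCast.equalizer hf hg (funext h)

lemma exists_zact (z : 𝕋) (hz : IsTwo z) : ∃ f : ℤ_[2] →+ 𝕋, Continuous f ∧ f 1 = z := by
  obtain ⟨k, hk⟩ := hz
  have hk' : (zmultiplesHom 𝕋 z) ((2 ^ k : ℕ) : ℤ) = 0 := by
    rw [zmultiplesHom_apply, natCast_zsmul, hk]
  let L : ZMod (2 ^ k) →+ 𝕋 := ZMod.lift (2 ^ k) ⟨zmultiplesHom 𝕋 z, hk'⟩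
  refine ⟨L.comp (PadicInt.toZModPow k : ℤ_[2] →+* ZMod (2 ^ k)).toAddMonoidHom, ?_, ?_⟩
  · -- continuity
    rw [continuous_iff_continuousAt]
    intro a
    have h1 : ∀ᶠ b in 𝓝 a, PadicInt.toZModPow k b = PadicInt.toZModPow k a := by
      have : Metric.ball a ((2 : ℝ) ^ (-(k : ℤ))) ∈ 𝓝 a := Metric.ball_mem_nhds a (by positivity)
      filter_upwards [this] with b hb
      rw [← sub_eq_zero, ← map_sub, ← RingHom.mem_ker, PadicInt.ker_toZModPow,
        ← PadicInt.norm_le_pow_iff_mem_span_pow]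
      rw [Metric.mem_ball, dist_eq_norm] at hb
      exact_mod_cast hb.le
    refine (continuousAt_const (y := L (PadicInt.toZModPow k a))).congr ?_
    filter_upwards [h1] with b hb
    simp [hb]
  · have : L ((1 : ℤ) : ZMod (2 ^ k)) = z := by
      rw [ZMod.lift_coe]
      simp
    simpa using this

/-- The continuous homomorphism `ℤ_[2] → 𝕋` with `1 ↦ z`. -/
def zact (z : 𝕋) (hz : IsTwo z) : ℤ_[2] →+ 𝕋 := Classical.choose (exists_zact z hz)

lemma continuous_zact (z : 𝕋) (hz : IsTwo z) : Continuous (zact z hz) :=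
  (Classical.choose_spec (exists_zact z hz)).1

lemma zact_one (z : 𝕋) (hz : IsTwo z) : zact z hz 1 = z :=
  (Classical.choose_spec (exists_zact z hz)).2

lemma zact_int (z : 𝕋) (hz : IsTwo z) (n : ℤ) : zact z hz n = n • z := by
  have : (n : ℤ_[2]) = n • (1 : ℤ_[2]) := by simp
  rw [this, map_zsmul, zact_one]

lemma zact_add (z w : 𝕋) (hz : IsTwo z) (hw : IsTwo w) (hzw : IsTwo (z + w)) (a : ℤ_[2]) :
    zact (z + w) hzw a = zact z hz a + zact w hw a := by
  have := eq_of_dense (f := zact (z + w) hzw) (g := fun a => zact z hz a + zact w hw a)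
    (continuous_zact _ _) ((continuous_zact _ _).add (continuous_zact _ _))
    (fun n => by rw [zact_int, zact_int, zact_int, smul_add])
  exact congrFun this a

lemma zact_zero (h0 : IsTwo (0 : 𝕋)) (a : ℤ_[2]) : zact 0 h0 a = 0 := by
  have := eq_of_dense (f := zact 0 h0) (g := fun _ => 0)
    (continuous_zact _ _) continuous_const
    (fun n => by rw [zact_int, smul_zero])
  exact congrFun this a

end

end Pool.Agent.Helper80
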