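import Pool.Agent.Helper80.FreePrefix

set_option autoImplicit false

namespace Pool.Agent.Helper80.TreeLike

open FreeGroup

universe u

/-- a finitely generated free group has finite basis -/
theorem finite_of_fg {β : Type u} (h : Group.FG (FreeGroup β)) : Finite β := by
  classical
  obtain ⟨S, hS, hfin⟩ := (Group.fg_iff.mp h)
  -- support of the generating set
  let supp : Set β := ⋃ s ∈ S, {b | ∃ x ∈ s.toWord, x.1 = b}
  have hsupp : supp.Finite := by
    apply hfin.biUnion
    intro s _
    apply (s.toWord.map Prod.fst).toFinset.finite_toSet.subset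
    rintro b ⟨x, hx, rfl⟩
    simp only [List.coe_toFinset, Set.mem_setOf_eq, List.mem_map]
    exact ⟨x, hx, rfl⟩
  have huniv : supp = Set.univ := by
    by_contra hne
    obtain ⟨b, hb⟩ := (Set.ne_univ_iff_exists_notMem _).mp hne
    let φ : FreeGroup β →* Multiplicative ℤ :=
      FreeGroup.lift (fun c => if c = b then Multiplicative.ofAdd 1 else 1)
    have hφ : ∀ s ∈ S, φ s = 1 := by
      intro s hs
      have hall : ∀ x ∈ s.toWord, x.1 ≠ b := by
        intro x hx hxb
        apply hb
        simp only [supp, Set.mem_iUnion]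
        exact ⟨s, hs, x, hx, hxb⟩
      rw [← mk_toWord (x := s)]
      simp only [φ, FreeGroup.lift_mk]
      apply List.prod_eq_one
      intro y hy
      rw [List.mem_map] at hy
      obtain ⟨x, hx, rfl⟩ := hy
      simp [hall x hx]
    have hle : (⊤ : Subgroup (FreeGroup β)) ≤ φ.ker := by
      rw [← hS, Subgroup.closure_le]
      intro s hs
      exact hφ s hs
    have h1 : φ (FreeGroup.of b) = 1 := hle (Subgroup.mem_top _)
    simp only [φ, FreeGroup.lift_apply_of, if_true] at h1
    have := congrArg Multiplicative.toAdd h1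
    simp at this
  exact Set.finite_univ_iff.mp (huniv ▸ hsupp)

/-- structural data extracted from a virtually free group -/
structure VData (G : Type u) [Group G] where
  β : Type u
  fin : Finite β
  dec : DecidableEq β
  j : FreeGroup β →* G
  π : G → FreeGroup β
  equiv : ∀ (v : FreeGroup β) (g : G), π (j v * g) = v * π g
  fib : {g : G | π g = 1}.Finite
  one : π 1 = 1

theorem exists_vdata (G : Type u) [Group G] (hG : Group.FG G)
    (H : Subgroup G) [hH : H.FiniteIndex] [hfree : IsFreeGroup H] : Nonempty (VData G) := by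
  classical
  obtain ⟨ι, ⟨b⟩⟩ := hfree.nonempty_basis
  have hHfg : Group.FG H := Subgroup.fg_of_index_ne_zero H
  have hfg : Group.FG (FreeGroup ι) :=
    Group.fg_of_surjective (f := (b.repr : H →* FreeGroup ι)) b.repr.surjective
  have hfin : Finite ι := finite_of_fg hfg
  obtain ⟨T, hT, hT1⟩ := H.exists_isComplement_right 1
  have hTfin : T.Finite := hT.finite_right
  refine ⟨{ β := ι, fin := hfin, dec := Classical.decEq _,
            j := H.subtype.comp (b.repr.symm : FreeGroup ι →* H),
            π := fun g => b.repr ((hT.equiv g).1), equiv := ?_, fib := ?_, one := ?_ }⟩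
  · intro v g
    have := Subgroup.IsComplement.equiv_mul_left hT (b.repr.symm v) g
    simp only [MonoidHom.comp_apply, Subgroup.coe_subtype]
    have h2 : hT.equiv (((b.repr.symm : FreeGroup ι →* H) v : H) * g) =
        (b.repr.symm v * (hT.equiv g).1, (hT.equiv g).2) := this
    rw [h2]
    simp
  · apply hTfin.subset
    intro g hg
    simp only [Set.mem_setOf_eq] at hg
    have h1 : (hT.equiv g).1 = 1 := by
      apply b.repr.injective
      rw [hg, _root_.map_one]
    have h2 := Subgroup.IsComplement.equiv_fst_mul_equiv_snd hT g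
    rw [h1] at h2
    simp only [Subgroup.coe_one, one_mul] at h2
    rw [← h2]
    exact (hT.equiv g).2.2
  · have := Subgroup.IsComplement.equiv_one hT (H.one_mem) hT1
    rw [this]
    have h3 : (⟨1, H.one_mem⟩ : H) = 1 := rfl
    simp only
    rw [h3, _root_.map_one]

namespace VData

variable {G : Type u} [Group G] (D : VData G)

theorem fib_finite (v : FreeGroup D.β) : {g : G | D.π g = v}.Finite := by
  apply (D.fib.image (fun g => D.j v * g)).subset
  intro g hg
  refine ⟨D.j v⁻¹ * g, ?_, ?_⟩
  · simp only [Set.mem_setOf_eq] at hg ⊢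
    rw [D.equiv, hg, inv_mul_cancel]
  · simp

theorem ball_finite (r : ℕ) :
    {g : G | @norm D.β D.dec (D.π g) ≤ r}.Finite := by
  haveI := D.fin
  letI := D.dec
  have : {g : G | norm (D.π g) ≤ r} = ⋃ v ∈ {v : FreeGroup D.β | norm v ≤ r}, {g | D.π g = v} := by
    ext g
    simp
  rw [this]
  exact (finite_ball r).biUnion (fun v _ => D.fib_finite v)

/-- right multiplication by a fixed element moves the projection by a bounded amount -/
theorem bounded (x : G) : ∃ r : ℕ, ∀ h : G, @norm D.β D.dec ((D.π h)⁻¹ * D.π (h * x)) ≤ r := by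
  letI := D.dec
  obtain ⟨r, hr⟩ := (D.fib.image (fun t => norm (D.π (t * x)))).bddAbove
  refine ⟨r, fun h => ?_⟩
  have h1 : D.π (D.j (D.π h)⁻¹ * h) = 1 := by rw [D.equiv, inv_mul_cancel]
  have h2 : (D.π h)⁻¹ * D.π (h * x) = D.π ((D.j (D.π h)⁻¹ * h) * x) := by
    rw [mul_assoc, D.equiv]
  rw [h2]
  exact hr ⟨_, h1, rfl⟩

end VData

end Pool.Agent.Helper80.TreeLike
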